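import Mathlib

set_option autoImplicit false

namespace Pool.Agent.Work.MP_a74ba6_co

open Classical

variable {V : Type*}

/-- `PM A S`: the finite set `S` can be partitioned into pairs `{x, y}` with `A x y`. -/
inductive PM (A : V → V → Prop) : Finset V → Prop
  | empty : PM A ∅
  | pair {S : Finset V} {x y : V} : PM A S → x ∉ S → y ∉ S → x ≠ y → A x y →
      PM A (insert x (insert y S))

/-- symmetrised relation -/
def Ad (D : V → V → Prop) (x y : V) : Prop := D x y ∨ D y x

theorem Ad.symm {D : V → V → Prop} {x y : V} (h : Ad D x y) : Ad D y x := Or.symm h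

theorem PM.mono {A B : V → V → Prop} {S : Finset V} (h : PM A S)
    (hAB : ∀ x ∈ S, ∀ y ∈ S, A x y → B x y) : PM B S := by
  induction h with
  | empty => exact PM.empty
  | @pair S x y _ hx hy hxy hA ih =>
    refine PM.pair (ih ?_) hx hy hxy (hAB _ (by simp) _ (by simp) hA)
    intro a ha b hb
    exact hAB a (by simp [ha]) b (by simp [hb])

/-- the partner of a vertex -/
theorem PM.partner {A : V → V → Prop} (hs : ∀ x y, A x y → A y x) {S : Finset V} (h : PM A S) :
    ∀ x ∈ S, ∃ y ∈ S, y ≠ x ∧ A x y ∧ PM A (S \ {x, y}) := by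
  induction h with
  | empty => intro x hx; simp at hx
  | @pair S a b hS ha hb hab hA ih =>
    intro x hx
    by_cases hxa : x = a
    · subst hxa
      refine ⟨b, by simp, fun h => hab h.symm, hA, ?_⟩
      have : (insert x (insert b S)) \ {x, b} = S := by
        ext z; simp only [Finset.mem_sdiff, Finset.mem_insert, Finset.mem_singleton]
        constructor
        · rintro ⟨h1, h2⟩; tauto
        · intro hz
          refine ⟨Or.inr (Or.inr hz), ?_⟩
          rintro (rfl | rfl)
          · exact ha hz
          · exact hb hz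
      rw [this]; exact hS
    · by_cases hxb : x = b
      · subst hxb
        refine ⟨a, by simp, hab, hs _ _ hA, ?_⟩
        have : (insert a (insert x S)) \ {x, a} = S := by
          ext z; simp only [Finset.mem_sdiff, Finset.mem_insert, Finset.mem_singleton]
          constructor
          · rintro ⟨h1, h2⟩; tauto
          · intro hz
            refine ⟨Or.inr (Or.inr hz), ?_⟩
            rintro (rfl | rfl)
            · exact hb hz
            · exact ha hz
        rw [this]; exact hS
      · have hxS : x ∈ S := by
          simp only [Finset.mem_insert] at hx; tauto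
        obtain ⟨y, hy, hyx, hAxy, hP⟩ := ih x hxS
        refine ⟨y, by simp [hy], hyx, hAxy, ?_⟩
        have hya : y ≠ a := fun h => ha (h ▸ hy)
        have hyb : y ≠ b := fun h => hb (h ▸ hy)
        have : (insert a (insert b S)) \ {x, y} = insert a (insert b (S \ {x, y})) := by
          ext z; simp only [Finset.mem_sdiff, Finset.mem_insert, Finset.mem_singleton]
          constructor
          · rintro ⟨h1 | h1 | h1, h2⟩
            · tauto
            · tauto
            · tauto
          · rintro (rfl | rfl | h1)
            · exact ⟨Or.inl rfl, fun h => h.elim (fun h => hxa h.symm) (fun h => hya h.symm)⟩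
            · exact ⟨Or.inr (Or.inl rfl), fun h => h.elim (fun h => hxb h.symm) (fun h => hyb h.symm)⟩
            · tauto
        rw [this]
        exact PM.pair hP (by simp [ha]) (by simp [hb]) hab hA

theorem PM.card_even {A : V → V → Prop} {S : Finset V} (h : PM A S) : Even S.card := by
  induction h with
  | empty => simp
  | @pair S a b hS ha hb hab hA ih =>
    rw [Finset.card_insert_of_notMem (by simp [hab, ha]), Finset.card_insert_of_notMem hb]
    obtain ⟨k, hk⟩ := ih
    exact ⟨k + 1, by omega⟩

theorem PM.union {A : V → V → Prop} {S T : Finset V} (h : PM A S) (h' : PM A T)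
    (hd : Disjoint S T) : PM A (S ∪ T) := by
  induction h with
  | empty => simpa using h'
  | @pair S a b hS ha hb hab hA ih =>
    rw [Finset.disjoint_insert_left, Finset.disjoint_insert_left] at hd
    have := ih hd.2.2
    rw [Finset.insert_union, Finset.insert_union]
    exact PM.pair this (by simp [ha, hd.1]) (by simp [hb, hd.2.1]) hab hA

/-- `P W D X`: the vertices of `W` outside `X` have a perfect matching. -/
def P (W : Finset V) (D : V → V → Prop) (X : Finset V) : Prop := PM (Ad D) (W \ X)

theorem P.congr {W : Finset V} {D : V → V → Prop} {X Y : Finset V} (h : P W D X)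
    (hXY : ∀ z ∈ W, z ∈ X ↔ z ∈ Y) : P W D Y := by
  unfold P at *
  have : W \ X = W \ Y := by
    ext z; simp only [Finset.mem_sdiff]
    constructor
    · rintro ⟨h1, h2⟩; exact ⟨h1, fun h => h2 ((hXY z h1).2 h)⟩
    · rintro ⟨h1, h2⟩; exact ⟨h1, fun h => h2 ((hXY z h1).1 h)⟩
  rwa [← this]

theorem P.del {W : Finset V} {D : V → V → Prop} {X : Finset V} (h : P W D X) {z : V}
    (hz : z ∈ W) (hzX : z ∉ X) :
    ∃ z' ∈ W, z' ∉ X ∧ z' ≠ z ∧ Ad D z z' ∧ P W D (insert z (insert z' X)) := by
  obtain ⟨y, hy, hyz, hA, hP⟩ := PM.partner (fun x y h => Ad.symm h) h z (by simp [hz, hzX])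
  simp only [Finset.mem_sdiff] at hy
  refine ⟨y, hy.1, hy.2, hyz, hA, ?_⟩
  unfold P
  have : W \ insert z (insert y X) = (W \ X) \ {z, y} := by
    ext t; simp only [Finset.mem_sdiff, Finset.mem_insert, Finset.mem_singleton]; tauto
  rw [this]; exact hP

theorem P.add {W : Finset V} {D : V → V → Prop} {X : Finset V} {z z' : V}
    (h : P W D (insert z (insert z' X))) (hz : z ∈ W) (hz' : z' ∈ W) (hzX : z ∉ X) (hz'X : z' ∉ X)
    (hne : z ≠ z') (hA : Ad D z z') : P W D X := by
  unfold P at *
  have : W \ X = insert z (insert z' (W \ insert z (insert z' X))) := by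
    ext t; simp only [Finset.mem_sdiff, Finset.mem_insert]
    constructor
    · rintro ⟨h1, h2⟩
      by_cases ht : t = z
      · exact Or.inl ht
      · by_cases ht' : t = z'
        · exact Or.inr (Or.inl ht')
        · exact Or.inr (Or.inr ⟨h1, by tauto⟩)
    · rintro (rfl | rfl | h1)
      · exact ⟨hz, hzX⟩
      · exact ⟨hz', hz'X⟩
      · exact ⟨h1.1, by tauto⟩
  rw [this]
  exact PM.pair h (by simp) (by simp) hne hA

end Pool.Agent.Work.MP_a74ba6_co
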