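import Pool.Agent.Work.MP_a74ba6_co.Basic

set_option autoImplicit false

namespace Pool.Agent.Work.MP_a74ba6_co

open Classical

variable {V : Type*}

/-- `F` is a family of disjoint odd sets of `W \ X` with no edges leaving inside `W \ X` -/
structure Pre (A : V → V → Prop) (W X : Finset V) (F : Finset (Finset V)) : Prop where
  sub : X ⊆ W
  odd : ∀ K ∈ F, Odd K.card
  mem : ∀ K ∈ F, ∀ x ∈ K, x ∈ W ∧ x ∉ X
  disj : ∀ K ∈ F, ∀ L ∈ F, ∀ x, x ∈ K → x ∈ L → K = L
  cl : ∀ K ∈ F, ∀ x ∈ K, ∀ y ∈ W, y ∉ X → A x y → y ∈ K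

structure Best (A : V → V → Prop) (W X : Finset V) (F : Finset (Finset V)) : Prop where
  pre : Pre A W X F
  best : ∀ X' F', Pre A W X' F' → F'.card + X.card ≤ F.card + X'.card
  big : ∀ X' F', Pre A W X' F' → F'.card + X.card = F.card + X'.card → X'.card ≤ X.card

theorem Pre.empty {A : V → V → Prop} {W : Finset V} : Pre A W ∅ ∅ where
  sub := by simp
  odd := by simp
  mem := by simp
  disj := by simp
  cl := by simp

theorem exists_best {A : V → V → Prop} (W : Finset V) : ∃ X F, Best A W X F := by
  let U : Finset (Finset V × Finset (Finset V)) :=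
    (W.powerset ×ˢ W.powerset.powerset).filter (fun z => Pre A W z.1 z.2)
  have hU : ∀ X F, Pre A W X F → (X, F) ∈ U := by
    intro X F h
    simp only [U, Finset.mem_filter, Finset.mem_product, Finset.mem_powerset]
    refine ⟨⟨h.sub, ?_⟩, h⟩
    intro K hK
    rw [Finset.mem_powerset]
    intro x hx
    exact (h.mem K hK x hx).1
  obtain ⟨⟨X, F⟩, hXF, hmax⟩ := Finset.exists_max_image U
    (fun z => ((z.2.card : ℤ) - z.1.card) * (W.card + 1) + z.1.card) ⟨_, hU _ _ Pre.empty⟩
  simp only [U, Finset.mem_filter] at hXF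
  have hXW := Finset.card_le_card hXF.2.sub
  simp only at hXW hmax
  refine ⟨X, F, hXF.2, ?_, ?_⟩
  · intro X' F' h'
    have h1 := hmax _ (hU _ _ h')
    simp only at h1
    by_contra hcon
    push Not at hcon
    have h2 : ((F'.card : ℤ) - X'.card) ≥ ((F.card : ℤ) - X.card) + 1 := by
      have : (F.card : ℤ) + X'.card + 1 ≤ F'.card + X.card := by exact_mod_cast hcon
      linarith
    have h3 : ((F'.card : ℤ) - X'.card) * (W.card + 1) ≥
        (((F.card : ℤ) - X.card) + 1) * (W.card + 1) :=
      mul_le_mul_of_nonneg_right h2 (by positivity)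
    have h4 : (X.card : ℤ) ≤ W.card := by exact_mod_cast hXW
    have h5 : (0 : ℤ) ≤ X'.card := by positivity
    nlinarith
  · intro X' F' h' heq
    have h1 := hmax _ (hU _ _ h')
    simp only at h1
    have h2 : ((F'.card : ℤ) - X'.card) = ((F.card : ℤ) - X.card) := by
      have : (F'.card : ℤ) + X.card = F.card + X'.card := by exact_mod_cast heq
      linarith
    rw [h2] at h1
    have : (X'.card : ℤ) ≤ X.card := by linarith
    exact_mod_cast this

theorem Best.cover {A : V → V → Prop} (hs : ∀ x y, A x y → A y x) {W X : Finset V}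
    {F : Finset (Finset V)} (h : Best A W X F) {x : V} (hx : x ∈ W) (hxX : x ∉ X) :
    ∃ K ∈ F, x ∈ K := by
  by_contra hcon
  push Not at hcon
  set R := W.filter (fun z => z ∉ X ∧ ∀ K ∈ F, z ∉ K) with hR
  have hxR : x ∈ R := by simp [hR, hx, hxX]; exact hcon
  have hmR : ∀ z, z ∈ R ↔ z ∈ W ∧ z ∉ X ∧ ∀ K ∈ F, z ∉ K := by intro z; simp [hR]
  rcases Nat.even_or_odd R.card with hev | hodd
  · have hpre : Pre A W (insert x X) (insert (R.erase x) F) := by
      refine ⟨?_, ?_, ?_, ?_, ?_⟩
      · intro z hz
        rcases Finset.mem_insert.1 hz with rfl | hz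
        · exact hx
        · exact h.pre.sub hz
      · intro K hK
        rcases Finset.mem_insert.1 hK with rfl | hK
        · rw [Finset.card_erase_of_mem hxR]
          have := Finset.card_pos.2 ⟨x, hxR⟩
          obtain ⟨k, hk⟩ := hev
          exact ⟨k - 1, by omega⟩
        · exact h.pre.odd K hK
      · intro K hK z hz
        rcases Finset.mem_insert.1 hK with rfl | hK
        · rw [Finset.mem_erase, hmR] at hz
          simp [hz.1, hz.2.1, hz.2.2.1]
        · have := h.pre.mem K hK z hz
          refine ⟨this.1, ?_⟩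
          simp only [Finset.mem_insert, not_or]
          refine ⟨?_, this.2⟩
          intro hzx
          rw [hzx] at hz
          exact hcon K hK hz
      · intro K hK L hL z hzK hzL
        rcases Finset.mem_insert.1 hK with rfl | hK <;> rcases Finset.mem_insert.1 hL with rfl | hL
        · rfl
        · rw [Finset.mem_erase, hmR] at hzK
          exact absurd hzL (hzK.2.2.2 L hL)
        · rw [Finset.mem_erase, hmR] at hzL
          exact absurd hzK (hzL.2.2.2 K hK)
        · exact h.pre.disj K hK L hL z hzK hzL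
      · intro K hK z hz y hy hyX hA
        simp only [Finset.mem_insert, not_or] at hyX
        rcases Finset.mem_insert.1 hK with rfl | hK
        · rw [Finset.mem_erase, hmR] at hz ⊢
          refine ⟨hyX.1, hy, hyX.2, ?_⟩
          intro L hL hyL
          exact hz.2.2.2 L hL (h.pre.cl L hL y hyL z hz.2.1 hz.2.2.1 (hs _ _ hA))
        · exact h.pre.cl K hK z hz y hy hyX.2 hA
    have hnot : R.erase x ∉ F := by
      intro hmem
      have hodd := h.pre.odd _ hmem
      obtain ⟨z, hz⟩ := Finset.card_pos.1 hodd.pos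
      have hz' := Finset.mem_of_mem_erase hz
      rw [hmR] at hz'
      exact hz'.2.2 _ hmem hz
    have h1 := h.big _ _ hpre (by
      rw [Finset.card_insert_of_notMem hnot, Finset.card_insert_of_notMem hxX]; omega)
    rw [Finset.card_insert_of_notMem hxX] at h1
    omega
  · have hpre : Pre A W X (insert R F) := by
      refine ⟨h.pre.sub, ?_, ?_, ?_, ?_⟩
      · intro K hK
        rcases Finset.mem_insert.1 hK with rfl | hK
        · exact hodd
        · exact h.pre.odd K hK
      · intro K hK z hz
        rcases Finset.mem_insert.1 hK with rfl | hK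
        · rw [hmR] at hz; exact ⟨hz.1, hz.2.1⟩
        · exact h.pre.mem K hK z hz
      · intro K hK L hL z hzK hzL
        rcases Finset.mem_insert.1 hK with rfl | hK <;> rcases Finset.mem_insert.1 hL with rfl | hL
        · rfl
        · rw [hmR] at hzK
          exact absurd hzL (hzK.2.2 L hL)
        · rw [hmR] at hzL
          exact absurd hzK (hzL.2.2 K hK)
        · exact h.pre.disj K hK L hL z hzK hzL
      · intro K hK z hz y hy hyX hA
        rcases Finset.mem_insert.1 hK with rfl | hK
        · rw [hmR] at hz ⊢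
          refine ⟨hy, hyX, ?_⟩
          intro L hL hyL
          exact hz.2.2 L hL (h.pre.cl L hL y hyL z hz.1 hz.2.1 (hs _ _ hA))
        · exact h.pre.cl K hK z hz y hy hyX hA
    have hnot : R ∉ F := by
      intro hmem
      exact hcon R hmem hxR
    have h1 := h.best _ _ hpre
    rw [Finset.card_insert_of_notMem hnot] at h1
    omega

theorem Best.union {A : V → V → Prop} (hs : ∀ x y, A x y → A y x) {W X : Finset V}
    {F : Finset (Finset V)} (h : Best A W X F) : W.card = X.card + ∑ K ∈ F, K.card := by
  have h1 : W = X ∪ F.biUnion id := by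
    ext z
    simp only [Finset.mem_union, Finset.mem_biUnion, id]
    constructor
    · intro hz
      by_cases hzX : z ∈ X
      · exact Or.inl hzX
      · exact Or.inr (h.cover hs hz hzX)
    · rintro (hz | ⟨K, hK, hz⟩)
      · exact h.pre.sub hz
      · exact (h.pre.mem K hK z hz).1
  rw [h1, Finset.card_union_of_disjoint, Finset.card_biUnion]
  · rfl
  · intro K hK L hL hne
    show Disjoint K L
    rw [Finset.disjoint_left]
    intro z hz1 hz2
    exact hne (h.pre.disj K hK L hL z hz1 hz2)
  · rw [Finset.disjoint_left]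
    intro z hz hz2
    simp only [Finset.mem_biUnion, id] at hz2
    obtain ⟨K, hK, hz2⟩ := hz2
    exact (h.pre.mem K hK z hz2).2 hz

theorem sum_odd_parity {F : Finset (Finset V)} (h : ∀ K ∈ F, Odd K.card) :
    (∑ K ∈ F, K.card) % 2 = F.card % 2 := by
  induction F using Finset.induction_on with
  | empty => simp
  | insert K F hK ih =>
    rw [Finset.sum_insert hK, Finset.card_insert_of_notMem hK]
    have h1 := ih (fun L hL => h L (Finset.mem_insert_of_mem hL))
    have h2 := h K (Finset.mem_insert_self _ _)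
    obtain ⟨k, hk⟩ := h2
    omega

theorem Best.tutteCond {A : V → V → Prop} (hs : ∀ x y, A x y → A y x) {W X : Finset V}
    {F : Finset (Finset V)} (h : Best A W X F) {K : Finset V} (hK : K ∈ F) {v : V} (hv : v ∈ K)
    {B : Finset V} {G : Finset (Finset V)} (hG : Pre A (K \ {v}) B G) : G.card ≤ B.card := by
  obtain ⟨B', G', hB⟩ := exists_best (A := A) (K \ {v})
  have h1 := hB.best _ _ hG
  suffices hsuf : G'.card ≤ B'.card by omega
  clear h1 hG B G
  by_contra hcon
  push Not at hcon
  have hpar := hB.union hs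
  have hpar2 := sum_odd_parity hB.pre.odd
  rw [Finset.card_sdiff_of_subset (by simpa using hv), Finset.card_singleton] at hpar
  obtain ⟨k, hk⟩ := h.pre.odd K hK
  have hge : B'.card + 2 ≤ G'.card := by omega
  have hvX : v ∉ X := (h.pre.mem K hK v hv).2
  have hBK : ∀ z ∈ B', z ∈ K ∧ z ≠ v := by
    intro z hz
    have := hB.pre.sub hz
    simpa using this
  have hGK : ∀ L ∈ G', ∀ z ∈ L, (z ∈ K ∧ z ≠ v) ∧ z ∉ B' := by
    intro L hL z hz
    have := hB.pre.mem L hL z hz
    simpa using this
  have hpre : Pre A W (insert v (X ∪ B')) (F.erase K ∪ G') := by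
    refine ⟨?_, ?_, ?_, ?_, ?_⟩
    · intro z hz
      simp only [Finset.mem_insert, Finset.mem_union] at hz
      rcases hz with rfl | hz | hz
      · exact (h.pre.mem K hK z hv).1
      · exact h.pre.sub hz
      · exact (h.pre.mem K hK z (hBK z hz).1).1
    · intro L hL
      rcases Finset.mem_union.1 hL with hL | hL
      · exact h.pre.odd L (Finset.mem_of_mem_erase hL)
      · exact hB.pre.odd L hL
    · intro L hL z hz
      simp only [Finset.mem_insert, Finset.mem_union, not_or]
      rcases Finset.mem_union.1 hL with hL | hL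
      · have hL' := Finset.mem_erase.1 hL
        have h1 := h.pre.mem L hL'.2 z hz
        refine ⟨h1.1, ?_, h1.2, ?_⟩
        · rintro rfl; exact hL'.1 (h.pre.disj L hL'.2 K hK z hz hv)
        · intro h2; exact hL'.1 (h.pre.disj L hL'.2 K hK z hz (hBK z h2).1)
      · have h1 := hGK L hL z hz
        have h2 := h.pre.mem K hK z h1.1.1
        exact ⟨h2.1, h1.1.2, h2.2, h1.2⟩
    · intro L hL M hM z hzL hzM
      rcases Finset.mem_union.1 hL with hL | hL <;> rcases Finset.mem_union.1 hM with hM | hM
      · exact h.pre.disj L (Finset.mem_of_mem_erase hL) M (Finset.mem_of_mem_erase hM) z hzL hzM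
      · have hL' := Finset.mem_erase.1 hL
        exact absurd (h.pre.disj L hL'.2 K hK z hzL (hGK M hM z hzM).1.1) hL'.1
      · have hM' := Finset.mem_erase.1 hM
        exact absurd (h.pre.disj M hM'.2 K hK z hzM (hGK L hL z hzL).1.1) hM'.1
      · exact hB.pre.disj L hL M hM z hzL hzM
    · intro L hL z hz y hy hyX hA
      simp only [Finset.mem_insert, Finset.mem_union, not_or] at hyX
      rcases Finset.mem_union.1 hL with hL | hL
      · exact h.pre.cl L (Finset.mem_of_mem_erase hL) z hz y hy hyX.2.1 hA
      · have h1 := hGK L hL z hz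
        have h2 := h.pre.cl K hK z h1.1.1 y hy hyX.2.1 hA
        exact hB.pre.cl L hL z hz y (by simp [h2, hyX.1]) hyX.2.2 hA
  have hc1 : (insert v (X ∪ B')).card = X.card + B'.card + 1 := by
    rw [Finset.card_insert_of_notMem, Finset.card_union_of_disjoint]
    · rw [Finset.disjoint_left]
      intro z hz hz'
      exact (h.pre.mem K hK z (hBK z hz').1).2 hz
    · simp only [Finset.mem_union, not_or]
      exact ⟨hvX, fun h => (hBK v h).2 rfl⟩
  have hc2 : (F.erase K ∪ G').card = F.card - 1 + G'.card := by
    rw [Finset.card_union_of_disjoint, Finset.card_erase_of_mem hK]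
    rw [Finset.disjoint_left]
    intro L hL hL'
    have hLe := Finset.mem_erase.1 hL
    obtain ⟨z, hz⟩ := Finset.card_pos.1 (h.pre.odd L hLe.2).pos
    exact hLe.1 (h.pre.disj L hLe.2 K hK z hz (hGK L hL' z hz).1.1)
  have hFpos : 0 < F.card := Finset.card_pos.2 ⟨K, hK⟩
  have h1 := h.best _ _ hpre
  have h2 := h.big _ _ hpre
  rw [hc1, hc2] at h1 h2
  have h3 := h2 (by omega)
  omega

theorem PM.biUnion {A : V → V → Prop} {ι : Type*} (s : Finset ι) (t : ι → Finset V)
    (h : ∀ i ∈ s, PM A (t i)) (hd : ∀ i ∈ s, ∀ j ∈ s, i ≠ j → Disjoint (t i) (t j)) :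
    PM A (s.biUnion t) := by
  induction s using Finset.induction_on with
  | empty => simpa using PM.empty
  | insert i s hi ih =>
    rw [Finset.biUnion_insert]
    refine PM.union (h i (by simp)) (ih (fun j hj => h j (by simp [hj]))
      (fun j hj k hk => hd j (by simp [hj]) k (by simp [hk]))) ?_
    rw [Finset.disjoint_biUnion_right]
    intro j hj
    exact hd i (by simp) j (by simp [hj]) (by rintro rfl; exact hi hj)

theorem tutteT {A : V → V → Prop} (hs : ∀ x y, A x y → A y x) : ∀ (n : ℕ) (W : Finset V),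
    W.card = n → (∀ X F, Pre A W X F → F.card ≤ X.card) → PM A W := by
  intro n
  induction n using Nat.strong_induction_on with
  | _ n ih =>
  intro W hn hT
  obtain ⟨X, F, hB⟩ := exists_best (A := A) W
  have h0 := hB.best _ _ Pre.empty
  have h1 := hT _ _ hB.pre
  simp only [Finset.card_empty] at h0
  have hcard : F.card = X.card := by omega
  have hfc : ∀ K ∈ F, ∀ v ∈ K, PM A (K \ {v}) := by
    intro K hK v hv
    refine ih (K \ {v}).card ?_ _ rfl (fun B G hG => hB.tutteCond hs hK hv hG)
    rw [← hn]
    apply Finset.card_lt_card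
    refine ⟨?_, ?_⟩
    · intro z hz
      exact (hB.pre.mem K hK z (Finset.mem_sdiff.1 hz).1).1
    · intro hsub
      have := hsub (hB.pre.mem K hK v hv).1
      simp at this
  -- Hall
  let t : {x // x ∈ X} → Finset (Finset V) := fun a => F.filter (fun K => ∃ k ∈ K, A a.1 k)
  obtain ⟨φ, hinj, hφ⟩ := (Finset.all_card_le_biUnion_card_iff_exists_injective t).1 (by
    intro s
    by_contra hcon
    push Not at hcon
    have hpre : Pre A W (X \ s.image Subtype.val) (F \ s.biUnion t) := by
      refine ⟨?_, ?_, ?_, ?_, ?_⟩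
      · exact Finset.sdiff_subset.trans hB.pre.sub
      · intro K hK; exact hB.pre.odd K (Finset.mem_sdiff.1 hK).1
      · intro K hK z hz
        have := hB.pre.mem K (Finset.mem_sdiff.1 hK).1 z hz
        exact ⟨this.1, fun h => this.2 (Finset.mem_sdiff.1 h).1⟩
      · intro K hK L hL
        exact hB.pre.disj K (Finset.mem_sdiff.1 hK).1 L (Finset.mem_sdiff.1 hL).1
      · intro K hK x hx y hy hyX hA
        by_cases hyX' : y ∈ X
        · exfalso
          have hys : y ∈ s.image Subtype.val := by
            by_contra h; exact hyX (Finset.mem_sdiff.2 ⟨hyX', h⟩)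
          obtain ⟨a, ha, rfl⟩ := Finset.mem_image.1 hys
          have hK' := Finset.mem_sdiff.1 hK
          apply hK'.2
          rw [Finset.mem_biUnion]
          exact ⟨a, ha, by simp only [t, Finset.mem_filter]; exact ⟨hK'.1, x, hx, hs _ _ hA⟩⟩
        · exact hB.pre.cl K (Finset.mem_sdiff.1 hK).1 x hx y hy hyX' hA
    have h2 := hT _ _ hpre
    have hsub1 : s.image Subtype.val ⊆ X := by
      intro z hz
      obtain ⟨a, _, rfl⟩ := Finset.mem_image.1 hz
      exact a.2
    have hsub2 : s.biUnion t ⊆ F := by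
      intro K hK
      obtain ⟨a, _, hK⟩ := Finset.mem_biUnion.1 hK
      exact (Finset.mem_filter.1 hK).1
    rw [Finset.card_sdiff_of_subset hsub1, Finset.card_sdiff_of_subset hsub2,
      Finset.card_image_of_injective _ Subtype.val_injective] at h2
    have h3 := Finset.card_le_card hsub1
    rw [Finset.card_image_of_injective _ Subtype.val_injective] at h3
    have h4 := Finset.card_le_card hsub2
    omega)
  have hφF : ∀ a, φ a ∈ F ∧ ∃ k ∈ φ a, A a.1 k := by
    intro a
    have := hφ a
    simpa only [t, Finset.mem_filter] using this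
  have hsurj : ∀ K ∈ F, ∃ a, φ a = K := by
    have : Finset.univ.image φ = F := by
      apply Finset.eq_of_subset_of_card_le
      · intro K hK
        obtain ⟨a, _, rfl⟩ := Finset.mem_image.1 hK
        exact (hφF a).1
      · rw [Finset.card_image_of_injective _ hinj, hcard]
        simp
    intro K hK
    rw [← this] at hK
    obtain ⟨a, _, h⟩ := Finset.mem_image.1 hK
    exact ⟨a, h⟩
  have hW : W = Finset.univ.biUnion (fun a : {x // x ∈ X} => insert a.1 (φ a)) := by
    ext z
    simp only [Finset.mem_biUnion, Finset.mem_univ, true_and, Finset.mem_insert]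
    constructor
    · intro hz
      by_cases hzX : z ∈ X
      · exact ⟨⟨z, hzX⟩, Or.inl rfl⟩
      · obtain ⟨K, hK, hzK⟩ := hB.cover hs hz hzX
        obtain ⟨a, rfl⟩ := hsurj K hK
        exact ⟨a, Or.inr hzK⟩
    · rintro ⟨a, rfl | hz⟩
      · exact hB.pre.sub a.2
      · exact (hB.pre.mem _ (hφF a).1 z hz).1
  rw [hW]
  apply PM.biUnion
  · intro a _
    obtain ⟨hF, k, hk, hA⟩ := hφF a
    have haφ : a.1 ∉ φ a := fun h => (hB.pre.mem _ hF _ h).2 a.2
    have : insert a.1 (φ a) = insert a.1 (insert k (φ a \ {k})) := by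
      ext z; simp only [Finset.mem_insert, Finset.mem_sdiff, Finset.mem_singleton]
      constructor
      · rintro (h | h)
        · exact Or.inl h
        · by_cases hzk : z = k
          · exact Or.inr (Or.inl hzk)
          · exact Or.inr (Or.inr ⟨h, hzk⟩)
      · rintro (h | rfl | h)
        · exact Or.inl h
        · exact Or.inr hk
        · exact Or.inr h.1
    rw [this]
    refine PM.pair (hfc _ hF k hk) ?_ (by simp) ?_ hA
    · simp [haφ]
    · rintro h; exact haφ (h ▸ hk)
  · intro a _ b _ hab
    have hne : a.1 ≠ b.1 := fun h => hab (Subtype.ext h)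
    rw [Finset.disjoint_left]
    intro z hz hz'
    rcases Finset.mem_insert.1 hz with rfl | hz <;> rcases Finset.mem_insert.1 hz' with h | hz'
    · exact hne h
    · exact (hB.pre.mem _ (hφF b).1 _ hz').2 a.2
    · subst h
      exact (hB.pre.mem _ (hφF a).1 _ hz).2 b.2
    · exact hab (hinj (hB.pre.disj _ (hφF a).1 _ (hφF b).1 z hz hz'))

theorem decomp {A : V → V → Prop} (hs : ∀ x y, A x y → A y x) (W : Finset V) :
    ∃ X F, Pre A W X F ∧ (∀ K ∈ F, ∀ v ∈ K, PM A (K \ {v})) ∧ X.card ≤ F.card ∧
      (∀ x ∈ W, x ∉ X → ∃ K ∈ F, x ∈ K) ∧ W.card = X.card + ∑ K ∈ F, K.card := by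
  obtain ⟨X, F, hB⟩ := exists_best (A := A) W
  have h0 := hB.best _ _ Pre.empty
  simp only [Finset.card_empty] at h0
  refine ⟨X, F, hB.pre, ?_, by omega, fun x hx hxX => hB.cover hs hx hxX, hB.union hs⟩
  intro K hK v hv
  exact tutteT hs _ _ rfl (fun B G hG => hB.tutteCond hs hK hv hG)

end Pool.Agent.Work.MP_a74ba6_co
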