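import Pool.Agent.Work.MP_a74ba6_co.Klass

set_option autoImplicit false

namespace Pool.Agent.Work.MP_a74ba6_co

open Classical

variable {V : Type*}

theorem D2.inK {W : Finset V} {D : V → V → Prop} {u v w : V} (h : D2 W D u v w)
    (hK : InK W D) : InK (W \ {v, w}) (bc D u v w) := by
  have hvw := h.ne_vw hK
  have huv : u ≠ v := (hK.ne h.hv h.hvu).symm
  have huw : u ≠ w := hK.ne h.hu h.huw
  have hmem : ∀ {x : V}, x ∈ W \ {v, w} → x ∈ W ∧ x ≠ v ∧ x ≠ w := by
    intro x hx; simpa using hx
  constructor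
  · intro x hx y hy h1 h2
    obtain ⟨hx1, hx2, hx3⟩ := hmem hx
    obtain ⟨hy1, hy2, hy3⟩ := hmem hy
    by_cases hxu : x = u
    · subst hxu
      by_cases hyu : y = x
      · subst hyu; unfold bc at h1; tauto
      · rw [bc_left hyu] at h1; rw [bc_right hyu] at h2
        rcases h1 with h1 | h1 <;> rcases h2 with h2 | h2
        · exact hK.asym _ h.hv _ hy1 h1 h2
        · exact h.cons1 hK hy1 hyu hy2 hy3 h1 h2
        · exact h.cons2 hK hy1 hyu hy2 hy3 h1 h2
        · exact hK.asym _ h.hw _ hy1 h1 h2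
    · by_cases hyu : y = u
      · subst hyu
        rw [bc_right hxu] at h1; rw [bc_left hxu] at h2
        rcases h1 with h1 | h1 <;> rcases h2 with h2 | h2
        · exact hK.asym _ h.hv _ hx1 h2 h1
        · exact h.cons2 hK hx1 hxu hx2 hx3 h2 h1
        · exact h.cons1 hK hx1 hxu hx2 hx3 h2 h1
        · exact hK.asym _ h.hw _ hx1 h2 h1
      · rw [bc_of_ne hxu hyu] at h1; rw [bc_of_ne hyu hxu] at h2
        exact hK.asym _ hx1 _ hy1 h1 h2
  · intro x hx
    obtain ⟨hx1, hx2, hx3⟩ := hmem hx
    by_cases hxu : x = u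
    · subst hxu
      rw [P_bc_iff (by simp)]
      exact (h.rest hK).congr (by intro z _; simp; tauto)
    · obtain ⟨z, hz, hzX, hzu, hA, hP⟩ := (hK.fc x hx1).del h.hu (by simpa using Ne.symm hxu)
      rcases h.uniq z hz hA with rfl | rfl
      · obtain ⟨t, ht, htX, htw, hA', hP'⟩ := hP.del h.hw
          (by simp [huw.symm, hvw.symm, Ne.symm hx3])
        simp only [Finset.mem_insert, Finset.mem_singleton, not_or] at htX
        refine P.add (z := u) (z' := t) ((P_bc_iff (by simp)).2
          (hP'.congr (by intro z _; simp; tauto))) ?_ ?_ ?_ ?_ (Ne.symm htX.1) ?_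
        · simp [h.hu, huv, huw]
        · simp [ht, htX.2.1, htw]
        · simpa using Ne.symm hxu
        · simpa using htX.2.2
        · rw [Ad_bc_left htX.1]; exact Or.inr hA'
      · obtain ⟨t, ht, htX, htw, hA', hP'⟩ := hP.del h.hv
          (by simp [huv.symm, hvw, Ne.symm hx2])
        simp only [Finset.mem_insert, Finset.mem_singleton, not_or] at htX
        refine P.add (z := u) (z' := t) ((P_bc_iff (by simp)).2
          (hP'.congr (by intro z _; simp; tauto))) ?_ ?_ ?_ ?_ (Ne.symm htX.1) ?_
        · simp [h.hu, huv, huw]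
        · simp [ht, htX.2.1, htw]
        · simpa using Ne.symm hxu
        · simpa using htX.2.2
        · rw [Ad_bc_left htX.1]; exact Or.inl hA'
  all_goals
    intro r hr p hp q hq hpq h1 h2 hP
    obtain ⟨hr1, hr2, hr3⟩ := hmem hr
    obtain ⟨hp1, hp2, hp3⟩ := hmem hp
    obtain ⟨hq1, hq2, hq3⟩ := hmem hq
  -- out-cherries
  · by_cases hru : r = u
    · subst hru
      have hpu : p ≠ r := by
        rintro rfl; unfold bc at h1; tauto
      have hqu : q ≠ r := by
        rintro rfl; unfold bc at h2; tauto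
      rw [P_bc_iff (by simp)] at hP
      rw [bc_left hpu] at h1; rw [bc_left hqu] at h2
      have addu : ∀ {a b c d : V}, P W D (insert v (insert w {r, p, q})) → a ∈ W → b ∈ W → True :=
        fun _ _ _ => trivial
      rcases h1 with h1 | h1 <;> rcases h2 with h2 | h2
      · refine hK.outc v h.hv p hp1 q hq1 hpq h1 h2 ?_
        refine P.add (z := r) (z' := w) (hP.congr (by intro z _; simp; tauto)) h.hu h.hw ?_ ?_
          huw (Or.inl h.huw)
        · simp [huv, Ne.symm hpu, Ne.symm hqu]
        · simp [hvw.symm, Ne.symm hp3, Ne.symm hq3]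
      · refine hK.outc v h.hv r h.hu p hp1 (Ne.symm hpu) h.hvu h1 ?_
        refine P.add (z := w) (z' := q) (hP.congr (by intro z _; simp; tauto)) h.hw hq1 ?_ ?_
          (Ne.symm hq3) (Or.inl h2)
        · simp [hvw.symm, huw.symm, Ne.symm hp3]
        · simp [hq2, hqu, Ne.symm hpq]
      · refine hK.outc v h.hv r h.hu q hq1 (Ne.symm hqu) h.hvu h2 ?_
        refine P.add (z := w) (z' := p) (hP.congr (by intro z _; simp; tauto)) h.hw hp1 ?_ ?_
          (Ne.symm hp3) (Or.inl h1)
        · simp [hvw.symm, huw.symm, Ne.symm hq3]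
        · simp [hp2, hpu, hpq]
      · refine hK.outc w h.hw p hp1 q hq1 hpq h1 h2 ?_
        refine P.add (z := r) (z' := v) (hP.congr (by intro z _; simp; tauto)) h.hu h.hv ?_ ?_
          huv (Or.inr h.hvu)
        · simp [huw, Ne.symm hpu, Ne.symm hqu]
        · simp [hvw, Ne.symm hp2, Ne.symm hq2]
    · by_cases hpu : p = u
      · subst hpu
        rw [P_bc_iff (by simp)] at hP
        rw [bc_right hru] at h1; rw [bc_of_ne hru (Ne.symm hpq)] at h2
        rcases h1 with h1 | h1
        · refine hK.outc r hr1 v h.hv q hq1 (Ne.symm hq2) h1 h2 ?_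
          refine P.add (z := p) (z' := w) (hP.congr (by intro z _; simp; tauto)) h.hu h.hw ?_ ?_
            huw (Or.inl h.huw)
          · simp [huv, Ne.symm hru, hpq]
          · simp [hvw.symm, Ne.symm hr3, Ne.symm hq3]
        · refine hK.outc r hr1 w h.hw q hq1 (Ne.symm hq3) h1 h2 ?_
          refine P.add (z := p) (z' := v) (hP.congr (by intro z _; simp; tauto)) h.hu h.hv ?_ ?_
            huv (Or.inr h.hvu)
          · simp [huw, Ne.symm hru, hpq]
          · simp [hvw, Ne.symm hr2, Ne.symm hq2]
      · by_cases hqu : q = u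
        · subst hqu
          rw [P_bc_iff (by simp)] at hP
          rw [bc_right hru] at h2; rw [bc_of_ne hru hpu] at h1
          rcases h2 with h2 | h2
          · refine hK.outc r hr1 v h.hv p hp1 (Ne.symm hp2) h2 h1 ?_
            refine P.add (z := q) (z' := w) (hP.congr (by intro z _; simp; tauto)) h.hu h.hw ?_ ?_
              huw (Or.inl h.huw)
            · simp [huv, Ne.symm hru, Ne.symm hpu]
            · simp [hvw.symm, Ne.symm hr3, Ne.symm hp3]
          · refine hK.outc r hr1 w h.hw p hp1 (Ne.symm hp3) h2 h1 ?_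
            refine P.add (z := q) (z' := v) (hP.congr (by intro z _; simp; tauto)) h.hu h.hv ?_ ?_
              huv (Or.inr h.hvu)
            · simp [huw, Ne.symm hru, Ne.symm hpu]
            · simp [hvw, Ne.symm hr2, Ne.symm hp2]
        · rw [bc_of_ne hru hpu] at h1; rw [bc_of_ne hru hqu] at h2
          refine hK.outc r hr1 p hp1 q hq1 hpq h1 h2 (P_bc_lift hK h ?_ ?_ ?_ hP)
          · simp [Ne.symm hru, Ne.symm hpu, Ne.symm hqu]
          · simp [Ne.symm hr2, Ne.symm hp2, Ne.symm hq2]
          · simp [Ne.symm hr3, Ne.symm hp3, Ne.symm hq3]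
  -- in-cherries
  · by_cases hru : r = u
    · subst hru
      have hpu : p ≠ r := by
        rintro rfl; unfold bc at h1; tauto
      have hqu : q ≠ r := by
        rintro rfl; unfold bc at h2; tauto
      rw [P_bc_iff (by simp)] at hP
      rw [bc_right hpu] at h1; rw [bc_right hqu] at h2
      rcases h1 with h1 | h1 <;> rcases h2 with h2 | h2
      · refine hK.inc v h.hv p hp1 q hq1 hpq h1 h2 ?_
        refine P.add (z := r) (z' := w) (hP.congr (by intro z _; simp; tauto)) h.hu h.hw ?_ ?_
          huw (Or.inl h.huw)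
        · simp [huv, Ne.symm hpu, Ne.symm hqu]
        · simp [hvw.symm, Ne.symm hp3, Ne.symm hq3]
      · refine hK.inc w h.hw r h.hu q hq1 (Ne.symm hqu) h.huw h2 ?_
        refine P.add (z := v) (z' := p) (hP.congr (by intro z _; simp; tauto)) h.hv hp1 ?_ ?_
          (Ne.symm hp2) (Or.inr h1)
        · simp [hvw, huv.symm, Ne.symm hq2]
        · simp [hp3, hpu, hpq]
      · refine hK.inc w h.hw r h.hu p hp1 (Ne.symm hpu) h.huw h1 ?_
        refine P.add (z := v) (z' := q) (hP.congr (by intro z _; simp; tauto)) h.hv hq1 ?_ ?_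
          (Ne.symm hq2) (Or.inr h2)
        · simp [hvw, huv.symm, Ne.symm hp2]
        · simp [hq3, hqu, Ne.symm hpq]
      · refine hK.inc w h.hw p hp1 q hq1 hpq h1 h2 ?_
        refine P.add (z := r) (z' := v) (hP.congr (by intro z _; simp; tauto)) h.hu h.hv ?_ ?_
          huv (Or.inr h.hvu)
        · simp [huw, Ne.symm hpu, Ne.symm hqu]
        · simp [hvw, Ne.symm hp2, Ne.symm hq2]
    · by_cases hpu : p = u
      · subst hpu
        rw [P_bc_iff (by simp)] at hP
        rw [bc_left hru] at h1; rw [bc_of_ne (Ne.symm hpq) hru] at h2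
        rcases h1 with h1 | h1
        · refine hK.inc r hr1 v h.hv q hq1 (Ne.symm hq2) h1 h2 ?_
          refine P.add (z := p) (z' := w) (hP.congr (by intro z _; simp; tauto)) h.hu h.hw ?_ ?_
            huw (Or.inl h.huw)
          · simp [huv, Ne.symm hru, hpq]
          · simp [hvw.symm, Ne.symm hr3, Ne.symm hq3]
        · refine hK.inc r hr1 w h.hw q hq1 (Ne.symm hq3) h1 h2 ?_
          refine P.add (z := p) (z' := v) (hP.congr (by intro z _; simp; tauto)) h.hu h.hv ?_ ?_
            huv (Or.inr h.hvu)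
          · simp [huw, Ne.symm hru, hpq]
          · simp [hvw, Ne.symm hr2, Ne.symm hq2]
      · by_cases hqu : q = u
        · subst hqu
          rw [P_bc_iff (by simp)] at hP
          rw [bc_left hru] at h2; rw [bc_of_ne hpu hru] at h1
          rcases h2 with h2 | h2
          · refine hK.inc r hr1 v h.hv p hp1 (Ne.symm hp2) h2 h1 ?_
            refine P.add (z := q) (z' := w) (hP.congr (by intro z _; simp; tauto)) h.hu h.hw ?_ ?_
              huw (Or.inl h.huw)
            · simp [huv, Ne.symm hru, Ne.symm hpu]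
            · simp [hvw.symm, Ne.symm hr3, Ne.symm hp3]
          · refine hK.inc r hr1 w h.hw p hp1 (Ne.symm hp3) h2 h1 ?_
            refine P.add (z := q) (z' := v) (hP.congr (by intro z _; simp; tauto)) h.hu h.hv ?_ ?_
              huv (Or.inr h.hvu)
            · simp [huw, Ne.symm hru, Ne.symm hpu]
            · simp [hvw, Ne.symm hr2, Ne.symm hp2]
        · rw [bc_of_ne hpu hru] at h1; rw [bc_of_ne hqu hru] at h2
          refine hK.inc r hr1 p hp1 q hq1 hpq h1 h2 (P_bc_lift hK h ?_ ?_ ?_ hP)
          · simp [Ne.symm hru, Ne.symm hpu, Ne.symm hqu]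
          · simp [Ne.symm hr2, Ne.symm hp2, Ne.symm hq2]
          · simp [Ne.symm hr3, Ne.symm hp3, Ne.symm hq3]

end Pool.Agent.Work.MP_a74ba6_co
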