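import Pool.Agent.Work.MP_a74ba6_co.Case2

set_option autoImplicit false

namespace Pool.Agent.Work.MP_a74ba6_co

open Classical

variable {V : Type*}

theorem Ctx.step1a {W : Finset V} {D : V → V → Prop} (h : Ctx W D) {a b p q y : V}
    (hR : Rem W D a b) (hT : T3 W D a b p q) (hy : y ∈ W) (hya : y ≠ a)
    (hyp : y ≠ p) (hyq : y ≠ q) (h1 : D p y) (h2 : D q y) :
    Rem W D p y ∧ ∃ c, T3 W D p y c a := by
  obtain ⟨hpa, haq, hab, hpq, hpb, hqb⟩ := hT.ne hR h.hK
  have hD2 := hT.D2 hR h.hK
  have hRem : Rem W D p y := by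
    refine ⟨hT.hp, hy, h1, ?_⟩
    intro x hx
    by_cases hxa : x = a
    · subst hxa
      obtain ⟨t, ht, htX, htp, hA, hP⟩ := (h.hK.fc x hx).del hT.hp (by simpa using hpa)
      by_cases hty : t = y
      · exfalso
        subst hty
        exact h.hK.outc p hT.hp x hx t ht (Ne.symm hya) hT.hpa h1
          (hP.congr (by clear * -; intro z _; simp; tauto))
      · refine P.add (z := p) (z' := t) (hP.mono ?_) hT.hp ht (by simpa using hpa) htX
          htp.symm (Ad_dl_of hA (fun h => hty h.2) (fun h => htp h.1))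
        intro s _ hsX t' _ htX' hA
        simp only [Finset.mem_insert, Finset.mem_singleton, not_or] at hsX htX'
        exact Ad_dl_of hA (fun h => hsX.1 h.1) (fun h => htX'.1 h.1)
    · obtain ⟨z, hz, hzX, hza, hA, hP⟩ := (hR.fc x hx).del hR.ha (by simpa using Ne.symm hxa)
      rcases hD2.uniq z hz hA with rfl | rfl
      · -- a - p
        refine P.add (z := a) (z' := z) (hP.mono ?_) hR.ha hz (by simpa using Ne.symm hxa) hzX
          hza.symm (Ad_dl_of (Ad_dl_le hA) (fun h => hza h.1.symm) (fun h => hya h.2.symm))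
        intro s _ hsX t' _ htX' hA
        simp only [Finset.mem_insert, Finset.mem_singleton, not_or] at hsX htX'
        exact Ad_dl_of (Ad_dl_le hA) (fun h => hsX.2.1 h.1) (fun h => htX'.2.1 h.1)
      · -- a - q
        have hzx : z ≠ x := by simpa using hzX
        by_cases hxp : x = p
        · subst hxp
          refine P.add (z := a) (z' := z) (hP.mono ?_) hR.ha hz (by simpa using Ne.symm hxa) hzX
            hza.symm (Ad_dl_of (Ad_dl_le hA) (fun h => hpa h.1.symm) (fun h => hya h.2.symm))
          intro s _ hsX t' _ htX' hA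
          simp only [Finset.mem_insert, Finset.mem_singleton, not_or] at hsX htX'
          exact Ad_dl_of (Ad_dl_le hA) (fun h => hsX.2.2 h.1) (fun h => htX'.2.2 h.1)
        · obtain ⟨t, ht, htX, htp, hA', hP'⟩ := hP.del hT.hp
            (by simp [hpa, hpq, Ne.symm hxp])
          simp only [Finset.mem_insert, Finset.mem_singleton, not_or] at htX
          have hP'' : P W (dl D p y) {p, t, a, z, x} := by
            refine hP'.mono ?_
            intro s _ hsX t' _ htX' hA
            simp only [Finset.mem_insert, Finset.mem_singleton, not_or] at hsX htX'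
            exact Ad_dl_of (Ad_dl_le hA) (fun h => hsX.1 h.1) (fun h => htX'.1 h.1)
          by_cases hty : t = y
          · subst hty
            have h3 : P W (dl D p t) (insert a (insert p {x})) := by
              refine P.add (z := z) (z' := t) (hP''.congr (by clear * -; intro z _; simp; tauto))
                hz hy ?_ ?_ (Ne.symm hyq)
                (Ad_dl_of (Or.inl h2) (fun h => hpq h.1.symm) (fun h => hyp h.1))
              · simp [hza, hpq.symm, hzx]
              · simp [hya, hyp, htX.2.2]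
            refine P.add (z := a) (z' := p) h3 hR.ha hT.hp ?_ ?_ hpa.symm
              (Ad_dl_of (Or.inr hT.hpa) (fun h => hpa h.1.symm) (fun h => hya h.2.symm))
            · simpa using Ne.symm hxa
            · simpa using Ne.symm hxp
          · have h3 : P W (dl D p y) (insert a (insert z {x})) := by
              refine P.add (z := p) (z' := t) hP'' hT.hp ht ?_ ?_ htp.symm
                (Ad_dl_of (Ad_dl_le hA') (fun h => hty h.2) (fun h => htp h.1))
              · simp [hpa, hpq, Ne.symm hxp]
              · simp [htX]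
            refine P.add (z := a) (z' := z) h3 hR.ha hz ?_ hzX hza.symm
              (Ad_dl_of (Ad_dl_le hA) (fun h => hpa h.1.symm) (fun h => hya h.2.symm))
            simpa using Ne.symm hxa
  refine ⟨hRem, ?_⟩
  obtain ⟨c, c', hT'⟩ := h.exists_T3 hRem
  rcases hT'.uniq a hR.ha (Or.inl hT.hpa) with h3 | h3 | h3
  · subst h3
    exact absurd hT'.hpa (h.hK.asym _ hT.hp _ hR.ha hT.hpa)
  · subst h3; exact ⟨c, hT'⟩
  · exact absurd h3.symm hya

theorem Ctx.no1a {W : Finset V} {D : V → V → Prop} (h : Ctx W D) {a b p q y : V}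
    (hR : Rem W D a b) (hT : T3 W D a b p q) (hy : y ∈ W) (hya : y ≠ a)
    (hyp : y ≠ p) (hyq : y ≠ q) (hc : (nb W D y).card = 3) (h1 : D p y) (h2 : D q y) :
    False := by
  obtain ⟨hpa, haq, hab, hpq, hpb, hqb⟩ := hT.ne hR h.hK
  have hc5 := h.hc
  -- in-neighbours of a
  have hain : ∀ z ∈ W, D z a → z = p := by
    intro z hz hD
    rcases hT.uniq z hz (Or.inr hD) with rfl | rfl | rfl
    · rfl
    · exact absurd hD (h.hK.asym _ hR.ha _ hz hT.haq)
    · exact absurd hD (h.hK.asym _ hR.ha _ hz hR.hD)
  -- in-neighbours of y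
  have hyin : ∀ z ∈ W, D z y → z = p ∨ z = q := by
    intro z hz hD
    by_contra hcon
    push Not at hcon
    have hsub : ({p, q, z} : Finset V) ⊆ nb W D y := by
      intro w hw
      simp only [Finset.mem_insert, Finset.mem_singleton] at hw
      rcases hw with rfl | rfl | rfl
      · exact mem_nb.2 ⟨hT.hp, Or.inr h1⟩
      · exact mem_nb.2 ⟨hT.hq, Or.inr h2⟩
      · exact mem_nb.2 ⟨hz, Or.inr hD⟩
    have heq := Finset.eq_of_subset_of_card_le hsub (by
      rw [hc, Finset.card_eq_three.2 ⟨p, q, z, hpq, hcon.1.symm, hcon.2.symm, rfl⟩])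
    obtain ⟨⟨w, hw, hyw⟩, _⟩ := h.hK.exists_inout (by omega) hy
    have : w ∈ nb W D y := mem_nb.2 ⟨hw, Or.inl hyw⟩
    rw [← heq] at this
    simp only [Finset.mem_insert, Finset.mem_singleton] at this
    rcases this with rfl | rfl | rfl
    · exact h.hK.asym _ hT.hp _ hy h1 hyw
    · exact h.hK.asym _ hT.hq _ hy h2 hyw
    · exact h.hK.asym _ hz _ hy hD hyw
  obtain ⟨hR1, c, hT1⟩ := h.step1a hR hT hy hya hyp hyq h1 h2
  obtain ⟨hcp, -, -, hca, hcy, -⟩ := hT1.ne hR1 h.hK
  rcases h.second hR1 hT1 with ⟨y2, hy2, hy2p, hy2y, hy2c, hy2a, hc2, h3, h4⟩ |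
      ⟨y2, hy2, hy2p, hy2y, hy2c, hy2a, hc2, h3, h4⟩ | h3
  · obtain ⟨hR2, d, hT2⟩ := h.step1a hR1 hT1 hy2 hy2p hy2c hy2a h3 h4
    obtain ⟨hdc, -, -, hdp, hdy2, -⟩ := hT2.ne hR2 h.hK
    -- third application
    rcases h.second hR2 hT2 with ⟨y3, hy3, hy3c, hy3y2, hy3d, hy3p, hc3, h5, h6⟩ |
        ⟨y3, hy3, hy3c, hy3y2, hy3d, hy3p, hc3, h5, h6⟩ | h5
    · -- y3 is a or y
      rcases hT1.uniq y3 hy3 (Or.inl h6) with h7 | h7 | h7
      · exact hy3c h7
      · subst h7
        exact hdp (hain d hT2.hp h5)
      · subst h7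
        have hdq : d = q := by
          rcases hyin d hT2.hp h5 with h8 | h8
          · exact absurd h8 hdp
          · exact h8
        subst hdq
        rcases hT.uniq y2 hy2 (Or.inl h4) with h8 | h8 | h8
        · exact hy2p h8
        · exact hdy2 h8.symm
        · subst h8
          -- y2 = b
          obtain ⟨hR3, e, hT3⟩ := h.step1a hR2 hT2 hy3 hy3c hy3d hy3p h5 h6
          have hPall : P W D {a, d, c, p, y2} := by
            obtain ⟨z, hz, hzX, hzc, hA, hP⟩ := (h.hK.fc y2 hy2).del hT1.hp (by simpa using hy2c.symm)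
            rcases hT2.uniq z hz hA with rfl | rfl | rfl
            · obtain ⟨t, ht, htX, hta, hA', hP'⟩ := hP.del hR.ha
                (by simp [hca.symm, haq, hab])
              rcases hT.uniq t ht hA' with rfl | rfl | rfl
              · exact hP'.congr (by clear * -; intro z _; simp; tauto)
              · simp at htX
              · simp at htX
            · obtain ⟨t, ht, htX, hta, hA', hP'⟩ := hP.del hR.ha
                (by simp [hca.symm, hpa.symm, hab])
              rcases hT.uniq t ht hA' with rfl | rfl | rfl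
              · simp at htX
              · exact hP'.congr (by clear * -; intro z _; simp)
              · simp at htX
            · simp at hzX
          refine h.hK.outc c hT1.hp p hT.hp y2 hy2 hpb hT2.haq h3 ?_
          refine P.add (z := a) (z' := d) (hPall.congr (by clear * -; intro z _; simp))
            hR.ha hT.hq ?_ ?_ haq (Or.inl hT.haq)
          · simp [hca.symm, hpa.symm, hab]
          · simp [hdc, hpq.symm, hqb]
    · -- D y3 p
      rcases hT1.uniq y3 hy3 (Or.inr h6) with h7 | h7 | h7
      · exact hy3c h7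
      · subst h7; exact h.hK.asym _ hT.hp _ hR.ha hT.hpa h6
      · subst h7; exact h.hK.asym _ hT.hp _ hy h1 h6
    · exact h.no2 hR2 hT2 h5
  · exact hy2p (hain y2 hy2 h4)
  · exact h.no2 hR1 hT1 h3

theorem Ctx.step1b {W : Finset V} {D : V → V → Prop} (h : Ctx W D) {a b p q : V}
    (hR : Rem W D a b) (hT : T3 W D a b p q) :
    ∃ y y', Rem W D y q ∧ T3 W D y q y' p := by
  obtain ⟨hpa, haq, hab, hpq, hpb, hqb⟩ := hT.ne hR h.hK
  have hD2 := hT.D2 hR h.hK
  rcases h.second hR hT with ⟨y, hy, hya, hyb, hyp, hyq, hc, h1, h2⟩ |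
      ⟨y, hy, hya, hyb, hyp, hyq, hc, h1, h2⟩ | h3
  · exact absurd (h.no1a hR hT hy hya hyp hyq hc h1 h2) id
  · have hRem : Rem W D y q := by
      refine ⟨hy, hT.hq, h2, ?_⟩
      intro x hx
      by_cases hxa : x = a
      · subst hxa
        obtain ⟨t, ht, htX, htq, hA, hP⟩ := (h.hK.fc x hx).del hT.hq (by simpa using haq.symm)
        by_cases hty : t = y
        · exfalso
          subst hty
          exact h.hK.inc q hT.hq x hx t ht (Ne.symm hya) hT.haq h2
            (hP.congr (by clear * -; intro z _; simp; tauto))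
        · refine P.add (z := q) (z' := t) (hP.mono ?_) hT.hq ht (by simpa using haq.symm) htX
            htq.symm (Ad_dl_of hA (fun h => htq h.2) (fun h => hty h.1))
          intro s _ hsX t' _ htX' hA
          simp only [Finset.mem_insert, Finset.mem_singleton, not_or] at hsX htX'
          exact Ad_dl_of hA (fun h => htX'.1 h.2) (fun h => hsX.1 h.2)
      · obtain ⟨z, hz, hzX, hza, hA, hP⟩ := (hR.fc x hx).del hR.ha (by simpa using Ne.symm hxa)
        rcases hD2.uniq z hz hA with rfl | rfl
        · -- a - p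
          have hzx : z ≠ x := by simpa using hzX
          by_cases hxq : x = q
          · subst hxq
            refine P.add (z := a) (z' := z) (hP.mono ?_) hR.ha hz (by simpa using Ne.symm hxa) hzX
              hza.symm (Ad_dl_of (Ad_dl_le hA) (fun h => hya h.1.symm) (fun h => hyp h.1.symm))
            intro s _ hsX t' _ htX' hA
            simp only [Finset.mem_insert, Finset.mem_singleton, not_or] at hsX htX'
            exact Ad_dl_of (Ad_dl_le hA) (fun h => htX'.2.2 h.2) (fun h => hsX.2.2 h.2)
          · obtain ⟨t, ht, htX, htq, hA', hP'⟩ := hP.del hT.hq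
              (by simp [haq.symm, hpq.symm, Ne.symm hxq])
            simp only [Finset.mem_insert, Finset.mem_singleton, not_or] at htX
            have hP'' : P W (dl D y q) {q, t, a, z, x} := by
              refine hP'.mono ?_
              intro s _ hsX t' _ htX' hA
              simp only [Finset.mem_insert, Finset.mem_singleton, not_or] at hsX htX'
              exact Ad_dl_of (Ad_dl_le hA) (fun h => htX'.1 h.2) (fun h => hsX.1 h.2)
            by_cases hty : t = y
            · subst hty
              have h3 : P W (dl D t q) (insert a (insert q {x})) := by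
                refine P.add (z := z) (z' := t) (hP''.congr (by clear * -; intro z _; simp; tauto))
                  hz hy ?_ ?_ (Ne.symm hyp)
                  (Ad_dl_of (Or.inr h1) (fun h => hyp h.1.symm) (fun h => hpq h.2))
                · simp [hza, hpq, hzx]
                · simp [hya, hyq, htX.2.2]
              refine P.add (z := a) (z' := q) h3 hR.ha hT.hq ?_ ?_ haq
                (Ad_dl_of (Or.inl hT.haq) (fun h => hya h.1.symm) (fun h => haq h.2))
              · simpa using Ne.symm hxa
              · simpa using Ne.symm hxq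
            · have h3 : P W (dl D y q) (insert a (insert z {x})) := by
                refine P.add (z := q) (z' := t) hP'' hT.hq ht ?_ ?_ htq.symm
                  (Ad_dl_of (Ad_dl_le hA') (fun h => htq h.2) (fun h => hty h.1))
                · simp [haq.symm, hpq.symm, Ne.symm hxq]
                · simp [htX]
              refine P.add (z := a) (z' := z) h3 hR.ha hz ?_ hzX hza.symm
                (Ad_dl_of (Ad_dl_le hA) (fun h => hya h.1.symm) (fun h => hyp h.1.symm))
              simpa using Ne.symm hxa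
        · -- a - q
          refine P.add (z := a) (z' := z) (hP.mono ?_) hR.ha hz (by simpa using Ne.symm hxa) hzX
            hza.symm (Ad_dl_of (Ad_dl_le hA) (fun h => hya h.1.symm) (fun h => haq h.2))
          intro s _ hsX t' _ htX' hA
          simp only [Finset.mem_insert, Finset.mem_singleton, not_or] at hsX htX'
          exact Ad_dl_of (Ad_dl_le hA) (fun h => htX'.2.1 h.2) (fun h => hsX.2.1 h.2)
    obtain ⟨y', q', hT'⟩ := h.exists_T3 hRem
    rcases hT'.uniq p hT.hp (Or.inl h1) with h3 | h3 | h3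
    · subst h3
      exact absurd hT'.hpa (h.hK.asym _ hy _ hT.hp h1)
    · subst h3; exact ⟨y, y', hRem, hT'⟩
    · exact absurd h3 hpq
  · exact absurd h3 (h.no2 hR hT)

/-- all neighbours of a tail are heads -/
theorem Ctx.tail_nb {W : Finset V} {D : V → V → Prop} (h : Ctx W D) {a b : V}
    (hR : Rem W D a b) {z : V} (hz : z ∈ W) (hA : Ad D a z) : ∃ c, Rem W D c z := by
  obtain ⟨p, q, hT⟩ := h.exists_T3 hR
  obtain ⟨y, y', hR1, hT1⟩ := h.step1b hR hT
  obtain ⟨y2, y2', hR2, hT2⟩ := h.step1b hR1 hT1
  rcases hT.uniq z hz hA with rfl | rfl | rfl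
  · exact ⟨_, hR2⟩
  · exact ⟨_, hR1⟩
  · exact ⟨_, hR⟩

theorem Ctx.head_nb {W : Finset V} {D : V → V → Prop} (h : Ctx W D) {a b : V}
    (hR : Rem W D a b) {z : V} (hz : z ∈ W) (hA : Ad D b z) : ∃ c, Rem W D z c := by
  obtain ⟨c, hc⟩ := h.rv.tail_nb hR.rv hz (Ad_rv.2 hA)
  exact ⟨c, hc.rv⟩

theorem Ctx.disj {W : Finset V} {D : V → V → Prop} (h : Ctx W D) {a b c : V}
    (hR : Rem W D a b) (hR' : Rem W D c a) : False := by
  obtain ⟨p, q, hT⟩ := h.exists_T3 hR
  obtain ⟨p', q', hT'⟩ := h.rv.exists_T3 hR'.rv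
  have hain : ∀ z ∈ W, D z a → z = p := by
    intro z hz hD
    rcases hT.uniq z hz (Or.inr hD) with rfl | rfl | rfl
    · rfl
    · exact absurd hD (h.hK.asym _ hR.ha _ hz hT.haq)
    · exact absurd hD (h.hK.asym _ hR.ha _ hz hR.hD)
  have h1 : q' = p := hain q' hT'.hq hT'.haq
  have h2 : c = p := hain c hR'.ha hR'.hD
  exact hT'.hqb (h1.trans h2.symm)

theorem PM.bip {A : V → V → Prop} {S : Finset V} (h : PM A S) (T : Set V) :
    (∀ x ∈ S, ∀ y ∈ S, A x y → (x ∈ T ↔ y ∉ T)) →
    (S.filter (fun z => z ∈ T)).card = (S.filter (fun z => z ∉ T)).card := by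
  induction h with
  | empty => intro _; simp
  | @pair S a b hS ha hb hab hA ih =>
    intro hT
    have ih' := ih (fun x hx y hy => hT x (by simp [hx]) y (by simp [hy]))
    have hab' := hT a (by simp) b (by simp) hA
    by_cases haT : a ∈ T
    · have hbT := hab'.1 haT
      rw [Finset.filter_insert, if_pos haT, Finset.filter_insert, if_neg hbT,
        Finset.filter_insert, if_neg (by simpa using haT), Finset.filter_insert, if_pos hbT,
        Finset.card_insert_of_notMem (by simp [ha]), Finset.card_insert_of_notMem (by simp [hb]),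
        ih']
    · have hbT : b ∈ T := by
        by_contra hb; exact haT (hab'.2 hb)
      rw [Finset.filter_insert, if_neg haT, Finset.filter_insert, if_pos hbT,
        Finset.filter_insert, if_pos haT, Finset.filter_insert, if_neg (by simpa using hbT),
        Finset.card_insert_of_notMem (by simp [hb]), Finset.card_insert_of_notMem (by simp [ha]),
        ih']

theorem Ctx.absurd {W : Finset V} {D : V → V → Prop} (h : Ctx W D) : False := by
  have hc5 := h.hc
  obtain ⟨y, hy, c, hc, hA, hfc⟩ := exists_removable (A := Ad D) (fun x y h => Ad.symm h) (W := W)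
    (by intro x hx hA; rcases hA with hA | hA <;> exact h.hK.irrefl hx hA) h.hK.fc h.hdeg
    (Finset.card_pos.1 (by omega))
  obtain ⟨a, b, hR⟩ : ∃ a b, Rem W D a b := by
    rcases hA with hA | hA
    · refine ⟨y, c, hy, hc, hA, ?_⟩
      intro x hx
      refine (hfc x hx).mono ?_
      rintro s _ t _ ⟨h1, h2, h3⟩
      exact Ad_dl_of h1 h2 (fun h => h3 ⟨h.2, h.1⟩)
    · refine ⟨c, y, hc, hy, hA, ?_⟩
      intro x hx
      refine (hfc x hx).mono ?_
      rintro s _ t _ ⟨h1, h2, h3⟩
      exact Ad_dl_of h1 h3 (fun h => h2 ⟨h.2, h.1⟩)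
  let T : Set V := {z | ∃ c, Rem W D z c}
  let R : Set V := {z | ∃ c, Rem W D c z}
  have hTR : ∀ z, z ∈ T → z ∉ R := by
    rintro z ⟨c, hc⟩ ⟨d, hd⟩
    exact h.disj hc hd
  have hTnb : ∀ x y, x ∈ T → y ∈ W → Ad D x y → y ∈ R := by
    rintro x y ⟨c, hc⟩ hy hA
    exact h.tail_nb hc hy hA
  have hRnb : ∀ x y, x ∈ R → y ∈ W → Ad D x y → y ∈ T := by
    rintro x y ⟨c, hc⟩ hy hA
    exact h.head_nb hc hy hA
  have key : ∀ x ∈ W, (((W \ {x}).filter (fun z => z ∈ T ∪ R)).filter (fun z => z ∈ T)).card =
      (((W \ {x}).filter (fun z => z ∈ T ∪ R)).filter (fun z => z ∉ T)).card := by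
    intro x hx
    have h1 : PM (Ad D) ((W \ {x}).filter (fun z => z ∈ T ∪ R)) := by
      have h0 := PM.restrict (h.hK.fc x hx) (T ∪ R) ?_
      · convert h0
      intro s hs t ht hA
      simp only [Finset.mem_sdiff] at hs ht
      constructor
      · rintro (h1 | h1)
        · right; exact hTnb s t h1 ht.1 hA
        · left; exact hRnb s t h1 ht.1 hA
      · rintro (h1 | h1)
        · right; exact hTnb t s h1 hs.1 hA.symm
        · left; exact hRnb t s h1 hs.1 hA.symm
    refine h1.bip T ?_
    intro s hs t ht hA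
    simp only [Finset.mem_filter, Finset.mem_sdiff] at hs ht
    constructor
    · intro h1 h2
      exact hTR t h2 (hTnb s t h1 ht.1.1 hA)
    · intro h1
      have h2 : t ∈ R := by
        rcases ht.2 with h3 | h3
        · exact False.elim (h1 h3)
        · exact h3
      exact hRnb t s h2 hs.1.1 hA.symm
  have haT : a ∈ T := ⟨b, hR⟩
  have hbR : b ∈ R := ⟨a, hR⟩
  have hbT : b ∉ T := fun h => hTR b h hbR
  have e1 : ((W \ {a}).filter (fun z => z ∈ T ∪ R)).filter (fun z => z ∈ T) =
      (W.filter (fun z => z ∈ T)).erase a := by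
    ext z; simp only [Finset.mem_filter, Finset.mem_sdiff, Finset.mem_singleton, Finset.mem_erase,
      Set.mem_union]
    tauto
  have e2 : ((W \ {a}).filter (fun z => z ∈ T ∪ R)).filter (fun z => z ∉ T) =
      (W.filter (fun z => z ∈ R)) := by
    ext z; simp only [Finset.mem_filter, Finset.mem_sdiff, Finset.mem_singleton, Set.mem_union]
    constructor
    · rintro ⟨⟨h1, h2 | h2⟩, h3⟩
      · exact False.elim (h3 h2)
      · exact ⟨h1.1, h2⟩
    · rintro ⟨h1, h2⟩
      exact ⟨⟨⟨h1, fun h => hTR a haT (h ▸ h2)⟩, Or.inr h2⟩, fun h => hTR z h h2⟩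
  have e3 : ((W \ {b}).filter (fun z => z ∈ T ∪ R)).filter (fun z => z ∈ T) =
      (W.filter (fun z => z ∈ T)) := by
    ext z; simp only [Finset.mem_filter, Finset.mem_sdiff, Finset.mem_singleton, Set.mem_union]
    constructor
    · rintro ⟨⟨h1, _⟩, h3⟩
      exact ⟨h1.1, h3⟩
    · rintro ⟨h1, h2⟩
      exact ⟨⟨⟨h1, fun h => hbT (h ▸ h2)⟩, Or.inl h2⟩, h2⟩
  have e4 : ((W \ {b}).filter (fun z => z ∈ T ∪ R)).filter (fun z => z ∉ T) =
      (W.filter (fun z => z ∈ R)).erase b := by
    ext z; simp only [Finset.mem_filter, Finset.mem_sdiff, Finset.mem_singleton, Finset.mem_erase,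
      Set.mem_union]
    constructor
    · rintro ⟨⟨h1, h2 | h2⟩, h3⟩
      · exact False.elim (h3 h2)
      · exact ⟨h1.2, h1.1, h2⟩
    · rintro ⟨h1, h2, h3⟩
      exact ⟨⟨⟨h2, h1⟩, Or.inr h3⟩, fun h => hTR z h h3⟩
  have k1 := key a hR.ha
  have k2 := key b hR.hb
  rw [e1, e2, Finset.card_erase_of_mem (by simp [hR.ha, haT])] at k1
  rw [e3, e4, Finset.card_erase_of_mem (by simp [hR.hb, hbR])] at k2
  have p1 : 0 < (W.filter (fun z => z ∈ T)).card :=
    Finset.card_pos.2 ⟨a, by simp [hR.ha, haT]⟩
  have p2 : 0 < (W.filter (fun z => z ∈ R)).card :=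
    Finset.card_pos.2 ⟨b, by simp [hR.hb, hbR]⟩
  omega

/-- number of arcs -/
noncomputable def narc (W : Finset V) (D : V → V → Prop) : ℕ :=
  ((W ×ˢ W).filter (fun z => D z.1 z.2)).card

theorem InK.odd {W : Finset V} {D : V → V → Prop} (hK : InK W D) {x : V} (hx : x ∈ W) :
    Odd W.card := by
  have h1 := (hK.fc x hx).card_even
  rw [Finset.card_sdiff_of_subset (by simpa using hx), Finset.card_singleton] at h1
  have := Finset.card_pos.2 ⟨x, hx⟩
  obtain ⟨k, hk⟩ := h1
  exact ⟨k, by omega⟩

theorem InK.SS_all : ∀ (n m : ℕ) (W : Finset V) (D : V → V → Prop), W.card = n → narc W D = m →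
    InK W D → 3 ≤ W.card → ∀ s ∈ W, SS W D s := by
  intro n
  induction n using Nat.strong_induction_on with
  | _ n ihn =>
  intro m
  induction m using Nat.strong_induction_on with
  | _ m ihm =>
  intro W D hn hm hK hc s hs
  by_cases hc3 : W.card = 3
  · exact SS_three hK hc3 hs
  have hc5 : 5 ≤ W.card := by
    obtain ⟨k, hk⟩ := hK.odd hs
    omega
  by_cases h2 : ∃ u ∈ W, (nb W D u).card = 2
  · obtain ⟨u, hu, hcu⟩ := h2
    obtain ⟨v, w, hD2⟩ := hK.D2_of_card hc hu hcu
    have hvw := hD2.ne_vw hK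
    have hcard : (W \ {v, w}).card = W.card - 2 := by
      rw [Finset.card_sdiff_of_subset, Finset.card_pair hvw]
      intro z hz; simp only [Finset.mem_insert, Finset.mem_singleton] at hz
      rcases hz with rfl | rfl
      · exact hD2.hv
      · exact hD2.hw
    refine SS_of_bc hD2 hK ?_ hs
    refine ihn (W.card - 2) (by omega) _ _ _ hcard rfl (hD2.inK hK) (by omega) u ?_
    simp [hu, (hK.ne hD2.hv hD2.hvu).symm, hK.ne hD2.hu hD2.huw]
  · exfalso
    have hctx : Ctx W D := by
      refine ⟨hK, hc5, ?_, ?_, ?_⟩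
      · intro x hx
        obtain ⟨⟨w, hw, hxw⟩, ⟨v, hv, hvx⟩⟩ := hK.exists_inout hc hx
        have hvw : v ≠ w := by
          rintro rfl; exact hK.asym _ hx _ hv hxw hvx
        have hsub : ({v, w} : Finset V) ⊆ nb W D x := by
          intro z hz; simp only [Finset.mem_insert, Finset.mem_singleton] at hz
          rcases hz with rfl | rfl
          · exact mem_nb.2 ⟨hv, Or.inr hvx⟩
          · exact mem_nb.2 ⟨hw, Or.inl hxw⟩
        have h1 := Finset.card_le_card hsub
        rw [Finset.card_pair hvw] at h1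
        have h3 : (nb W D x).card ≠ 2 := fun h => h2 ⟨x, hx, h⟩
        omega
      · intro W' D' hK' hc' hlt s hs
        exact ihn W'.card (by omega) _ W' D' rfl rfl hK' hc' s hs
      · intro a b hR
        have hK' := hR.inK hK
        have hlt : narc W (dl D a b) < m := by
          rw [← hm]
          apply Finset.card_lt_card
          refine ⟨?_, ?_⟩
          · intro z hz
            simp only [Finset.mem_filter] at hz ⊢
            exact ⟨hz.1, hz.2.1⟩
          · intro hsub
            have hmem : ((a, b) : V × V) ∈ (W ×ˢ W).filter (fun z => D z.1 z.2) := by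
              simp [hR.ha, hR.hb, hR.hD]
            have := hsub hmem
            simp only [Finset.mem_filter] at this
            exact this.2.2 ⟨rfl, rfl⟩
        obtain ⟨y, hy, _, hcy⟩ := (ihm _ hlt W (dl D a b) hn rfl hK' hc s hs).other hK'
        exact ⟨y, hy, hcy⟩
    exact hctx.absurd

/-- the structure theorem: two vertices of degree two -/
theorem InK.two {W : Finset V} {D : V → V → Prop} (hK : InK W D) (hc : 3 ≤ W.card) :
    ∃ x ∈ W, ∃ y ∈ W, x ≠ y ∧ (nb W D x).card = 2 ∧ (nb W D y).card = 2 := by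
  obtain ⟨s, hs⟩ := Finset.card_pos.1 (show 0 < W.card by omega)
  obtain ⟨x, hx, _, hcx⟩ := (InK.SS_all _ _ W D rfl rfl hK hc s hs).other hK
  obtain ⟨y, hy, hyx, hcy⟩ := (InK.SS_all _ _ W D rfl rfl hK hc x hx).other hK
  exact ⟨x, hx, y, hy, hyx.symm, hcx, hcy⟩

end Pool.Agent.Work.MP_a74ba6_co
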