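import Pool.Agent.Work.MP_a74ba6_co.Local

set_option autoImplicit false

namespace Pool.Agent.Work.MP_a74ba6_co

open Classical

variable {V : Type*}

theorem Ad_dl_of {D : V → V → Prop} {a b x y : V} (h : Ad D x y) (h1 : ¬ (x = a ∧ y = b))
    (h2 : ¬ (y = a ∧ x = b)) : Ad (dl D a b) x y := by
  rcases h with h | h
  · exact Or.inl ⟨h, h1⟩
  · exact Or.inr ⟨h, h2⟩

theorem Ctx.case2 {W : Finset V} {D : V → V → Prop} (h : Ctx W D) {a b p q : V}
    (hR : Rem W D a b) (hT : T3 W D a b p q)
    (hM : (nb (W \ {p, q}) (bc (dl D a b) a p q) a).card = 2) :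
    ∃ α β, α ≠ β ∧ α ≠ a ∧ α ≠ p ∧ α ≠ q ∧ β ≠ a ∧ β ≠ p ∧ β ≠ q ∧ D q p ∧ α ∈ W ∧ β ∈ W ∧
      D α p ∧ D q β ∧ Rem W D q p ∧ T3 W D q p a β ∧ T3 W (rvD D) p q a α := by
  have hK0 := hR.inK h.hK
  have h2 := hT.D2 hR h.hK
  obtain ⟨hpa, haq, hab, hpq, hpb, hqb⟩ := hT.ne hR h.hK
  have hK1 := h2.inK hK0
  have hcard : (W \ {p, q}).card = W.card - 2 := by
    rw [Finset.card_sdiff_of_subset, Finset.card_pair hpq]
    intro z hz; simp only [Finset.mem_insert, Finset.mem_singleton] at hz
    rcases hz with rfl | rfl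
    · exact hT.hp
    · exact hT.hq
  have hc := h.hc
  have haW : a ∈ W \ {p, q} := by simp [hR.ha, hpa.symm, haq]
  obtain ⟨α, β, h3⟩ := hK1.D2_of_card (by omega) haW hM
  have hαβ := h3.ne_vw hK1
  have hαa : α ≠ a := hK1.ne h3.hv h3.hvu
  have hβa : β ≠ a := (hK1.ne h3.hu h3.huw).symm
  have hrest := h3.rest hK1
  rw [P_bc_iff (by simp)] at hrest
  obtain ⟨_, hα, hβ, hαin, hβout, huniq⟩ := h3
  have hασ : ¬ bc (dl D a b) a p q a α := hK1.asym _ hα _ haW hαin
  have hβσ : ¬ bc (dl D a b) a p q β a := hK1.asym _ haW _ hβ hβout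
  simp only [Finset.mem_sdiff, Finset.mem_insert, Finset.mem_singleton, not_or] at hα hβ
  obtain ⟨hαW, hαp, hαq⟩ := hα
  obtain ⟨hβW, hβp, hβq⟩ := hβ
  replace hαp : α ≠ p := hαp
  replace hαq : α ≠ q := hαq
  replace hβp : β ≠ p := hβp
  replace hβq : β ≠ q := hβq
  rw [bc_left hαa, not_or] at hασ
  rw [bc_right hβa, not_or] at hβσ
  rw [bc_right hαa] at hαin
  rw [bc_left hβa] at hβout
  -- neighbours of p and q
  have hnp : ∀ y ∈ W, Ad D p y → y ≠ a → y ≠ q → y = α ∨ y = β := by
    intro y hy hA hya hyq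
    have hyp : y ≠ p := by
      rintro rfl; rcases hA with hA | hA <;> exact h.hK.irrefl hy hA
    apply huniq y (by simp [hy, hyp, hyq])
    rw [Ad_bc_left hya]
    left
    exact Ad_dl_of hA (fun h => hpa h.1) (fun h => hpb h.2)
  have hnq : ∀ y ∈ W, Ad D q y → y ≠ a → y ≠ p → y = α ∨ y = β := by
    intro y hy hA hya hyp
    have hyq : y ≠ q := by
      rintro rfl; rcases hA with hA | hA <;> exact h.hK.irrefl hy hA
    apply huniq y (by simp [hy, hyp, hyq])
    rw [Ad_bc_left hya]
    right
    exact Ad_dl_of hA (fun h => haq h.1.symm) (fun h => hqb h.2)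
  -- Claim X
  have hX : ¬ (Ad D p β ∧ Ad D q α) := by
    rintro ⟨h4, h5⟩
    have h4' : D p β := by
      rcases h4 with h4 | h4
      · exact h4
      · exact absurd ⟨h4, fun h => hβa h.1⟩ hβσ.1
    refine hK0.outc p hT.hp a hR.ha β hβW hβa.symm ⟨hT.hpa, fun h => hpa h.1⟩
      ⟨h4', fun h => hpa h.1⟩ ?_
    refine P.add (z := q) (z' := α) (hrest.congr (by clear * -; intro z _; simp; tauto)) hT.hq hαW ?_ ?_
      hαq.symm (Ad_dl_of h5 (fun h => haq h.1.symm) (fun h => hqb h.2))
    · simp [hpq.symm, haq.symm, hβq.symm]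
    · simp [hαp, hαa, hαβ]
  have hpneed : Ad D p q ∨ (Ad D p α ∧ Ad D p β) := by
    by_contra hcon
    rw [not_or, not_and_or] at hcon
    have hsub : ∃ t, nb W D p ⊆ {a, t} := by
      rcases hcon.2 with h4 | h4
      · refine ⟨β, ?_⟩
        intro z hz
        have hz' := mem_nb.1 hz
        simp only [Finset.mem_insert, Finset.mem_singleton]
        by_cases hza : z = a
        · left; exact hza
        · right
          rcases hnp z hz'.1 hz'.2 hza (by rintro rfl; exact hcon.1 hz'.2) with rfl | rfl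
          · exact absurd hz'.2 h4
          · rfl
      · refine ⟨α, ?_⟩
        intro z hz
        have hz' := mem_nb.1 hz
        simp only [Finset.mem_insert, Finset.mem_singleton]
        by_cases hza : z = a
        · left; exact hza
        · right
          rcases hnp z hz'.1 hz'.2 hza (by rintro rfl; exact hcon.1 hz'.2) with rfl | rfl
          · rfl
          · exact absurd hz'.2 h4
    obtain ⟨t, ht⟩ := hsub
    have h1 := Finset.card_le_card ht
    have h2 := h.hdeg p hT.hp
    have h3 : ({a, t} : Finset V).card ≤ 2 := Finset.card_le_two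
    omega
  have hqneed : Ad D q p ∨ (Ad D q α ∧ Ad D q β) := by
    by_contra hcon
    rw [not_or, not_and_or] at hcon
    have hsub : ∃ t, nb W D q ⊆ {a, t} := by
      rcases hcon.2 with h4 | h4
      · refine ⟨β, ?_⟩
        intro z hz
        have hz' := mem_nb.1 hz
        simp only [Finset.mem_insert, Finset.mem_singleton]
        by_cases hza : z = a
        · left; exact hza
        · right
          rcases hnq z hz'.1 hz'.2 hza (by rintro rfl; exact hcon.1 hz'.2) with rfl | rfl
          · exact absurd hz'.2 h4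
          · rfl
      · refine ⟨α, ?_⟩
        intro z hz
        have hz' := mem_nb.1 hz
        simp only [Finset.mem_insert, Finset.mem_singleton]
        by_cases hza : z = a
        · left; exact hza
        · right
          rcases hnq z hz'.1 hz'.2 hza (by rintro rfl; exact hcon.1 hz'.2) with rfl | rfl
          · rfl
          · exact absurd hz'.2 h4
    obtain ⟨t, ht⟩ := hsub
    have h1 := Finset.card_le_card ht
    have h2 := h.hdeg q hT.hq
    have h3 : ({a, t} : Finset V).card ≤ 2 := Finset.card_le_two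
    omega
  have hpqA : Ad D p q := by
    rcases hpneed with h4 | h4
    · exact h4
    · rcases hqneed with h5 | h5
      · exact h5.symm
      · exact absurd ⟨h4.2, h5.1⟩ hX
  have hqp : D q p := by
    rcases hpqA with h4 | h4
    · exfalso
      have h5 := (h2.rest hK0).of_dl
      exact h.hK.outc p hT.hp a hR.ha q hT.hq haq hT.hpa h4
        (h5.congr (by clear * -; intro z _; simp; tauto))
    · exact h4
  -- p has a neighbour among α, β, and so does q
  have hp3 : Ad D p α ∨ Ad D p β := by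
    by_contra hcon
    rw [not_or] at hcon
    have hsub : nb W D p ⊆ {a, q} := by
      intro z hz
      have hz' := mem_nb.1 hz
      simp only [Finset.mem_insert, Finset.mem_singleton]
      by_contra hc
      push Not at hc
      rcases hnp z hz'.1 hz'.2 hc.1 hc.2 with rfl | rfl
      · exact hcon.1 hz'.2
      · exact hcon.2 hz'.2
    have h1 := Finset.card_le_card hsub
    have h2 := h.hdeg p hT.hp
    have h3 : ({a, q} : Finset V).card ≤ 2 := Finset.card_le_two
    omega
  have hq3 : Ad D q α ∨ Ad D q β := by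
    by_contra hcon
    rw [not_or] at hcon
    have hsub : nb W D q ⊆ {a, p} := by
      intro z hz
      have hz' := mem_nb.1 hz
      simp only [Finset.mem_insert, Finset.mem_singleton]
      by_contra hc
      push Not at hc
      rcases hnq z hz'.1 hz'.2 hc.1 hc.2 with rfl | rfl
      · exact hcon.1 hz'.2
      · exact hcon.2 hz'.2
    have h1 := Finset.card_le_card hsub
    have h2 := h.hdeg q hT.hq
    have h3 : ({a, p} : Finset V).card ≤ 2 := Finset.card_le_two
    omega
  have hαpq : Ad D p α ∨ Ad D q α := by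
    rcases hαin with h4 | h4
    · exact Or.inl (Or.inr h4.1)
    · exact Or.inr (Or.inr h4.1)
  have hβpq : Ad D p β ∨ Ad D q β := by
    rcases hβout with h4 | h4
    · exact Or.inl (Or.inl h4.1)
    · exact Or.inr (Or.inl h4.1)
  have hqβ : Ad D q β := by
    rcases hβpq with h4 | h4
    · rcases hq3 with h5 | h5
      · exact absurd ⟨h4, h5⟩ hX
      · exact h5
    · exact h4
  have hpα : Ad D p α := by
    rcases hαpq with h4 | h4
    · exact h4
    · rcases hp3 with h5 | h5
      · exact h5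
      · exact absurd ⟨h5, h4⟩ hX
  have hαpD : D α p := by
    rcases hpα with h4 | h4
    · exact absurd ⟨h4, fun h => hpa h.1⟩ hασ.1
    · exact h4
  have hqβD : D q β := by
    rcases hqβ with h4 | h4
    · exact h4
    · exact absurd ⟨h4, fun h => hβa h.1⟩ hβσ.2
  -- the arc q → p is removable
  have hRem : Rem W D q p := by
    refine ⟨hT.hq, hT.hp, hqp, ?_⟩
    intro x hx
    by_cases hxa : x = a
    · subst hxa
      have h4 : P W (dl D q p) (insert p (insert q {x, α, β})) := by
        refine hrest.mono ?_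
        intro s _ hsX t _ htX hA
        simp only [Finset.mem_insert, Finset.mem_singleton, not_or] at hsX htX
        exact Ad_dl_of (Ad_dl_le hA) (fun h => hsX.2.1 h.1) (fun h => htX.2.1 h.1)
      have h5 : P W (dl D q p) (insert q (insert β {x})) := by
        refine P.add (z := p) (z' := α) (h4.congr (by clear * -; intro z _; simp; tauto)) hT.hp hαW ?_ ?_
          hαp.symm (Ad_dl_of hpα (fun h => hpq h.1) (fun h => hαq h.1))
        · simp [hpq, hpa, hβp.symm]
        · simp [hαq, hαβ, hαa]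
      refine P.add (z := q) (z' := β) h5 hT.hq hβW ?_ ?_ hβq.symm
        (Ad_dl_of hqβ (fun h => hβp h.2) (fun h => hβq h.1))
      · simp [haq.symm]
      · simp [hβa]
    · obtain ⟨z, hz, hzX, hza, hA, hP⟩ := (hR.fc x hx).del hR.ha (by simpa using Ne.symm hxa)
      have hzpq := h2.uniq z hz hA
      refine P.add (z := a) (z' := z) (hP.mono ?_) hR.ha hz (by simpa using Ne.symm hxa) hzX
        hza.symm ?_
      · intro s _ hsX t _ htX hA
        simp only [Finset.mem_insert, Finset.mem_singleton, not_or] at hsX htX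
        refine Ad_dl_of (Ad_dl_le hA) ?_ ?_
        · rintro ⟨rfl, rfl⟩
          rcases hzpq with rfl | rfl
          · exact htX.2.1 rfl
          · exact hsX.2.1 rfl
        · rintro ⟨rfl, rfl⟩
          rcases hzpq with rfl | rfl
          · exact hsX.2.1 rfl
          · exact htX.2.1 rfl
      · exact Ad_dl_of (Ad_dl_le hA) (fun h => haq h.1) (fun h => hpa h.2.symm)
  -- degrees
  obtain ⟨hdq, hdp⟩ := h.rem_deg hRem
  have hpn : ∀ y ∈ W, Ad D p y → y = a ∨ y = α ∨ y = q := by
    intro y hy hA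
    by_contra hcon
    push Not at hcon
    have : ({a, α, y} : Finset V) ⊆ nb W (dl D q p) p := by
      intro z hz
      simp only [Finset.mem_insert, Finset.mem_singleton] at hz
      rcases hz with rfl | rfl | rfl
      · exact mem_nb.2 ⟨hR.ha, Ad_dl_of (Or.inl hT.hpa) (fun h => hpq h.1) (fun h => haq h.1)⟩
      · exact mem_nb.2 ⟨hαW, Ad_dl_of hpα (fun h => hpq h.1) (fun h => hαq h.1)⟩
      · exact mem_nb.2 ⟨hy, Ad_dl_of hA (fun h => hpq h.1) (fun h => hcon.2.2 h.1)⟩
    have h4 := Finset.card_le_card this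
    rw [Finset.card_eq_three.2 ⟨a, α, y, hαa.symm, hcon.1.symm, hcon.2.1.symm, rfl⟩] at h4
    omega
  have hqn : ∀ y ∈ W, Ad D q y → y = a ∨ y = β ∨ y = p := by
    intro y hy hA
    by_contra hcon
    push Not at hcon
    have : ({a, β, y} : Finset V) ⊆ nb W (dl D q p) q := by
      intro z hz
      simp only [Finset.mem_insert, Finset.mem_singleton] at hz
      rcases hz with rfl | rfl | rfl
      · exact mem_nb.2 ⟨hR.ha, Ad_dl_of (Or.inr hT.haq) (fun h => hpa h.2.symm) (fun h => haq h.1)⟩
      · exact mem_nb.2 ⟨hβW, Ad_dl_of hqβ (fun h => hβp h.2) (fun h => hβq h.1)⟩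
      · exact mem_nb.2 ⟨hy, Ad_dl_of hA (fun h => hcon.2.2 h.2) (fun h => hpq h.2.symm)⟩
    have h4 := Finset.card_le_card this
    rw [Finset.card_eq_three.2 ⟨a, β, y, hβa.symm, hcon.1.symm, hcon.2.1.symm, rfl⟩] at h4
    omega
  refine ⟨α, β, hαβ, hαa, hαp, hαq, hβa, hβp, hβq, hqp, hαW, hβW, hαpD, hqβD, hRem, ?_, ?_⟩
  · exact ⟨hR.ha, hβW, hT.haq, hqβD, hβp, hqn⟩
  · exact ⟨hR.ha, hαW, hT.hpa, hαpD, hαq, fun y hy hA => hpn y hy (Ad_rv.1 hA)⟩

theorem Ctx.no2 {W : Finset V} {D : V → V → Prop} (h : Ctx W D) {a b p q : V}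
    (hR : Rem W D a b) (hT : T3 W D a b p q) :
    (nb (W \ {p, q}) (bc (dl D a b) a p q) a).card ≠ 2 := by
  intro hM
  obtain ⟨hpa, haq, hab, hpq, hpb, hqb⟩ := hT.ne hR h.hK
  obtain ⟨α, β, hαβ, hαa, hαp, hαq, hβa, hβp, hβq, hqp, hαW, hβW, hαpD, hqβD, hRem, hT1, hT2⟩ :=
    h.case2 hR hT hM
  -- first application
  have hb3 : D β b ∧ (nb W D b).card = 3 := by
    rcases h.second hRem hT1 with ⟨y, hy, hyq, hyp, hya, hyβ, hc, h1, h2⟩ |
      ⟨y, hy, hyq, hyp, hya, hyβ, hc, h1, h2⟩ | h1
    · rcases hT.uniq y hy (Or.inl h1) with rfl | rfl | rfl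
      · exact absurd rfl hyp
      · exact absurd rfl hyq
      · exact ⟨h2, hc⟩
    · rcases hT.uniq y hy (Or.inr h1) with rfl | rfl | rfl
      · exact absurd rfl hyp
      · exact absurd rfl hyq
      · exact absurd h1 (h.hK.asym _ hR.ha _ hy hR.hD)
    · exfalso
      obtain ⟨α', β', -, -, -, -, -, -, -, h3, -⟩ := h.case2 hRem hT1 h1
      -- D β a
      rcases hT.uniq β hβW (Or.inr h3) with h4 | h4 | h4
      · exact hβp h4
      · exact hβq h4
      · subst h4
        exact h.hK.asym _ hR.ha _ hβW hR.hD h3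
  have hRv : Rem W (rvD D) p q := hRem.rv
  rcases h.rv.second hRv hT2 with ⟨y, hy, hyp, hyq, hya, hyα, hc, h1, h2⟩ |
      ⟨y, hy, hyp, hyq, hya, hyα, hc, h1, h2⟩ | h1
  · -- D y a
    rcases hT.uniq y hy (Or.inr h1) with rfl | rfl | rfl
    · exact absurd rfl hyp
    · exact absurd rfl hyq
    · exact absurd h1 (h.hK.asym _ hR.ha _ hy hR.hD)
  · rcases hT.uniq y hy (Or.inl h1) with rfl | rfl | rfl
    · exact absurd rfl hyp
    · exact absurd rfl hyq
    · have hαb : D α y := h2
      have hsub : ({a, α, β} : Finset V) ⊆ nb W D y := by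
        intro z hz
        simp only [Finset.mem_insert, Finset.mem_singleton] at hz
        rcases hz with rfl | rfl | rfl
        · exact mem_nb.2 ⟨hR.ha, Or.inr hR.hD⟩
        · exact mem_nb.2 ⟨hαW, Or.inr hαb⟩
        · exact mem_nb.2 ⟨hβW, Or.inr hb3.1⟩
      have heq := Finset.eq_of_subset_of_card_le hsub (by
        rw [hb3.2, Finset.card_eq_three.2 ⟨a, α, β, hαa.symm, hβa.symm, hαβ, rfl⟩])
      have hc5 := h.hc
      obtain ⟨⟨z, hz, hyz⟩, _⟩ := h.hK.exists_inout (by omega) hy
      have : z ∈ nb W D y := mem_nb.2 ⟨hz, Or.inl hyz⟩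
      rw [← heq] at this
      simp only [Finset.mem_insert, Finset.mem_singleton] at this
      rcases this with rfl | rfl | rfl
      · exact h.hK.asym _ hR.ha _ hy hR.hD hyz
      · exact h.hK.asym _ hαW _ hy hαb hyz
      · exact h.hK.asym _ hβW _ hy hb3.1 hyz
  · obtain ⟨α', β', -, -, -, -, -, -, -, h3, -⟩ := h.rv.case2 hRv hT2 h1
    -- D a α
    have haα : D a α := h3
    rcases hT.uniq α hαW (Or.inl haα) with h4 | h4 | h4
    · exact hαp h4
    · exact hαq h4
    · subst h4
      -- α = b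
      have hPall : P W D {β, a, p, q, α} := by
        obtain ⟨z, hz, hzX, hzq, hA, hP⟩ := (h.hK.fc β hβW).del hT.hq (by simpa using hβq.symm)
        rcases hT1.uniq z hz hA with rfl | rfl | rfl
        · obtain ⟨t, ht, htX, htp, hA', hP'⟩ := hP.del hT.hp
            (by simp [hpq, hpa, hβp.symm])
          rcases hT2.uniq t ht (Ad_rv.2 hA') with rfl | rfl | rfl
          · simp at htX
          · exact hP'.congr (by clear * -; intro z _; simp; tauto)
          · simp at htX
        · simp at hzX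
        · obtain ⟨t, ht, htX, hta, hA', hP'⟩ := hP.del hR.ha
            (by simp [haq, hpa.symm, hβa.symm])
          rcases hT.uniq t ht hA' with rfl | rfl | rfl
          · simp at htX
          · simp at htX
          · exact hP'.congr (by clear * -; intro z _; simp; tauto)
      refine h.hK.outc q hT.hq p hT.hp β hβW hβp.symm hqp hqβD ?_
      refine P.add (z := a) (z' := α) (hPall.congr (by clear * -; intro z _; simp; tauto)) hR.ha hαW ?_ ?_
        hαa.symm (Or.inl hR.hD)
      · simp [haq, hpa.symm, hβa.symm]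
      · simp [hαq, hαp, hαβ]

end Pool.Agent.Work.MP_a74ba6_co
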