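import Pool.Agent.Work.MP_a74ba6_co.Ear

set_option autoImplicit false

namespace Pool.Agent.Work.MP_a74ba6_co

open Classical

variable {V : Type*} [Fintype V]

/-- perfect matchings of `S`, as involutions -/
noncomputable def FF (A : V → V → Prop) (S : Finset V) : Finset (V → V) :=
  Finset.univ.filter (fun f => (∀ z ∈ S, f z ∈ S ∧ f z ≠ z ∧ A z (f z) ∧ f (f z) = z) ∧
    ∀ z, z ∉ S → f z = z)

theorem mem_FF {A : V → V → Prop} {S : Finset V} {f : V → V} : f ∈ FF A S ↔
    (∀ z ∈ S, f z ∈ S ∧ f z ≠ z ∧ A z (f z) ∧ f (f z) = z) ∧ ∀ z, z ∉ S → f z = z := by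
  simp [FF]

theorem FF_pos {A : V → V → Prop} (hs : ∀ x y, A x y → A y x) {S : Finset V} :
    0 < (FF A S).card ↔ PM A S := by
  constructor
  · intro h
    obtain ⟨f, hf⟩ := Finset.card_pos.1 h
    exact PM.ofFun (f := f) _ rfl (mem_FF.1 hf).1
  · intro h
    obtain ⟨f, hf⟩ := h.toFun hs
    apply Finset.card_pos.2
    refine ⟨fun z => if z ∈ S then f z else z, ?_⟩
    rw [mem_FF]
    constructor
    · intro z hz
      obtain ⟨h1, h2, h3, h4⟩ := hf z hz
      simp only [if_pos hz, if_pos h1]
      exact ⟨h1, h2, h3, h4⟩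
    · intro z hz; simp [hz]

theorem FF_expand {A : V → V → Prop} (hs : ∀ x y, A x y → A y x) {S : Finset V} {u : V}
    (hu : u ∈ S) : (FF A S).card =
      ∑ y ∈ (S.erase u).filter (fun y => A u y), (FF A (S \ {u, y})).card := by
  rw [Finset.card_eq_sum_card_fiberwise (f := fun f => f u)
    (t := (S.erase u).filter (fun y => A u y))]
  · apply Finset.sum_congr rfl
    intro y hy
    simp only [Finset.mem_filter, Finset.mem_erase] at hy
    obtain ⟨⟨hyu, hyS⟩, hA⟩ := hy
    refine Finset.card_bij' (fun f _ => fun z => if z = u ∨ z = y then z else f z)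
      (fun g _ => fun z => if z = u then y else if z = y then u else g z) ?_ ?_ ?_ ?_
    · intro f hf
      simp only [Finset.mem_filter, mem_FF] at hf ⊢
      obtain ⟨⟨h1, h2⟩, h3⟩ := hf
      constructor
      · intro z hz
        simp only [Finset.mem_sdiff, Finset.mem_insert, Finset.mem_singleton, not_or] at hz
        obtain ⟨k1, k2, k3, k4⟩ := h1 z hz.1
        have hzn : ¬ (z = u ∨ z = y) := by tauto
        have hfy : f y = u := by
          rw [← h3]; exact (h1 u hu).2.2.2
        have hfz : ¬ (f z = u ∨ f z = y) := by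
          rintro (h | h)
          · apply hz.2.2
            rw [← k4, h, h3]
          · apply hz.2.1
            rw [← k4, h, hfy]
        simp only [if_neg hzn, if_neg hfz]
        refine ⟨?_, k2, k3, k4⟩
        simp only [Finset.mem_sdiff, Finset.mem_insert, Finset.mem_singleton]
        exact ⟨k1, hfz⟩
      · intro z hz
        simp only [Finset.mem_sdiff, Finset.mem_insert, Finset.mem_singleton, not_and,
          not_not] at hz
        by_cases hzn : z = u ∨ z = y
        · simp [hzn]
        · simp only [if_neg hzn]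
          exact h2 z (fun h => hzn (hz h))
    · intro g hg
      simp only [Finset.mem_filter, mem_FF] at hg ⊢
      obtain ⟨h1, h2⟩ := hg
      have hyu' : ¬ y = u := hyu
      refine ⟨⟨?_, ?_⟩, ?_⟩
      · intro z hz
        by_cases hzu : z = u
        · subst hzu; simp [hyu', hyS, hA]
        · by_cases hzy : z = y
          · subst hzy; simp [hyu', hu, hs _ _ hA, Ne.symm hyu]
          · obtain ⟨k1, k2, k3, k4⟩ := h1 z (by simp [hz, hzu, hzy])
            simp only [Finset.mem_sdiff, Finset.mem_insert, Finset.mem_singleton, not_or] at k1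
            simp only [if_neg hzu, if_neg hzy, if_neg k1.2.1, if_neg k1.2.2]
            exact ⟨k1.1, k2, k3, k4⟩
      · intro z hz
        have hzu : z ≠ u := fun h => hz (h ▸ hu)
        have hzy : z ≠ y := fun h => hz (h ▸ hyS)
        simp only [if_neg hzu, if_neg hzy]
        exact h2 z (by simp [hz])
      · simp
    · intro f hf
      simp only [Finset.mem_filter, mem_FF] at hf
      obtain ⟨⟨h1, h2⟩, h3⟩ := hf
      funext z
      have hfy : f y = u := by
        rw [← h3]; exact (h1 u hu).2.2.2
      by_cases hzu : z = u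
      · subst hzu; simp [h3]
      · by_cases hzy : z = y
        · subst hzy; simp [hzu, hfy]
        · simp [hzu, hzy]
    · intro g hg
      simp only [mem_FF] at hg
      obtain ⟨h1, h2⟩ := hg
      funext z
      by_cases hzu : z = u
      · subst hzu; simp; exact (h2 z (by simp)).symm
      · by_cases hzy : z = y
        · subst hzy; simp; exact (h2 z (by simp)).symm
        · simp [hzu, hzy]
  · intro f hf
    simp only [Finset.mem_coe, mem_FF] at hf
    simp only [Finset.coe_filter, Finset.mem_erase, Set.mem_setOf_eq]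
    obtain ⟨h1, h2, h3, h4⟩ := hf.1 u hu
    exact ⟨⟨h2, h1⟩, h3⟩

/-- with factor-criticality, no matchable out-cherry implies no matchable in-cherry -/
theorem InK.of_out {W : Finset V} {D : V → V → Prop}
    (asym : ∀ x ∈ W, ∀ y ∈ W, D x y → ¬ D y x)
    (fc : ∀ x ∈ W, P W D {x})
    (outc : ∀ u ∈ W, ∀ x ∈ W, ∀ y ∈ W, x ≠ y → D u x → D u y → ¬ P W D {u, x, y}) :
    InK W D := by
  refine ⟨asym, fc, outc, ?_⟩
  set q : V → ℕ := fun x => (FF (Ad D) (W \ {x})).card with hq
  have hsym : ∀ x y : V, Ad D x y → Ad D y x := fun x y h => Ad.symm h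
  have hqpos : ∀ x ∈ W, 0 < q x := fun x hx => (FF_pos hsym).2 (fc x hx)
  let c : V → V → V → ℕ := fun u x y => if x = y then 0 else (FF (Ad D) (W \ {u, x, y})).card
  have hcsymm : ∀ u x y, c u x y = c u y x := by
    intro u x y
    simp only [c]
    by_cases h : x = y
    · simp [h]
    · rw [if_neg h, if_neg (Ne.symm h)]
      congr 3
      ext z; simp; tauto
  let O : V → Finset V := fun u => W.filter (fun x => D u x)
  let I : V → Finset V := fun u => W.filter (fun x => D x u)
  have hexp : ∀ u ∈ W, ∀ x ∈ W, x ≠ u → q x = ∑ y ∈ O u, c u x y + ∑ y ∈ I u, c u x y := by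
    intro u hu x hx hxu
    rw [hq]
    simp only
    rw [FF_expand hsym (u := u) (by simp [hu, Ne.symm hxu]), ← Finset.sum_union]
    · have hsub : ((W \ {x}).erase u).filter (fun y => Ad D u y) ⊆ O u ∪ I u := by
        intro y hy
        simp only [Finset.mem_filter, Finset.mem_erase, Finset.mem_sdiff, Finset.mem_singleton] at hy
        simp only [O, I, Finset.mem_union, Finset.mem_filter]
        rcases hy.2 with h | h
        · exact Or.inl ⟨hy.1.2.1, h⟩
        · exact Or.inr ⟨hy.1.2.1, h⟩
      rw [← Finset.sum_subset hsub]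
      · apply Finset.sum_congr rfl
        intro y hy
        simp only [Finset.mem_filter, Finset.mem_erase, Finset.mem_sdiff, Finset.mem_singleton] at hy
        simp only [c]
        rw [if_neg (Ne.symm hy.1.2.2)]
        congr 2
        ext z; simp; tauto
      · intro y hy hyn
        simp only [O, I, Finset.mem_union, Finset.mem_filter] at hy
        simp only [Finset.mem_filter, Finset.mem_erase, Finset.mem_sdiff, Finset.mem_singleton] at hyn
        simp only [c]
        have hyW : y ∈ W := by tauto
        have hyA : Ad D u y := by unfold Ad; tauto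
        have hyu : y ≠ u := by
          rintro rfl
          rcases hyA with h | h <;> exact asym y hyW y hyW h h
        have : x = y := by
          by_contra hne
          exact hyn ⟨⟨hyu, hyW, Ne.symm hne⟩, hyA⟩
        rw [if_pos this]
    · rw [Finset.disjoint_left]
      intro z hz hz'
      simp only [O, I, Finset.mem_filter] at hz hz'
      exact asym u hu z hz.1 hz.2 hz'.2
  -- out sums
  have hOO : ∀ u ∈ W, ∀ x ∈ O u, ∑ y ∈ O u, c u x y = 0 := by
    intro u hu x hx
    apply Finset.sum_eq_zero
    intro y hy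
    simp only [O, Finset.mem_filter] at hx hy
    simp only [c]
    by_cases hxy : x = y
    · simp [hxy]
    · rw [if_neg hxy]
      by_contra hne
      exact outc u hu x hx.1 y hy.1 hxy hx.2 hy.2 ((FF_pos hsym).1 (Nat.pos_of_ne_zero hne))
  have hneO : ∀ u ∈ W, ∀ x ∈ O u, x ∈ W ∧ x ≠ u := by
    intro u hu x hx
    simp only [O, Finset.mem_filter] at hx
    refine ⟨hx.1, ?_⟩
    rintro rfl; exact asym x hu x hu hx.2 hx.2
  have hneI : ∀ u ∈ W, ∀ x ∈ I u, x ∈ W ∧ x ≠ u := by
    intro u hu x hx
    simp only [I, Finset.mem_filter] at hx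
    refine ⟨hx.1, ?_⟩
    rintro rfl; exact asym x hu x hu hx.2 hx.2
  have hsumI : ∀ u ∈ W, ∑ x ∈ I u, q x = ∑ x ∈ O u, q x + ∑ x ∈ I u, ∑ y ∈ I u, c u x y := by
    intro u hu
    have h1 : ∑ x ∈ O u, q x = ∑ x ∈ O u, ∑ y ∈ I u, c u x y := by
      apply Finset.sum_congr rfl
      intro x hx
      rw [hexp u hu x (hneO u hu x hx).1 (hneO u hu x hx).2, hOO u hu x hx, zero_add]
    have h2 : ∑ x ∈ I u, q x = ∑ x ∈ I u, ∑ y ∈ O u, c u x y + ∑ x ∈ I u, ∑ y ∈ I u, c u x y := by
      rw [← Finset.sum_add_distrib]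
      apply Finset.sum_congr rfl
      intro x hx
      rw [hexp u hu x (hneI u hu x hx).1 (hneI u hu x hx).2]
    rw [h2, h1, Finset.sum_comm]
    congr 1
    apply Finset.sum_congr rfl
    intro x _
    apply Finset.sum_congr rfl
    intro y _
    exact hcsymm u y x
  -- double counting
  have hdc : ∑ u ∈ W, q u * ∑ x ∈ O u, q x = ∑ u ∈ W, q u * ∑ x ∈ I u, q x := by
    have h1 : ∀ u, q u * ∑ x ∈ O u, q x = ∑ x ∈ W, if D u x then q u * q x else 0 := by
      intro u
      rw [Finset.mul_sum, ← Finset.sum_filter]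
    have h2 : ∀ u, q u * ∑ x ∈ I u, q x = ∑ x ∈ W, if D x u then q x * q u else 0 := by
      intro u
      rw [Finset.mul_sum, ← Finset.sum_filter]
      apply Finset.sum_congr rfl
      intro x _; ring
    simp only [h1, h2]
    exact Finset.sum_comm
  intro u hu x hx y hy hxy hxu hyu hP
  have hpos : 0 < ∑ x ∈ I u, ∑ y ∈ I u, c u x y := by
    have hxI : x ∈ I u := by simp [I, hx, hxu]
    have hyI : y ∈ I u := by simp [I, hy, hyu]
    have h1 : 0 < c u x y := by
      simp only [c]
      rw [if_neg hxy]
      exact (FF_pos hsym).2 hP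
    calc 0 < c u x y := h1
      _ ≤ ∑ y ∈ I u, c u x y := Finset.single_le_sum (f := fun y => c u x y)
          (fun _ _ => Nat.zero_le _) hyI
      _ ≤ _ := Finset.single_le_sum (f := fun x => ∑ y ∈ I u, c u x y)
          (fun _ _ => Nat.zero_le _) hxI
  have hlt : ∑ u ∈ W, q u * ∑ x ∈ O u, q x < ∑ u ∈ W, q u * ∑ x ∈ I u, q x := by
    apply Finset.sum_lt_sum
    · intro v hv
      apply Nat.mul_le_mul_left
      rw [hsumI v hv]
      exact Nat.le_add_right _ _
    · refine ⟨u, hu, ?_⟩
      apply Nat.mul_lt_mul_of_pos_left _ (hqpos u hu)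
      rw [hsumI u hu]
      omega
  omega

end Pool.Agent.Work.MP_a74ba6_co
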