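import Pool.Agent.Work.MP_a74ba6_co.Case1
import Pool.Agent.Work.MP_a74ba6_co.Count
import Pool.Agent.Work.MP_a74ba6_co.Berge

set_option autoImplicit false

namespace Pool.Agent.Work.MP_a74ba6_co

open Classical

variable {V : Type*}

/-- `T` dominates `K` -/
def DomIn (D : V → V → Prop) (K T : Finset V) : Prop := ∀ x ∈ K, x ∉ T → ∃ y ∈ T, D y x

theorem PM.dom {D : V → V → Prop} {S : Finset V} (h : PM (Ad D) S) :
    ∃ T, 2 * T.card = S.card ∧ T ⊆ S ∧ DomIn D S T := by
  induction h with
  | empty => exact ⟨∅, by simp, by simp, by intro x hx; simp at hx⟩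
  | @pair S a b hS ha hb hab hA ih =>
    obtain ⟨T, h1, h2, h3⟩ := ih
    have hc : (insert a (insert b S)).card = S.card + 2 := by
      rw [Finset.card_insert_of_notMem (by simp [hab, ha]), Finset.card_insert_of_notMem hb]
    rcases hA with hA | hA
    · refine ⟨insert a T, ?_, ?_, ?_⟩
      · rw [hc, Finset.card_insert_of_notMem (fun h => ha (h2 h))]; omega
      · intro z hz
        rcases Finset.mem_insert.1 hz with rfl | hz
        · simp
        · simp [h2 hz]
      · intro x hx hxT
        simp only [Finset.mem_insert, not_or] at hx hxT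
        rcases hx with rfl | rfl | hx
        · exact absurd rfl hxT.1
        · exact ⟨a, by simp, hA⟩
        · obtain ⟨y, hy, hD⟩ := h3 x hx hxT.2
          exact ⟨y, by simp [hy], hD⟩
    · refine ⟨insert b T, ?_, ?_, ?_⟩
      · rw [hc, Finset.card_insert_of_notMem (fun h => hb (h2 h))]; omega
      · intro z hz
        rcases Finset.mem_insert.1 hz with rfl | hz
        · simp
        · simp [h2 hz]
      · intro x hx hxT
        simp only [Finset.mem_insert, not_or] at hx hxT
        rcases hx with rfl | rfl | hx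
        · exact ⟨b, by simp, hA⟩
        · exact absurd rfl hxT.1
        · obtain ⟨y, hy, hD⟩ := h3 x hx hxT.2
          exact ⟨y, by simp [hy], hD⟩

/-- `K` can be dominated by fewer than half of its size -/
def Good (D : V → V → Prop) (K : Finset V) : Prop := ∃ T, 2 * T.card + 1 ≤ K.card ∧ DomIn D K T

variable [Fintype V]

theorem bad_inK {D : V → V → Prop} (hasym : ∀ x y, D x y → ¬ D y x) {K : Finset V}
    (hfc : ∀ v ∈ K, PM (Ad D) (K \ {v})) (hbad : ¬ Good D K) : InK K D := by
  refine InK.of_out (fun x _ y _ => hasym x y) hfc ?_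
  intro u hu x hx y hy hxy hux huy hP
  apply hbad
  obtain ⟨T, h1, h2, h3⟩ := PM.dom hP
  have hne : u ≠ x := by rintro rfl; exact hasym _ _ hux hux
  have hne' : u ≠ y := by rintro rfl; exact hasym _ _ huy huy
  have hcard : (K \ {u, x, y}).card + 3 = K.card := by
    have hsub : ({u, x, y} : Finset V) ⊆ K := by
      intro z hz
      simp only [Finset.mem_insert, Finset.mem_singleton] at hz
      rcases hz with rfl | rfl | rfl <;> assumption
    rw [Finset.card_sdiff_of_subset hsub]
    have h4 := Finset.card_le_card hsub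
    rw [Finset.card_eq_three.2 ⟨u, x, y, hne, hne', hxy, rfl⟩] at h4 ⊢
    omega
  refine ⟨insert u T, ?_, ?_⟩
  · have := Finset.card_insert_le u T
    omega
  · intro z hz hzT
    simp only [Finset.mem_insert, not_or] at hzT
    by_cases hzx : z = x
    · exact ⟨u, by simp, hzx ▸ hux⟩
    · by_cases hzy : z = y
      · exact ⟨u, by simp, hzy ▸ huy⟩
      · obtain ⟨w, hw, hD⟩ := h3 z (by simp [hz, hzT.1, hzx, hzy]) hzT.2
        exact ⟨w, by simp [hw], hD⟩

omit [Fintype V] in
theorem sum_nb {D : V → V → Prop} (hasym : ∀ x y, D x y → ¬ D y x) (K : Finset V) :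
    ∑ x ∈ K, (nb K D x).card = 2 * ∑ x ∈ K, (K.filter (fun y => D x y)).card := by
  have h1 : ∀ x, (nb K D x).card =
      (K.filter (fun y => D x y)).card + (K.filter (fun y => D y x)).card := by
    intro x
    rw [← Finset.card_union_of_disjoint]
    · congr 1
      ext z; simp only [mem_nb, Ad, Finset.mem_union, Finset.mem_filter]; tauto
    · rw [Finset.disjoint_left]
      intro z hz hz'
      simp only [Finset.mem_filter] at hz hz'
      exact hasym _ _ hz.2 hz'.2
  have h2 : ∑ x ∈ K, (K.filter (fun y => D y x)).card = ∑ x ∈ K, (K.filter (fun y => D x y)).card := by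
    simp only [Finset.card_filter]
    exact Finset.sum_comm
  simp only [h1]
  rw [Finset.sum_add_distrib, h2]
  ring

theorem edges_ge {D : V → V → Prop} (hasym : ∀ x y, D x y → ¬ D y x) {r : ℕ} (hr : 3 ≤ r)
    (hreg : ∀ x, (Finset.univ.filter (fun y => Ad D x y)).card = r) {X : Finset V}
    {F : Finset (Finset V)} (hpre : Pre (Ad D) Finset.univ X F) {K : Finset V} (hK : K ∈ F)
    (hfc : ∀ v ∈ K, PM (Ad D) (K \ {v})) (hbad : ¬ Good D K) :
    r ≤ ∑ x ∈ K, (X.filter (fun a => Ad D x a)).card := by
  have hdeg : ∀ x ∈ K, (nb K D x).card + (X.filter (fun a => Ad D x a)).card = r := by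
    intro x hx
    rw [← hreg x, ← Finset.card_union_of_disjoint]
    · congr 1
      ext z
      simp only [mem_nb, Finset.mem_union, Finset.mem_filter, Finset.mem_univ, true_and]
      constructor
      · rintro (h | h)
        · exact h.2
        · exact h.2
      · intro h
        by_cases hz : z ∈ X
        · exact Or.inr ⟨hz, h⟩
        · exact Or.inl ⟨hpre.cl K hK x hx z (Finset.mem_univ _) hz h, h⟩
    · rw [Finset.disjoint_left]
      intro z hz hz'
      exact (hpre.mem K hK z (mem_nb.1 hz).1).2 (Finset.mem_filter.1 hz').1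
  have hsum : ∑ x ∈ K, (nb K D x).card + ∑ x ∈ K, (X.filter (fun a => Ad D x a)).card =
      K.card * r := by
    rw [← Finset.sum_add_distrib, Finset.sum_congr rfl hdeg]
    simp
  rw [sum_nb hasym] at hsum
  obtain ⟨k, hk⟩ := hpre.odd K hK
  have hmul : K.card * r = 2 * (k * r) + r := by rw [hk]; ring
  by_cases hc : K.card = 1
  · obtain ⟨v, rfl⟩ := Finset.card_eq_one.1 hc
    have h1 := hdeg v (by simp)
    have h2 : nb {v} D v = ∅ := by
      ext z
      simp only [mem_nb, Finset.mem_singleton, Finset.notMem_empty, iff_false, not_and]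
      rintro rfl h
      rcases h with h | h <;> exact hasym _ _ h h
    rw [h2, Finset.card_empty, zero_add] at h1
    rw [Finset.sum_singleton, h1]
  · have hInK := bad_inK hasym hfc hbad
    obtain ⟨x, hx, y, hy, hxy, hcx, hcy⟩ := hInK.two (by omega)
    have h1 := hdeg x hx
    have h2 := hdeg y hy
    have h3 : ∑ z ∈ ({x, y} : Finset V), (X.filter (fun a => Ad D z a)).card ≤
        ∑ z ∈ K, (X.filter (fun a => Ad D z a)).card := by
      apply Finset.sum_le_sum_of_subset
      intro z hz
      simp only [Finset.mem_insert, Finset.mem_singleton] at hz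
      rcases hz with rfl | rfl <;> assumption
    rw [Finset.sum_pair hxy] at h3
    omega

/-- The main theorem in relational form. -/
theorem main {D : V → V → Prop} (hasym : ∀ x y, D x y → ¬ D y x) {r : ℕ} (hr : 3 ≤ r)
    (hreg : ∀ x, (Finset.univ.filter (fun y => Ad D x y)).card = r) :
    ∃ S : Finset V, 2 * S.card ≤ Fintype.card V ∧ ∀ x, x ∉ S → ∃ y ∈ S, D y x := by
  have hs : ∀ x y, Ad D x y → Ad D y x := fun x y h => h.symm
  obtain ⟨X, F, hpre, hfc, hXF, hcov, hcard⟩ := decomp hs (Finset.univ : Finset V)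
  -- Hall
  let ι := {K : Finset V // K ∈ F ∧ ¬ Good D K}
  let t : ι → Finset V := fun K => X.filter (fun a => ∃ k ∈ K.1, Ad D a k)
  obtain ⟨m, hinj, hm⟩ := (Finset.all_card_le_biUnion_card_iff_exists_injective t).1 (by
    intro s
    have h1 : ∀ K ∈ s, r ≤ ∑ x ∈ K.1, (X.filter (fun a => Ad D x a)).card := by
      intro K _
      exact edges_ge hasym hr hreg hpre K.2.1 (hfc K.1 K.2.1) K.2.2
    have h2 : s.card * r ≤ ∑ K ∈ s, ∑ x ∈ K.1, (X.filter (fun a => Ad D x a)).card := by
      calc s.card * r = ∑ _K ∈ s, r := by simp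
        _ ≤ _ := Finset.sum_le_sum h1
    have h3 : ∑ K ∈ s, ∑ x ∈ K.1, (X.filter (fun a => Ad D x a)).card =
        ∑ K ∈ s, ∑ x ∈ K.1, ∑ a ∈ s.biUnion t, if Ad D x a then 1 else 0 := by
      apply Finset.sum_congr rfl
      intro K hK
      apply Finset.sum_congr rfl
      intro x hx
      rw [← Finset.card_filter]
      congr 1
      ext a
      simp only [Finset.mem_filter, Finset.mem_biUnion, t]
      constructor
      · rintro ⟨h4, h5⟩
        exact ⟨⟨K, hK, h4, x, hx, h5.symm⟩, h5⟩
      · rintro ⟨⟨_, _, h4, _⟩, h5⟩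
        exact ⟨h4, h5⟩
    have h4 : ∑ K ∈ s, ∑ x ∈ K.1, ∑ a ∈ s.biUnion t, (if Ad D x a then 1 else 0) =
        ∑ a ∈ s.biUnion t, ((s.biUnion (fun K => K.1)).filter (fun x => Ad D x a)).card := by
      rw [← Finset.sum_biUnion (s := s) (t := fun K : ι => K.1)
        (f := fun x => ∑ a ∈ s.biUnion t, if Ad D x a then 1 else 0)]
      · rw [Finset.sum_comm]
        apply Finset.sum_congr rfl
        intro a _
        rw [Finset.card_filter]
      · intro K _ L _ hne
        show Disjoint K.1 L.1
        rw [Finset.disjoint_left]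
        intro z hz hz'
        exact hne (Subtype.ext (hpre.disj K.1 K.2.1 L.1 L.2.1 z hz hz'))
    have h5 : ∑ a ∈ s.biUnion t, ((s.biUnion (fun K => K.1)).filter (fun x => Ad D x a)).card ≤
        (s.biUnion t).card * r := by
      calc _ ≤ ∑ _a ∈ s.biUnion t, r := by
            apply Finset.sum_le_sum
            intro a _
            rw [← hreg a]
            apply Finset.card_le_card
            intro z hz
            simp only [Finset.mem_filter, Finset.mem_univ, true_and] at hz ⊢
            exact hz.2.symm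
        _ = _ := by simp
    have h6 : s.card * r ≤ (s.biUnion t).card * r := by
      calc s.card * r ≤ _ := h2
        _ = _ := h3
        _ = _ := h4
        _ ≤ _ := h5
    exact Nat.le_of_mul_le_mul_right h6 (by omega))
  have hmX : ∀ K, m K ∈ X ∧ ∃ k ∈ K.1, Ad D (m K) k := by
    intro K
    have := hm K
    simpa only [t, Finset.mem_filter] using this
  -- local dominating sets
  have hU : ∀ K : Finset V, ∃ T : Finset V, K ∈ F → (DomIn D K T ∧
      2 * T.card + 1 ≤ K.card + (if Good D K then 0 else 2) ∧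
      ∀ h : K ∈ F ∧ ¬ Good D K, m ⟨K, h⟩ ∈ T ∨ ∃ y ∈ T, D y (m ⟨K, h⟩)) := by
    intro K
    by_cases hKF : K ∈ F
    swap
    · exact ⟨∅, fun h => absurd h hKF⟩
    by_cases hG : Good D K
    · obtain ⟨T, h1, h2⟩ := hG
      refine ⟨T, fun _ => ⟨h2, ?_, fun h => absurd ⟨T, h1, h2⟩ h.2⟩⟩
      omega
    · obtain ⟨hX, k, hk, hA⟩ := hmX ⟨K, hKF, hG⟩
      have haK : m ⟨K, hKF, hG⟩ ∉ K := fun h => (hpre.mem _ hKF _ h).2 hX
      have hPM : PM (Ad D) (insert (m ⟨K, hKF, hG⟩) K) := by
        have : insert (m ⟨K, hKF, hG⟩) K = insert (m ⟨K, hKF, hG⟩) (insert k (K \ {k})) := by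
          ext z; simp only [Finset.mem_insert, Finset.mem_sdiff, Finset.mem_singleton]
          constructor
          · rintro (h | h)
            · exact Or.inl h
            · by_cases hzk : z = k
              · exact Or.inr (Or.inl hzk)
              · exact Or.inr (Or.inr ⟨h, hzk⟩)
          · rintro (h | rfl | h)
            · exact Or.inl h
            · exact Or.inr hk
            · exact Or.inr h.1
        rw [this]
        refine PM.pair (hfc _ hKF k hk) ?_ (by simp) ?_ hA
        · simp [haK]
        · rintro h; exact haK (h ▸ hk)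
      obtain ⟨T, h1, h2, h3⟩ := hPM.dom
      rw [Finset.card_insert_of_notMem haK] at h1
      refine ⟨T, fun _ => ⟨?_, ?_, ?_⟩⟩
      · intro x hx hxT
        exact h3 x (by simp [hx]) hxT
      · rw [if_neg hG]; omega
      · intro h
        by_cases hmT : m ⟨K, h⟩ ∈ T
        · exact Or.inl hmT
        · exact Or.inr (h3 _ (by simp) hmT)
  choose U hU using hU
  let S := F.biUnion U ∪ (X \ Finset.univ.image m)
  refine ⟨S, ?_, ?_⟩
  · have h1 : S.card ≤ ∑ K ∈ F, (U K).card + (X.card - Fintype.card ι) := by
      refine (Finset.card_union_le _ _).trans ?_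
      apply Nat.add_le_add
      · exact Finset.card_biUnion_le
      · rw [Finset.card_sdiff_of_subset, Finset.card_image_of_injective _ hinj]
        · rfl
        · intro z hz
          obtain ⟨K, _, rfl⟩ := Finset.mem_image.1 hz
          exact (hmX K).1
    have hιX : Fintype.card ι ≤ X.card := by
      have : (Finset.univ.image m).card ≤ X.card := by
        apply Finset.card_le_card
        intro z hz
        obtain ⟨K, _, rfl⟩ := Finset.mem_image.1 hz
        exact (hmX K).1
      rwa [Finset.card_image_of_injective _ hinj] at this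
    have hιF : Fintype.card ι = (F.filter (fun K => ¬ Good D K)).card := by
      apply Fintype.card_of_subtype
      intro K; simp
    have h2 : ∑ K ∈ F, (2 * (U K).card + 1) ≤ ∑ K ∈ F, (K.card + (if Good D K then 0 else 2)) := by
      apply Finset.sum_le_sum
      intro K hK
      exact (hU K hK).2.1
    have h3 : ∑ K ∈ F, (2 * (U K).card + 1) = 2 * ∑ K ∈ F, (U K).card + F.card := by
      rw [Finset.sum_add_distrib, ← Finset.mul_sum]; simp
    have h4 : ∑ K ∈ F, (K.card + (if Good D K then 0 else 2)) =
        ∑ K ∈ F, K.card + 2 * (F.filter (fun K => ¬ Good D K)).card := by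
      rw [Finset.sum_add_distrib, Finset.card_filter, Finset.mul_sum]
      congr 1
      apply Finset.sum_congr rfl
      intro K _
      by_cases h : Good D K <;> simp [h]
    rw [h3, h4] at h2
    rw [Finset.card_univ] at hcard
    omega
  · intro x hxS
    simp only [S, Finset.mem_union, Finset.mem_biUnion, Finset.mem_sdiff,
      not_or, not_exists, not_and, not_not] at hxS
    by_cases hxX : x ∈ X
    · obtain ⟨K, _, rfl⟩ := Finset.mem_image.1 (hxS.2 hxX)
      rcases (hU K.1 K.2.1).2.2 K.2 with h | ⟨y, hy, hD⟩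
      · exact absurd h (hxS.1 K.1 K.2.1)
      · exact ⟨y, by simp only [S, Finset.mem_union, Finset.mem_biUnion]; exact Or.inl ⟨K.1, K.2.1, hy⟩, hD⟩
    · obtain ⟨K, hK, hxK⟩ := hcov x (Finset.mem_univ _) hxX
      obtain ⟨y, hy, hD⟩ := (hU K hK).1 x hxK (hxS.1 K hK)
      exact ⟨y, by simp only [S, Finset.mem_union, Finset.mem_biUnion]; exact Or.inl ⟨K, hK, hy⟩, hD⟩

end Pool.Agent.Work.MP_a74ba6_co
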