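import Pool.Agent.Work.MP_a74ba6_co.SS

set_option autoImplicit false

namespace Pool.Agent.Work.MP_a74ba6_co

open Classical

variable {V : Type*}

theorem PM.toFun {A : V → V → Prop} (hs : ∀ x y, A x y → A y x) {S : Finset V} (h : PM A S) :
    ∃ f : V → V, ∀ x ∈ S, f x ∈ S ∧ f x ≠ x ∧ A x (f x) ∧ f (f x) = x := by
  induction h with
  | empty => exact ⟨id, by simp⟩
  | @pair S a b hS ha hb hab hA ih =>
    obtain ⟨f, hf⟩ := ih
    refine ⟨fun z => if z = a then b else if z = b then a else f z, ?_⟩
    intro x hx
    by_cases hxa : x = a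
    · subst hxa
      simp [hab, Ne.symm hab, hA]
    · by_cases hxb : x = b
      · subst hxb
        simp [Ne.symm hab, hs _ _ hA, hab]
      · have hxS : x ∈ S := by simp only [Finset.mem_insert] at hx; tauto
        obtain ⟨h1, h2, h3, h4⟩ := hf x hxS
        have h5 : f x ≠ a := fun h => ha (h ▸ h1)
        have h6 : f x ≠ b := fun h => hb (h ▸ h1)
        simp [hxa, hxb, h1, h2, h3, h4, h5, h6]

theorem PM.ofFun {A : V → V → Prop} {f : V → V} : ∀ (n : ℕ) {S : Finset V}, S.card = n →
    (∀ x ∈ S, f x ∈ S ∧ f x ≠ x ∧ A x (f x) ∧ f (f x) = x) → PM A S := by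
  intro n
  induction n using Nat.strong_induction_on with
  | _ n ih =>
    intro S hn hf
    rcases S.eq_empty_or_nonempty with rfl | ⟨x, hx⟩
    · exact PM.empty
    · obtain ⟨h1, h2, h3, h4⟩ := hf x hx
      have hS : S = insert x (insert (f x) (S \ {x, f x})) := by
        ext z; simp only [Finset.mem_insert, Finset.mem_sdiff, Finset.mem_singleton]
        constructor
        · intro hz; tauto
        · rintro (rfl | rfl | h)
          · exact hx
          · exact h1
          · exact h.1
      rw [hS]
      refine PM.pair (ih (S \ {x, f x}).card ?_ rfl ?_) (by simp) (by simp) (Ne.symm h2) h3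
      · rw [← hn]
        apply Finset.card_lt_card
        refine ⟨Finset.sdiff_subset, fun hsub => ?_⟩
        have := hsub hx
        simp at this
      · intro z hz
        simp only [Finset.mem_sdiff, Finset.mem_insert, Finset.mem_singleton, not_or] at hz
        obtain ⟨g1, g2, g3, g4⟩ := hf z hz.1
        refine ⟨?_, g2, g3, g4⟩
        simp only [Finset.mem_sdiff, Finset.mem_insert, Finset.mem_singleton, not_or]
        refine ⟨g1, ?_, ?_⟩
        · intro h; apply hz.2.2; rw [← g4, h]
        · intro h; apply hz.2.1; rw [← g4, h, h4]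

theorem PM.restrict {A : V → V → Prop} {S : Finset V} (h : PM A S) (T : Set V) :
    (∀ x ∈ S, ∀ y ∈ S, A x y → (x ∈ T ↔ y ∈ T)) → PM A (S.filter (fun z => z ∈ T)) := by
  induction h with
  | empty => intro _; simpa using PM.empty
  | @pair S a b hS ha hb hab hA ih =>
    intro hT
    have ih' := ih (fun x hx y hy => hT x (by simp [hx]) y (by simp [hy]))
    have hab' := hT a (by simp) b (by simp) hA
    by_cases haT : a ∈ T
    · have hbT := hab'.1 haT
      rw [Finset.filter_insert, if_pos haT, Finset.filter_insert, if_pos hbT]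
      exact PM.pair ih' (by simp [ha]) (by simp [hb]) hab hA
    · have hbT : b ∉ T := fun h => haT (hab'.2 h)
      rw [Finset.filter_insert, if_neg haT, Finset.filter_insert, if_neg hbT]
      exact ih'

/-- the state of an alternating path -/
structure Alt (A : V → V → Prop) (S : Finset V) (f g : V → V) (y : V) (Q : Finset V) (t : V) :
    Prop where
  sub : Q ⊆ S
  ymem : y ∈ Q
  tmem : t ∈ Q
  tney : t ≠ y
  fcl : ∀ z ∈ Q, f z ∈ Q
  gcl : ∀ z ∈ Q, z ≠ y → z ≠ t → g z ∈ Q ∧ g z ≠ y ∧ g z ≠ t
  pm : PM A Q
  ear : ∀ z ∈ Q, (z ≠ t ∧ PM A (Q \ {z, t})) ∨ (z ≠ y ∧ PM A (Q \ {z, y}))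

theorem exists_alt {A B : V → V → Prop} {S : Finset V} {f g : V → V} {y : V} (hy : y ∈ S)
    (hf : ∀ x ∈ S, f x ∈ S ∧ f x ≠ x ∧ A x (f x) ∧ f (f x) = x)
    (hg : ∀ x, x ∈ S → x ≠ y → g x ≠ y ∧ g x ≠ x ∧ A x (g x) ∧ g (g x) = x)
    (hB : ∀ x z, x ≠ y → z ≠ y → A x z → B x z) (hBy : B y (f y)) :
    ∃ Q t, Alt B S f g y Q t ∧ g t ∉ S := by
  -- take a maximal one
  let F := S.powerset.filter (fun Q => ∃ t, Alt B S f g y Q t)
  have hstart : ({y, f y} : Finset V) ∈ F := by
    simp only [F, Finset.mem_filter, Finset.mem_powerset]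
    have hfy := hf y hy
    refine ⟨?_, f y, ?_⟩
    · intro z hz; simp only [Finset.mem_insert, Finset.mem_singleton] at hz
      rcases hz with rfl | rfl
      · exact hy
      · exact hfy.1
    · constructor
      · intro z hz; simp only [Finset.mem_insert, Finset.mem_singleton] at hz
        rcases hz with rfl | rfl
        · exact hy
        · exact hfy.1
      · simp
      · simp
      · exact hfy.2.1
      · intro z hz; simp only [Finset.mem_insert, Finset.mem_singleton] at hz ⊢
        rcases hz with rfl | rfl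
        · right; rfl
        · left; exact hfy.2.2.2
      · intro z hz h1 h2
        simp only [Finset.mem_insert, Finset.mem_singleton] at hz
        tauto
      · have : PM B (insert y (insert (f y) ∅)) :=
          PM.pair PM.empty (by simp) (by simp) (Ne.symm hfy.2.1) hBy
        simpa using this
      · intro z hz; simp only [Finset.mem_insert, Finset.mem_singleton] at hz
        rcases hz with rfl | rfl
        · left; refine ⟨Ne.symm hfy.2.1, ?_⟩
          simpa using PM.empty
        · right; refine ⟨hfy.2.1, ?_⟩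
          have : ({y, f y} : Finset V) \ {f y, y} = ∅ := by
            ext z; simp; tauto
          rw [this]; exact PM.empty
  obtain ⟨Q, hQF, hmax⟩ := Finset.exists_max_image F Finset.card ⟨_, hstart⟩
  simp only [F, Finset.mem_filter, Finset.mem_powerset] at hQF
  obtain ⟨hQS, t, hQ⟩ := hQF
  refine ⟨Q, t, hQ, ?_⟩
  intro hgt
  have htS : t ∈ S := hQS hQ.tmem
  have hgt' := hg t htS hQ.tney
  have hyQ : g t ∉ Q := by
    intro hmem
    have h3 := hQ.gcl (g t) hmem hgt'.1 hgt'.2.1
    exact h3.2.2 hgt'.2.2.2
  have hfg := hf (g t) hgt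
  have htQ : f (g t) ∉ Q := by
    intro hmem
    have := hQ.fcl _ hmem
    rw [hfg.2.2.2] at this
    exact hyQ this
  have hty : f (g t) ≠ y := fun h => htQ (h ▸ hQ.ymem)
  have htt : f (g t) ≠ t := fun h => htQ (by rw [h]; exact hQ.tmem)
  have hBt : B t (g t) := hB _ _ hQ.tney hgt'.1 hgt'.2.2.1
  have hBg : B (g t) (f (g t)) := hB _ _ hgt'.1 hty hfg.2.2.1
  have hQt : PM B (Q \ {y, t}) := by
    rcases hQ.ear y hQ.ymem with h | h
    · exact h.2
    · exact absurd rfl h.1
  have hnew : insert (g t) (insert (f (g t)) Q) ∈ F := by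
    simp only [F, Finset.mem_filter, Finset.mem_powerset]
    refine ⟨?_, f (g t), ?_⟩
    · intro z hz; simp only [Finset.mem_insert] at hz
      rcases hz with rfl | rfl | hz
      · exact hgt
      · exact hfg.1
      · exact hQS hz
    · constructor
      · intro z hz; simp only [Finset.mem_insert] at hz
        rcases hz with rfl | rfl | hz
        · exact hgt
        · exact hfg.1
        · exact hQS hz
      · simp [hQ.ymem]
      · simp
      · exact hty
      · intro z hz; simp only [Finset.mem_insert] at hz ⊢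
        rcases hz with rfl | rfl | hz
        · right; left; rfl
        · left; exact hfg.2.2.2
        · right; right; exact hQ.fcl z hz
      · intro z hz h1 h2
        simp only [Finset.mem_insert] at hz ⊢
        rcases hz with rfl | rfl | hz
        · rw [hgt'.2.2.2]
          exact ⟨Or.inr (Or.inr hQ.tmem), hQ.tney, Ne.symm htt⟩
        · exact absurd rfl h2
        · by_cases hzt : z = t
          · subst hzt
            exact ⟨Or.inl rfl, hgt'.1, Ne.symm hfg.2.1⟩
          · obtain ⟨k1, k2, k3⟩ := hQ.gcl z hz h1 hzt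
            exact ⟨Or.inr (Or.inr k1), k2, fun h => htQ (h ▸ k1)⟩
      · exact PM.pair hQ.pm hyQ htQ (Ne.symm hfg.2.1) hBg
      · intro z hz
        simp only [Finset.mem_insert] at hz
        have hA1 : ∀ z ∈ Q, z ≠ t → PM B (Q \ {z, t}) →
            PM B (insert (g t) (insert (f (g t)) Q) \ {z, f (g t)}) := by
          intro z hz hzt hp
          have : insert (g t) (insert (f (g t)) Q) \ {z, f (g t)} =
              insert t (insert (g t) (Q \ {z, t})) := by
            ext s; simp only [Finset.mem_sdiff, Finset.mem_insert, Finset.mem_singleton, not_or]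
            constructor
            · rintro ⟨rfl | rfl | h1, h2, h3⟩
              · right; left; rfl
              · exact absurd rfl h3
              · by_cases hst : s = t
                · left; exact hst
                · right; right; exact ⟨h1, h2, hst⟩
            · rintro (rfl | rfl | ⟨h1, h2, h3⟩)
              · exact ⟨Or.inr (Or.inr hQ.tmem), Ne.symm hzt, Ne.symm htt⟩
              · exact ⟨Or.inl rfl, fun h => hyQ (h ▸ hz), Ne.symm hfg.2.1⟩
              · exact ⟨Or.inr (Or.inr h1), h2, fun h => htQ (h ▸ h1)⟩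
          rw [this]
          exact PM.pair hp (by simp) (by simp [hyQ]) (Ne.symm hgt'.2.1) hBt
        rcases hz with rfl | rfl | hz
        · left
          refine ⟨Ne.symm hfg.2.1, ?_⟩
          have : insert (g t) (insert (f (g t)) Q) \ {g t, f (g t)} = Q := by
            ext s; simp only [Finset.mem_sdiff, Finset.mem_insert, Finset.mem_singleton, not_or]
            constructor
            · rintro ⟨h1, h2, h3⟩; tauto
            · intro hs
              exact ⟨Or.inr (Or.inr hs), fun h => hyQ (h ▸ hs), fun h => htQ (h ▸ hs)⟩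
          rw [this]; exact hQ.pm
        · right
          refine ⟨hty, ?_⟩
          have := hA1 y hQ.ymem (Ne.symm hQ.tney) hQt
          rwa [Finset.pair_comm] at this
        · rcases hQ.ear z hz with ⟨h1, h2⟩ | ⟨h1, h2⟩
          · left
            exact ⟨fun h => htQ (h ▸ hz), hA1 z hz h1 h2⟩
          · right
            refine ⟨h1, ?_⟩
            have : insert (g t) (insert (f (g t)) Q) \ {z, y} =
                insert (g t) (insert (f (g t)) (Q \ {z, y})) := by
              ext s; simp only [Finset.mem_sdiff, Finset.mem_insert, Finset.mem_singleton, not_or]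
              constructor
              · rintro ⟨h1 | h1 | h1, h2, h3⟩
                · left; exact h1
                · right; left; exact h1
                · right; right; exact ⟨h1, h2, h3⟩
              · rintro (rfl | rfl | ⟨h1, h2, h3⟩)
                · exact ⟨Or.inl rfl, fun h => hyQ (h ▸ hz), hgt'.1⟩
                · exact ⟨Or.inr (Or.inl rfl), fun h => htQ (h ▸ hz), hty⟩
                · exact ⟨Or.inr (Or.inr h1), h2, h3⟩
            rw [this]
            exact PM.pair h2 (by simp [hyQ]) (by simp [htQ]) (Ne.symm hfg.2.1) hBg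
  have hcard := hmax _ hnew
  rw [Finset.card_insert_of_notMem, Finset.card_insert_of_notMem htQ] at hcard
  · omega
  · simp only [Finset.mem_insert, not_or]
    exact ⟨Ne.symm hfg.2.1, hyQ⟩

theorem exists_removable {A : V → V → Prop} (hs : ∀ x y, A x y → A y x) {W : Finset V}
    (hirr : ∀ x ∈ W, ¬ A x x)
    (hfc : ∀ x ∈ W, PM A (W \ {x})) (hdeg : ∀ x ∈ W, 3 ≤ (W.filter (fun z => A x z)).card)
    (hne : W.Nonempty) :
    ∃ y ∈ W, ∃ c ∈ W, A y c ∧
      ∀ x ∈ W, PM (fun p q => A p q ∧ ¬ (p = y ∧ q = c) ∧ ¬ (p = c ∧ q = y)) (W \ {x}) := by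
  let F := W.powerset.filter (fun H => H ≠ W ∧ H.Nonempty ∧ (∀ x ∈ H, PM A (H \ {x})) ∧ PM A (W \ H))
  obtain ⟨x0, hx0⟩ := hne
  have hcardW : 1 < W.card := by
    have := hdeg x0 hx0
    have h2 := Finset.card_le_card (Finset.filter_subset (fun z => A x0 z) W)
    omega
  have hstart : ({x0} : Finset V) ∈ F := by
    simp only [F, Finset.mem_filter, Finset.mem_powerset, Finset.singleton_subset_iff]
    refine ⟨hx0, ?_, by simp, ?_, hfc x0 hx0⟩
    · intro h; rw [← h] at hcardW; simp at hcardW
    · intro x hx
      simp only [Finset.mem_singleton] at hx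
      subst hx; simpa using PM.empty
  obtain ⟨H, hHF, hmax⟩ := Finset.exists_max_image F Finset.card ⟨_, hstart⟩
  simp only [F, Finset.mem_filter, Finset.mem_powerset] at hHF
  obtain ⟨hHW, hHne, ⟨h0, hh0⟩, hHfc, hHc⟩ := hHF
  -- an edge leaving H
  obtain ⟨h', hh', y, hyW, hyH, hAy⟩ : ∃ h' ∈ H, ∃ y ∈ W, y ∉ H ∧ A h' y := by
    by_contra hcon
    push Not at hcon
    obtain ⟨z, hz, hzH⟩ : ∃ z ∈ W, z ∉ H := by
      by_contra h; push Not at h
      exact hHne (Finset.Subset.antisymm hHW h)
    have h1 := (hfc z hz).restrict (H : Set V) (by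
      intro a ha b hb hA
      simp only [Finset.mem_sdiff] at ha hb
      constructor
      · intro haH
        by_contra hbH
        exact hcon a haH b hb.1 hbH hA
      · intro hbH
        by_contra haH
        exact hcon b hbH a ha.1 haH (hs _ _ hA))
    have h2 : PM A H := by
      convert h1 using 1
      ext s; simp only [Finset.mem_filter, Finset.mem_sdiff, Finset.mem_singleton, Finset.mem_coe]
      constructor
      · intro hs; exact ⟨⟨hHW hs, fun h => hzH (h ▸ hs)⟩, hs⟩
      · tauto
    have h3 := h2.card_even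
    have h4 := (hHfc h0 hh0).card_even
    rw [Finset.card_sdiff_of_subset (by simpa using hh0)] at h4
    simp only [Finset.card_singleton] at h4
    have := Finset.card_pos.2 ⟨h0, hh0⟩
    rcases h3 with ⟨k, hk⟩; rcases h4 with ⟨l, hl⟩; omega
  -- functions
  have hyS : y ∈ W \ H := by simp [hyW, hyH]
  obtain ⟨f, hf⟩ := PM.toFun hs hHc
  obtain ⟨g, hg⟩ := PM.toFun hs (hfc y hyW)
  -- third neighbour
  obtain ⟨c, hcW, hAc, hch, hcf⟩ : ∃ c ∈ W, A y c ∧ c ≠ h' ∧ c ≠ f y := by
    by_contra hcon
    push Not at hcon
    have hsub : W.filter (fun z => A y z) ⊆ {h', f y} := by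
      intro z hz
      simp only [Finset.mem_filter] at hz
      simp only [Finset.mem_insert, Finset.mem_singleton]
      by_cases h : z = h'
      · left; exact h
      · right; exact hcon z hz.1 hz.2 h
    have h1 := Finset.card_le_card hsub
    have h2 := hdeg y hyW
    have h3 : ({h', f y} : Finset V).card ≤ 2 := Finset.card_le_two
    omega
  have hcy : c ≠ y := by
    rintro rfl
    exact hirr _ hcW hAc
  refine ⟨y, hyW, c, hcW, hAc, ?_⟩
  obtain ⟨Q, t, hQ, hgt⟩ := exists_alt (A := A)
    (B := fun p q => A p q ∧ ¬ (p = y ∧ q = c) ∧ ¬ (p = c ∧ q = y)) (g := g) hyS hf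
    (by
      intro x hx hxy
      have hx' : x ∈ W \ {y} := by
        simp only [Finset.mem_sdiff, Finset.mem_singleton] at hx ⊢; exact ⟨hx.1, hxy⟩
      obtain ⟨h1, h2, h3, h4⟩ := hg x hx'
      simp only [Finset.mem_sdiff, Finset.mem_singleton] at h1
      exact ⟨h1.2, h2, h3, h4⟩)
    (by intro x z hx hz hA; exact ⟨hA, by tauto, by tauto⟩)
    (by
      refine ⟨(hf y hyS).2.2.1, ?_, ?_⟩
      · rintro ⟨_, h⟩; exact hcf h.symm
      · rintro ⟨h, _⟩; exact hcy h.symm)
  have htS := hQ.sub hQ.tmem
  simp only [Finset.mem_sdiff] at htS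
  have hgt1 := hg t (by simp [htS.1, hQ.tney])
  simp only [Finset.mem_sdiff, Finset.mem_singleton] at hgt1
  have hhH : g t ∈ H := by
    by_contra h; exact hgt (by simp [hgt1.1.1, h])
  have hdisj : Disjoint H Q := by
    rw [Finset.disjoint_left]
    intro a ha haQ
    have := hQ.sub haQ
    simp only [Finset.mem_sdiff] at this
    exact this.2 ha
  have hEH : ∀ x ∈ H, PM (fun p q => A p q ∧ ¬ (p = y ∧ q = c) ∧ ¬ (p = c ∧ q = y)) (H \ {x}) := by
    intro x hx
    refine (hHfc x hx).mono ?_
    intro a ha b hb hA
    simp only [Finset.mem_sdiff] at ha hb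
    refine ⟨hA, ?_, ?_⟩
    · rintro ⟨rfl, _⟩; exact hyH ha.1
    · rintro ⟨_, rfl⟩; exact hyH hb.1
  have hfcE : ∀ x ∈ H ∪ Q,
      PM (fun p q => A p q ∧ ¬ (p = y ∧ q = c) ∧ ¬ (p = c ∧ q = y)) ((H ∪ Q) \ {x}) := by
    intro x hx
    rw [Finset.mem_union] at hx
    rcases hx with hx | hx
    · have hxQ : x ∉ Q := fun h => Finset.disjoint_left.1 hdisj hx h
      have : (H ∪ Q) \ {x} = (H \ {x}) ∪ Q := by
        ext s; simp only [Finset.mem_sdiff, Finset.mem_union, Finset.mem_singleton]
        constructor
        · tauto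
        · rintro (h | h)
          · tauto
          · exact ⟨Or.inr h, fun h' => hxQ (h' ▸ h)⟩
      rw [this]
      exact (hEH x hx).union hQ.pm (Finset.disjoint_of_subset_left Finset.sdiff_subset hdisj)
    · have hxH : x ∉ H := fun h => Finset.disjoint_left.1 hdisj h hx
      rcases hQ.ear x hx with ⟨h1, h2⟩ | ⟨h1, h2⟩
      · have hgtQ : g t ∉ Q := fun h => Finset.disjoint_left.1 hdisj hhH h
        have htH : t ∉ H := htS.2
        have : (H ∪ Q) \ {x} = insert t (insert (g t) ((H \ {g t}) ∪ (Q \ {x, t}))) := by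
          ext s; simp only [Finset.mem_sdiff, Finset.mem_union, Finset.mem_singleton,
            Finset.mem_insert, not_or]
          constructor
          · rintro ⟨h3 | h3, h4⟩
            · by_cases h5 : s = g t
              · right; left; exact h5
              · right; right; left; exact ⟨h3, h5⟩
            · by_cases h5 : s = t
              · left; exact h5
              · right; right; right; exact ⟨h3, h4, h5⟩
          · rintro (rfl | rfl | ⟨h3, h4⟩ | ⟨h3, h4, h5⟩)
            · exact ⟨Or.inr hQ.tmem, Ne.symm h1⟩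
            · exact ⟨Or.inl hhH, fun h => hxH (h ▸ hhH)⟩
            · exact ⟨Or.inl h3, fun h => hxH (h ▸ h3)⟩
            · exact ⟨Or.inr h3, h4⟩
        rw [this]
        refine PM.pair ((hEH _ hhH).union h2 ?_) ?_ ?_ (Ne.symm hgt1.2.1) ?_
        · exact Finset.disjoint_of_subset_left Finset.sdiff_subset
            (Finset.disjoint_of_subset_right Finset.sdiff_subset hdisj)
        · simp [htH]
        · simp [hgtQ]
        · refine ⟨hgt1.2.2.1, ?_, ?_⟩
          · rintro ⟨h, _⟩; exact hQ.tney h
          · rintro ⟨_, h⟩; exact hyH (h ▸ hhH)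
      · have hh'Q : h' ∉ Q := fun h => Finset.disjoint_left.1 hdisj hh' h
        have : (H ∪ Q) \ {x} = insert y (insert h' ((H \ {h'}) ∪ (Q \ {x, y}))) := by
          ext s; simp only [Finset.mem_sdiff, Finset.mem_union, Finset.mem_singleton,
            Finset.mem_insert, not_or]
          constructor
          · rintro ⟨h3 | h3, h4⟩
            · by_cases h5 : s = h'
              · right; left; exact h5
              · right; right; left; exact ⟨h3, h5⟩
            · by_cases h5 : s = y
              · left; exact h5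
              · right; right; right; exact ⟨h3, h4, h5⟩
          · rintro (rfl | rfl | ⟨h3, h4⟩ | ⟨h3, h4, h5⟩)
            · exact ⟨Or.inr hQ.ymem, Ne.symm h1⟩
            · exact ⟨Or.inl hh', fun h => hxH (h ▸ hh')⟩
            · exact ⟨Or.inl h3, fun h => hxH (h ▸ h3)⟩
            · exact ⟨Or.inr h3, h4⟩
        rw [this]
        refine PM.pair ((hEH _ hh').union h2 ?_) ?_ ?_ ?_ ?_
        · exact Finset.disjoint_of_subset_left Finset.sdiff_subset
            (Finset.disjoint_of_subset_right Finset.sdiff_subset hdisj)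
        · simp [hyH]
        · simp [hh'Q]
        · intro h; exact hyH (h ▸ hh')
        · refine ⟨hs _ _ hAy, ?_, ?_⟩
          · rintro ⟨_, h⟩; exact hch h.symm
          · rintro ⟨h, _⟩; exact hcy h.symm
  have hHQ : H ∪ Q = W := by
    by_contra hne
    have hmem : H ∪ Q ∈ F := by
      simp only [F, Finset.mem_filter, Finset.mem_powerset]
      refine ⟨?_, hne, ⟨h0, by simp [hh0]⟩, ?_, ?_⟩
      · apply Finset.union_subset hHW
        intro a ha
        have := hQ.sub ha
        simp only [Finset.mem_sdiff] at this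
        exact this.1
      · intro x hx
        exact (hfcE x hx).mono (fun a _ b _ h => h.1)
      · refine PM.ofFun (f := f) _ rfl ?_
        intro x hx
        simp only [Finset.mem_sdiff, Finset.mem_union, not_or] at hx
        obtain ⟨k1, k2, k3, k4⟩ := hf x (by simp [hx.1, hx.2.1])
        simp only [Finset.mem_sdiff] at k1
        refine ⟨?_, k2, k3, k4⟩
        simp only [Finset.mem_sdiff, Finset.mem_union, not_or]
        refine ⟨k1.1, k1.2, ?_⟩
        intro h
        have := hQ.fcl _ h
        rw [k4] at this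
        exact hx.2.2 this
    have h1 := hmax _ hmem
    rw [Finset.card_union_of_disjoint hdisj] at h1
    have := Finset.card_pos.2 ⟨y, hQ.ymem⟩
    omega
  intro x hx
  rw [← hHQ] at hx ⊢
  exact hfcE x hx

end Pool.Agent.Work.MP_a74ba6_co
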