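import Pool.Agent.Work.MP_a74ba6_co.Basic

set_option autoImplicit false

namespace Pool.Agent.Work.MP_a74ba6_co

open Classical

variable {V : Type*}

/-- The class of factor-critical oriented graphs without matchable cherries. -/
structure InK (W : Finset V) (D : V → V → Prop) : Prop where
  asym : ∀ x ∈ W, ∀ y ∈ W, D x y → ¬ D y x
  fc : ∀ x ∈ W, P W D {x}
  outc : ∀ u ∈ W, ∀ x ∈ W, ∀ y ∈ W, x ≠ y → D u x → D u y → ¬ P W D {u, x, y}
  inc : ∀ u ∈ W, ∀ x ∈ W, ∀ y ∈ W, x ≠ y → D x u → D y u → ¬ P W D {u, x, y}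

def rvD (D : V → V → Prop) (x y : V) : Prop := D y x

theorem Ad_rv {D : V → V → Prop} {x y : V} : Ad (rvD D) x y ↔ Ad D x y := Or.comm

theorem P.rv {W : Finset V} {D : V → V → Prop} {X : Finset V} (h : P W D X) :
    P W (rvD D) X := PM.mono h (fun _ _ _ _ h => Ad_rv.2 h)

theorem P.of_rv {W : Finset V} {D : V → V → Prop} {X : Finset V} (h : P W (rvD D) X) :
    P W D X := PM.mono h (fun _ _ _ _ h => Ad_rv.1 h)

theorem InK.rv {W : Finset V} {D : V → V → Prop} (h : InK W D) : InK W (rvD D) where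
  asym := fun x hx y hy h1 h2 => h.asym x hx y hy h2 h1
  fc := fun x hx => (h.fc x hx).rv
  outc := fun u hu x hx y hy hxy h1 h2 h3 => h.inc u hu x hx y hy hxy h1 h2 h3.of_rv
  inc := fun u hu x hx y hy hxy h1 h2 h3 => h.outc u hu x hx y hy hxy h1 h2 h3.of_rv

theorem InK.irrefl {W : Finset V} {D : V → V → Prop} (h : InK W D) {x : V} (hx : x ∈ W) :
    ¬ D x x := fun h1 => h.asym x hx x hx h1 h1

theorem InK.ne {W : Finset V} {D : V → V → Prop} (h : InK W D) {x y : V} (hx : x ∈ W)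
    (hD : D x y) : x ≠ y := by
  rintro rfl; exact h.irrefl hx hD

theorem InK.fwd {W : Finset V} {D : V → V → Prop} (h : InK W D) {x u y : V} (hx : x ∈ W)
    (hu : u ∈ W) (hy : y ∈ W) (hyx : y ≠ x) (hD : D x u) (hA : Ad D u y)
    (hP : P W D {x, u, y}) : D u y := by
  rcases hA with h1 | h1
  · exact h1
  · exact absurd (hP.congr (by intro z _; simp; tauto)) (h.inc u hu x hx y hy (Ne.symm hyx) hD h1)

theorem InK.bwd {W : Finset V} {D : V → V → Prop} (h : InK W D) {x u y : V} (hx : x ∈ W)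
    (hu : u ∈ W) (hy : y ∈ W) (hyx : y ≠ x) (hD : D u x) (hA : Ad D u y)
    (hP : P W D {x, u, y}) : D y u := by
  rcases hA with h1 | h1
  · exact absurd (hP.congr (by intro z _; simp; tauto)) (h.outc u hu x hx y hy (Ne.symm hyx) hD h1)
  · exact h1

theorem InK.exists_inout {W : Finset V} {D : V → V → Prop} (h : InK W D) (hc : 3 ≤ W.card)
    {x : V} (hx : x ∈ W) : (∃ y ∈ W, D x y) ∧ (∃ y ∈ W, D y x) := by
  obtain ⟨w, hw, hwx⟩ : ∃ w ∈ W, w ≠ x := by
    by_contra hcon
    push Not at hcon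
    have : W ⊆ {x} := by intro z hz; simp [hcon z hz]
    have := Finset.card_le_card this
    simp at this; omega
  obtain ⟨y, hy, hyw, hyx, hA, hP⟩ := (h.fc w hw).del hx (by simpa using Ne.symm hwx)
  obtain ⟨z, hz, hzy, hzx, hA', hP'⟩ := (h.fc y hy).del hx (by simpa using Ne.symm hyx)
  have hzy' : z ≠ y := by simpa using hzy
  rcases hA with h1 | h1
  · refine ⟨⟨y, hy, h1⟩, ⟨z, hz, ?_⟩⟩
    exact h.bwd hy hx hz hzy' h1 hA' (hP'.congr (by intro z _; simp; tauto))
  · refine ⟨⟨z, hz, ?_⟩, ⟨y, hy, h1⟩⟩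
    exact h.fwd hy hx hz hzy' h1 hA' (hP'.congr (by intro z _; simp; tauto))

/-- neighbours inside `W` -/
noncomputable def nb (W : Finset V) (D : V → V → Prop) (x : V) : Finset V :=
  W.filter (fun y => Ad D x y)

theorem mem_nb {W : Finset V} {D : V → V → Prop} {x y : V} : y ∈ nb W D x ↔ y ∈ W ∧ Ad D x y := by
  simp [nb]

theorem nb_rv {W : Finset V} {D : V → V → Prop} {x : V} : nb W (rvD D) x = nb W D x := by
  ext y; simp [mem_nb, Ad_rv]

/-- `u` has exactly the neighbours `v` (in) and `w` (out). -/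
structure D2 (W : Finset V) (D : V → V → Prop) (u v w : V) : Prop where
  hu : u ∈ W
  hv : v ∈ W
  hw : w ∈ W
  hvu : D v u
  huw : D u w
  uniq : ∀ y ∈ W, Ad D u y → y = v ∨ y = w

theorem D2.rv {W : Finset V} {D : V → V → Prop} {u v w : V} (h : D2 W D u v w) :
    D2 W (rvD D) u w v where
  hu := h.hu
  hv := h.hw
  hw := h.hv
  hvu := h.huw
  huw := h.hvu
  uniq := fun y hy hA => (h.uniq y hy (Ad_rv.1 hA)).symm

theorem InK.D2_of_card {W : Finset V} {D : V → V → Prop} (h : InK W D) (hc : 3 ≤ W.card)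
    {u : V} (hu : u ∈ W) (h2 : (nb W D u).card = 2) : ∃ v w, D2 W D u v w := by
  obtain ⟨⟨w, hw, huw⟩, ⟨v, hv, hvu⟩⟩ := h.exists_inout hc hu
  refine ⟨v, w, hu, hv, hw, hvu, huw, ?_⟩
  have hvw : v ≠ w := by
    rintro rfl; exact h.asym u hu v hv huw hvu
  have hsub : ({v, w} : Finset V) ⊆ nb W D u := by
    intro z hz
    simp only [Finset.mem_insert, Finset.mem_singleton] at hz
    rcases hz with rfl | rfl
    · exact mem_nb.2 ⟨hv, Or.inr hvu⟩
    · exact mem_nb.2 ⟨hw, Or.inl huw⟩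
  have heq : ({v, w} : Finset V) = nb W D u := by
    apply Finset.eq_of_subset_of_card_le hsub
    rw [h2, Finset.card_pair hvw]
  intro y hy hA
  have : y ∈ nb W D u := mem_nb.2 ⟨hy, hA⟩
  rw [← heq] at this
  simpa using this

theorem D2.ne_vw {W : Finset V} {D : V → V → Prop} {u v w : V} (h : D2 W D u v w)
    (hK : InK W D) : v ≠ w := by
  rintro rfl; exact hK.asym u h.hu v h.hv h.huw h.hvu

theorem D2.card {W : Finset V} {D : V → V → Prop} {u v w : V} (h : D2 W D u v w)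
    (hK : InK W D) : (nb W D u).card = 2 := by
  have : nb W D u = {v, w} := by
    ext z; simp only [mem_nb, Finset.mem_insert, Finset.mem_singleton]
    constructor
    · rintro ⟨h1, h2⟩; exact h.uniq z h1 h2
    · rintro (rfl | rfl)
      · exact ⟨h.hv, Or.inr h.hvu⟩
      · exact ⟨h.hw, Or.inl h.huw⟩
  rw [this, Finset.card_pair (h.ne_vw hK)]

/-- bicontraction: merge `v`, `u`, `w` into `u`. -/
def bc (D : V → V → Prop) (u v w : V) (x y : V) : Prop :=
  (x ≠ u ∧ y ≠ u ∧ D x y) ∨ (x = u ∧ y ≠ u ∧ (D v y ∨ D w y)) ∨ (x ≠ u ∧ y = u ∧ (D x v ∨ D x w))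

theorem bc_of_ne {D : V → V → Prop} {u v w x y : V} (hx : x ≠ u) (hy : y ≠ u) :
    bc D u v w x y ↔ D x y := by
  unfold bc; tauto

theorem bc_left {D : V → V → Prop} {u v w y : V} (hy : y ≠ u) :
    bc D u v w u y ↔ D v y ∨ D w y := by
  unfold bc; tauto

theorem bc_right {D : V → V → Prop} {u v w x : V} (hx : x ≠ u) :
    bc D u v w x u ↔ D x v ∨ D x w := by
  unfold bc; tauto

theorem Ad_bc_of_ne {D : V → V → Prop} {u v w x y : V} (hx : x ≠ u) (hy : y ≠ u) :
    Ad (bc D u v w) x y ↔ Ad D x y := by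
  unfold Ad; rw [bc_of_ne hx hy, bc_of_ne hy hx]

theorem Ad_bc_left {D : V → V → Prop} {u v w y : V} (hy : y ≠ u) :
    Ad (bc D u v w) u y ↔ Ad D v y ∨ Ad D w y := by
  unfold Ad; rw [bc_left hy, bc_right hy]; tauto

theorem bc_rv {D : V → V → Prop} {u v w x y : V} :
    rvD (bc D u v w) x y ↔ bc (rvD D) u w v x y := by
  unfold rvD bc; tauto

theorem bc_swap {D : V → V → Prop} {u v w x y : V} :
    bc D u v w x y ↔ bc D u w v x y := by
  unfold bc; tauto

/-- matchings avoiding the merged vertex are the same -/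
theorem P_bc_iff {W : Finset V} {D : V → V → Prop} {u v w : V} {X : Finset V} (hu : u ∈ X) :
    P (W \ {v, w}) (bc D u v w) X ↔ P W D (insert v (insert w X)) := by
  unfold P
  have hs : (W \ {v, w}) \ X = W \ insert v (insert w X) := by
    ext z; simp only [Finset.mem_sdiff, Finset.mem_insert, Finset.mem_singleton]; tauto
  rw [hs]
  constructor
  · intro h
    refine h.mono ?_
    intro x hx y hy hA
    simp only [Finset.mem_sdiff, Finset.mem_insert] at hx hy
    have hxu : x ≠ u := by rintro rfl; tauto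
    have hyu : y ≠ u := by rintro rfl; tauto
    exact (Ad_bc_of_ne hxu hyu).1 hA
  · intro h
    refine h.mono ?_
    intro x hx y hy hA
    simp only [Finset.mem_sdiff, Finset.mem_insert] at hx hy
    have hxu : x ≠ u := by rintro rfl; tauto
    have hyu : y ≠ u := by rintro rfl; tauto
    exact (Ad_bc_of_ne hxu hyu).2 hA

/-- lifting a matching through the merged vertex -/
theorem P_bc_lift {W : Finset V} {D : V → V → Prop} {u v w : V} (hK : InK W D)
    (h2 : D2 W D u v w) {X : Finset V} (huX : u ∉ X) (hvX : v ∉ X) (hwX : w ∉ X)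
    (hP : P (W \ {v, w}) (bc D u v w) X) : P W D X := by
  have hvw := h2.ne_vw hK
  have huv : u ≠ v := (hK.ne h2.hv h2.hvu).symm
  have huw : u ≠ w := hK.ne h2.hu h2.huw
  obtain ⟨z, hz, hzX, hzu, hA, hP'⟩ := hP.del (z := u)
    (by simp [h2.hu, huv, huw]) huX
  rw [P_bc_iff (by simp)] at hP'
  rw [Ad_bc_left hzu] at hA
  simp only [Finset.mem_sdiff, Finset.mem_insert, Finset.mem_singleton, not_or] at hz
  rcases hA with hA | hA
  · have h3 : P W D (insert u (insert w X)) := by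
      refine P.add (z := v) (z' := z) (hP'.congr (by intro z _; simp; tauto)) h2.hv hz.1 ?_ ?_
        (Ne.symm hz.2.1) hA
      · simp [hvX, huv.symm, hvw]
      · simp [hzX, hzu, hz.2.2]
    exact P.add h3 h2.hu h2.hw huX hwX huw (Or.inl h2.huw)
  · have h3 : P W D (insert u (insert v X)) := by
      refine P.add (z := w) (z' := z) (hP'.congr (by intro z _; simp; tauto)) h2.hw hz.1 ?_ ?_
        (Ne.symm hz.2.2) hA
      · simp [hwX, huw.symm, hvw.symm]
      · simp [hzX, hzu, hz.2.1]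
    exact P.add h3 h2.hu h2.hv huX hvX huv (Or.inr h2.hvu)

/-- the rest of the graph has a perfect matching -/
theorem D2.rest {W : Finset V} {D : V → V → Prop} {u v w : V} (h : D2 W D u v w)
    (hK : InK W D) : P W D {u, v, w} := by
  obtain ⟨z, hz, hzX, hzu, hA, hP⟩ := (hK.fc v h.hv).del h.hu
    (by simpa using (hK.ne h.hv h.hvu).symm)
  have : z = w := by
    rcases h.uniq z hz hA with rfl | rfl
    · simp at hzX
    · rfl
  subst this
  exact hP.congr (by intro z _; simp; tauto)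

/-- consistency of directions for common neighbours of `v` and `w` -/
theorem D2.cons1 {W : Finset V} {D : V → V → Prop} {u v w : V} (h : D2 W D u v w)
    (hK : InK W D) {y : V} (hy : y ∈ W) (hyu : y ≠ u) (hyv : y ≠ v) (hyw : y ≠ w)
    (h1 : D v y) : ¬ D y w := by
  intro h3
  have hvw := h.ne_vw hK
  have huv : u ≠ v := (hK.ne h.hv h.hvu).symm
  have huw : u ≠ w := hK.ne h.hu h.huw
  obtain ⟨z, hz, hzX, hzy, hA, hP⟩ := (h.rest hK).del hy (by simp [hyu, hyv, hyw])
  simp only [Finset.mem_insert, Finset.mem_singleton, not_or] at hzX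
  have hPv : P W D {v, y, z} := by
    refine P.add (z := u) (z' := w) (hP.congr (by intro z _; simp; tauto)) h.hu h.hw ?_ ?_ huw
      (Or.inl h.huw)
    · simp [huv, Ne.symm hyu, Ne.symm hzX.1]
    · simp [hvw.symm, Ne.symm hyw, Ne.symm hzX.2.2]
  have hPw : P W D {w, y, z} := by
    refine P.add (z := u) (z' := v) (hP.congr (by intro z _; simp; tauto)) h.hu h.hv ?_ ?_ huv
      (Or.inr h.hvu)
    · simp [huw, Ne.symm hyu, Ne.symm hzX.1]
    · simp [hvw, Ne.symm hyv, Ne.symm hzX.2.1]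
  have h4 := hK.fwd h.hv hy hz hzX.2.1 h1 hA hPv
  have h5 := hK.bwd h.hw hy hz hzX.2.2 h3 hA hPw
  exact hK.asym y hy z hz h4 h5

theorem D2.cons2 {W : Finset V} {D : V → V → Prop} {u v w : V} (h : D2 W D u v w)
    (hK : InK W D) {y : V} (hy : y ∈ W) (hyu : y ≠ u) (hyv : y ≠ v) (hyw : y ≠ w)
    (h1 : D w y) : ¬ D y v := by
  intro h3
  have hvw := h.ne_vw hK
  have huv : u ≠ v := (hK.ne h.hv h.hvu).symm
  have huw : u ≠ w := hK.ne h.hu h.huw
  obtain ⟨z, hz, hzX, hzy, hA, hP⟩ := (h.rest hK).del hy (by simp [hyu, hyv, hyw])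
  simp only [Finset.mem_insert, Finset.mem_singleton, not_or] at hzX
  have hPv : P W D {v, y, z} := by
    refine P.add (z := u) (z' := w) (hP.congr (by intro z _; simp; tauto)) h.hu h.hw ?_ ?_ huw
      (Or.inl h.huw)
    · simp [huv, Ne.symm hyu, Ne.symm hzX.1]
    · simp [hvw.symm, Ne.symm hyw, Ne.symm hzX.2.2]
  have hPw : P W D {w, y, z} := by
    refine P.add (z := u) (z' := v) (hP.congr (by intro z _; simp; tauto)) h.hu h.hv ?_ ?_ huv
      (Or.inr h.hvu)
    · simp [huw, Ne.symm hyu, Ne.symm hzX.1]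
    · simp [hvw, Ne.symm hyv, Ne.symm hzX.2.1]
  have h4 := hK.fwd h.hw hy hz hzX.2.2 h1 hA hPw
  have h5 := hK.bwd h.hv hy hz hzX.2.1 h3 hA hPv
  exact hK.asym y hy z hz h4 h5

end Pool.Agent.Work.MP_a74ba6_co
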