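import Pool.Agent.Work.MP_a74ba6_co.Ear

set_option autoImplicit false

namespace Pool.Agent.Work.MP_a74ba6_co

open Classical

variable {V : Type*}

theorem SS.other {W : Finset V} {D : V → V → Prop} {s : V} (h : SS W D s) (hK : InK W D) : ∃ y ∈ W, y ≠ s ∧ (nb W D y).card = 2 := by
  rcases h with ⟨y, hy, hys, _, hc⟩ | ⟨x, hx, y, hy, hxs, hsy, hcx, _, _⟩
  · exact ⟨y, hy, hys, hc⟩
  · exact ⟨x, hx, hK.ne hx hxs, hcx⟩

/-- delete the arc `a → b` -/
def dl (D : V → V → Prop) (a b : V) (x y : V) : Prop := D x y ∧ ¬ (x = a ∧ y = b)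

theorem dl_le {D : V → V → Prop} {a b x y : V} (h : dl D a b x y) : D x y := h.1

theorem Ad_dl_le {D : V → V → Prop} {a b x y : V} (h : Ad (dl D a b) x y) : Ad D x y :=
  h.imp dl_le dl_le

theorem P.mono {W : Finset V} {D D' : V → V → Prop} {X : Finset V} (h : P W D X)
    (hm : ∀ x ∈ W, x ∉ X → ∀ y ∈ W, y ∉ X → Ad D x y → Ad D' x y) : P W D' X := by
  refine PM.mono h ?_
  intro x hx y hy hA
  simp only [Finset.mem_sdiff] at hx hy
  exact hm x hx.1 hx.2 y hy.1 hy.2 hA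

theorem P.of_dl {W : Finset V} {D : V → V → Prop} {a b : V} {X : Finset V}
    (h : P W (dl D a b) X) : P W D X := h.mono (fun _ _ _ _ _ _ h => Ad_dl_le h)

/-- an arc whose deletion keeps factor-criticality -/
structure Rem (W : Finset V) (D : V → V → Prop) (a b : V) : Prop where
  ha : a ∈ W
  hb : b ∈ W
  hD : D a b
  fc : ∀ x ∈ W, P W (dl D a b) {x}

theorem Rem.inK {W : Finset V} {D : V → V → Prop} {a b : V} (h : Rem W D a b) (hK : InK W D) :
    InK W (dl D a b) where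
  asym := fun x hx y hy h1 h2 => hK.asym x hx y hy h1.1 h2.1
  fc := h.fc
  outc := fun u hu x hx y hy hxy h1 h2 h3 => hK.outc u hu x hx y hy hxy h1.1 h2.1 h3.of_dl
  inc := fun u hu x hx y hy hxy h1 h2 h3 => hK.inc u hu x hx y hy hxy h1.1 h2.1 h3.of_dl

theorem Rem.rv {W : Finset V} {D : V → V → Prop} {a b : V} (h : Rem W D a b) :
    Rem W (rvD D) b a where
  ha := h.hb
  hb := h.ha
  hD := h.hD
  fc := by
    intro x hx
    refine (h.fc x hx).mono ?_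
    intro p _ _ q _ _ hA
    rcases hA with hA | hA
    · exact Or.inr ⟨hA.1, fun h => hA.2 ⟨h.2, h.1⟩⟩
    · exact Or.inl ⟨hA.1, fun h => hA.2 ⟨h.2, h.1⟩⟩

/-- the situation of a minimal counterexample -/
structure Ctx (W : Finset V) (D : V → V → Prop) : Prop where
  hK : InK W D
  hc : 5 ≤ W.card
  hdeg : ∀ x ∈ W, 3 ≤ (nb W D x).card
  ihn : ∀ (W' : Finset V) (D' : V → V → Prop), InK W' D' → 3 ≤ W'.card → W'.card < W.card →
    ∀ s ∈ W', SS W' D' s
  ihe : ∀ a b, Rem W D a b → ∃ x ∈ W, (nb W (dl D a b) x).card = 2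

theorem rv_rv {D : V → V → Prop} : rvD (rvD D) = D := rfl

theorem Ctx.rv {W : Finset V} {D : V → V → Prop} (h : Ctx W D) : Ctx W (rvD D) where
  hK := h.hK.rv
  hc := h.hc
  hdeg := by intro x hx; rw [nb_rv]; exact h.hdeg x hx
  ihn := h.ihn
  ihe := by
    intro a b hR
    obtain ⟨x, hx, hcx⟩ := h.ihe b a hR.rv
    refine ⟨x, hx, ?_⟩
    rw [← hcx]
    congr 1
    ext z
    simp only [mem_nb]
    constructor
    · rintro ⟨h1, h2 | h2⟩
      · exact ⟨h1, Or.inr ⟨h2.1, fun h => h2.2 ⟨h.2, h.1⟩⟩⟩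
      · exact ⟨h1, Or.inl ⟨h2.1, fun h => h2.2 ⟨h.2, h.1⟩⟩⟩
    · rintro ⟨h1, h2 | h2⟩
      · exact ⟨h1, Or.inr ⟨h2.1, fun h => h2.2 ⟨h.2, h.1⟩⟩⟩
      · exact ⟨h1, Or.inl ⟨h2.1, fun h => h2.2 ⟨h.2, h.1⟩⟩⟩

theorem Ctx.bcSS {W : Finset V} {D : V → V → Prop} (h : Ctx W D) {K : V → V → Prop}
    (hK : InK W K) {u v w : V} (h2 : D2 W K u v w) :
    ∀ s ∈ W \ {v, w}, SS (W \ {v, w}) (bc K u v w) s := by
  have hvw := h2.ne_vw hK
  have hcard : (W \ {v, w}).card = W.card - 2 := by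
    rw [Finset.card_sdiff_of_subset, Finset.card_pair hvw]
    intro z hz; simp only [Finset.mem_insert, Finset.mem_singleton] at hz
    rcases hz with rfl | rfl
    · exact h2.hv
    · exact h2.hw
  have := h.hc
  exact h.ihn _ _ (h2.inK hK) (by omega) (by omega)

theorem Ctx.remSS {W : Finset V} {D : V → V → Prop} (h : Ctx W D) {a b : V}
    (hR : Rem W D a b) : ∀ s ∈ W, SS W (dl D a b) s := by
  obtain ⟨x, hx, hcx⟩ := h.ihe a b hR
  have hK := hR.inK h.hK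
  have := h.hc
  obtain ⟨v, w, h2⟩ := hK.D2_of_card (by omega) hx hcx
  intro s hs
  have hvw := h2.ne_vw hK
  refine SS_of_bc h2 hK (h.bcSS hK h2 x ?_) hs
  simp [hx, (hK.ne h2.hv h2.hvu).symm, hK.ne h2.hu h2.huw]

theorem nb_dl_of_ne {W : Finset V} {D : V → V → Prop} {a b x : V} (hxa : x ≠ a) (hxb : x ≠ b) :
    nb W (dl D a b) x = nb W D x := by
  ext z; simp only [mem_nb, Ad, dl]
  constructor
  · rintro ⟨h1, h2⟩; exact ⟨h1, by tauto⟩
  · rintro ⟨h1, h2⟩; exact ⟨h1, by tauto⟩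

theorem Ctx.rem_deg {W : Finset V} {D : V → V → Prop} (h : Ctx W D) {a b : V}
    (hR : Rem W D a b) : (nb W (dl D a b) a).card = 2 ∧ (nb W (dl D a b) b).card = 2 := by
  have hK := hR.inK h.hK
  have key : ∀ x ∈ W, (nb W (dl D a b) x).card = 2 → x = a ∨ x = b := by
    intro x hx hcx
    by_contra hcon
    push Not at hcon
    rw [nb_dl_of_ne hcon.1 hcon.2] at hcx
    have := h.hdeg x hx
    omega
  obtain ⟨y, hy, hya, hcy⟩ := (h.remSS hR a hR.ha).other hK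
  obtain ⟨z, hz, hzb, hcz⟩ := (h.remSS hR b hR.hb).other hK
  rcases key y hy hcy with rfl | rfl
  · exact absurd rfl hya
  · rcases key z hz hcz with rfl | rfl
    · exact ⟨hcz, hcy⟩
    · exact absurd rfl hzb

/-- tail of a removable arc: `p → a`, `a → q`, `a → b`, no other neighbours -/
structure T3 (W : Finset V) (D : V → V → Prop) (a b p q : V) : Prop where
  hp : p ∈ W
  hq : q ∈ W
  hpa : D p a
  haq : D a q
  hqb : q ≠ b
  uniq : ∀ y ∈ W, Ad D a y → y = p ∨ y = q ∨ y = b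

theorem Ctx.exists_T3 {W : Finset V} {D : V → V → Prop} (h : Ctx W D) {a b : V}
    (hR : Rem W D a b) : ∃ p q, T3 W D a b p q := by
  have hK := hR.inK h.hK
  have := h.hc
  obtain ⟨p, q, h2⟩ := hK.D2_of_card (by omega) hR.ha (h.rem_deg hR).1
  refine ⟨p, q, h2.hv, h2.hw, h2.hvu.1, h2.huw.1, ?_, ?_⟩
  · rintro rfl; exact h2.huw.2 ⟨rfl, rfl⟩
  · intro y hy hA
    by_cases hyb : y = b
    · exact Or.inr (Or.inr hyb)
    · have : Ad (dl D a b) a y := by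
        rcases hA with hA | hA
        · exact Or.inl ⟨hA, fun h => hyb h.2⟩
        · exact Or.inr ⟨hA, fun h => hyb (h.1.trans h.2)⟩
      rcases h2.uniq y hy this with h1 | h1
      · exact Or.inl h1
      · exact Or.inr (Or.inl h1)

theorem T3.D2 {W : Finset V} {D : V → V → Prop} {a b p q : V} (hT : T3 W D a b p q)
    (hR : Rem W D a b) (hK : InK W D) : D2 W (dl D a b) a p q where
  hu := hR.ha
  hv := hT.hp
  hw := hT.hq
  hvu := ⟨hT.hpa, fun h => hK.ne hR.ha hR.hD h.2⟩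
  huw := ⟨hT.haq, fun h => hT.hqb h.2⟩
  uniq := by
    intro y hy hA
    rcases hT.uniq y hy (Ad_dl_le hA) with h1 | h1 | h1
    · exact Or.inl h1
    · exact Or.inr h1
    · exfalso
      subst h1
      rcases hA with hA | hA
      · exact hA.2 ⟨rfl, rfl⟩
      · exact hK.asym _ hR.ha _ hR.hb hR.hD hA.1

theorem T3.ne {W : Finset V} {D : V → V → Prop} {a b p q : V} (hT : T3 W D a b p q)
    (hR : Rem W D a b) (hK : InK W D) : p ≠ a ∧ a ≠ q ∧ a ≠ b ∧ p ≠ q ∧ p ≠ b ∧ q ≠ b := by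
  refine ⟨hK.ne hT.hp hT.hpa, hK.ne hR.ha hT.haq, hK.ne hR.ha hR.hD, ?_, ?_, hT.hqb⟩
  · rintro rfl; exact hK.asym _ hT.hp _ hR.ha hT.hpa hT.haq
  · rintro rfl; exact hK.asym _ hT.hp _ hR.ha hT.hpa hR.hD

/-- the second vertex of degree two after the bicontraction -/
theorem Ctx.second {W : Finset V} {D : V → V → Prop} (h : Ctx W D) {a b p q : V}
    (hR : Rem W D a b) (hT : T3 W D a b p q) :
    (∃ y ∈ W, y ≠ a ∧ y ≠ b ∧ y ≠ p ∧ y ≠ q ∧ (nb W D y).card = 3 ∧ D p y ∧ D q y) ∨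
    (∃ y ∈ W, y ≠ a ∧ y ≠ b ∧ y ≠ p ∧ y ≠ q ∧ (nb W D y).card = 3 ∧ D y p ∧ D y q) ∨
    (nb (W \ {p, q}) (bc (dl D a b) a p q) a).card = 2 := by
  have hK' := hR.inK h.hK
  have h2 := hT.D2 hR h.hK
  obtain ⟨hpa, haq, hab, hpq, hpb, hqb⟩ := hT.ne hR h.hK
  obtain ⟨y, hy, hyb, hcy⟩ := (h.bcSS hK' h2 b (by simp [hR.hb, hpb.symm, hqb.symm])).other
    (h2.inK hK')
  by_cases hya : y = a
  · subst hya; right; right; exact hcy
  simp only [Finset.mem_sdiff, Finset.mem_insert, Finset.mem_singleton, not_or] at hy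
  obtain ⟨hyW, hyp, hyq⟩ := hy
  have hnb : nb W (dl D a b) y = nb W D y := nb_dl_of_ne hya hyb
  have hboth : Ad (dl D a b) p y ∧ Ad (dl D a b) q y := by
    by_contra hcon
    have := card_of_bc h2 hK' hya hyp hyq hyW hcon
    rw [hcy, hnb] at this
    have := h.hdeg y hyW
    omega
  have h3 := card_of_bc_both h2 hK' hya hyp hyq hyW hboth.1 hboth.2
  rw [hcy, hnb] at h3
  rcases hboth with ⟨hA1 | hA1, hA2 | hA2⟩
  · left; exact ⟨y, hyW, hya, hyb, hyp, hyq, h3.symm, hA1.1, hA2.1⟩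
  · exact absurd hA2 (h2.cons1 hK' hyW hya hyp hyq hA1)
  · exact absurd hA1 (h2.cons2 hK' hyW hya hyp hyq hA2)
  · right; left; exact ⟨y, hyW, hya, hyb, hyp, hyq, h3.symm, hA1.1, hA2.1⟩

end Pool.Agent.Work.MP_a74ba6_co
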