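import Pool.Agent.Work.MP_a74ba6_co.Bicon

set_option autoImplicit false

namespace Pool.Agent.Work.MP_a74ba6_co

open Classical

variable {V : Type*}

/-- there is a degree two vertex away from `s`, or a matchable directed cherry at `s` whose ends
have degree two -/
def SS (W : Finset V) (D : V → V → Prop) (s : V) : Prop :=
  (∃ y ∈ W, y ≠ s ∧ ¬ Ad D s y ∧ (nb W D y).card = 2) ∨
  (∃ x ∈ W, ∃ y ∈ W, D x s ∧ D s y ∧ (nb W D x).card = 2 ∧ (nb W D y).card = 2 ∧
    P W D {x, s, y})

noncomputable def cm (u v w z : V) : V := if z = v ∨ z = w then u else z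

theorem nb_bc {W : Finset V} {D : V → V → Prop} {u v w : V} (h : D2 W D u v w)
    (hK : InK W D) {y : V} (hyu : y ≠ u) (hyv : y ≠ v) (hyw : y ≠ w) (hyW : y ∈ W) :
    nb (W \ {v, w}) (bc D u v w) y = (nb W D y).image (cm u v w) := by
  have hvw := h.ne_vw hK
  have huv : u ≠ v := (hK.ne h.hv h.hvu).symm
  have huw : u ≠ w := hK.ne h.hu h.huw
  ext z
  simp only [mem_nb, Finset.mem_sdiff, Finset.mem_insert, Finset.mem_singleton, Finset.mem_image,
    not_or]
  constructor
  · rintro ⟨⟨hz, hzv, hzw⟩, hA⟩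
    by_cases hzu : z = u
    · subst hzu
      have hA' := Ad.symm hA
      rw [Ad_bc_left hyu] at hA'
      rcases hA' with h1 | h1
      · exact ⟨v, ⟨h.hv, Ad.symm h1⟩, by simp [cm]⟩
      · exact ⟨w, ⟨h.hw, Ad.symm h1⟩, by simp [cm]⟩
    · rw [Ad_bc_of_ne hyu hzu] at hA
      exact ⟨z, ⟨hz, hA⟩, by simp [cm, hzv, hzw]⟩
  · rintro ⟨t, ⟨ht, hA⟩, rfl⟩
    by_cases htv : t = v ∨ t = w
    · have : cm u v w t = u := by simp [cm, htv]
      rw [this]
      refine ⟨⟨h.hu, huv, huw⟩, Ad.symm ?_⟩
      rw [Ad_bc_left hyu]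
      rcases htv with rfl | rfl
      · exact Or.inl (Ad.symm hA)
      · exact Or.inr (Ad.symm hA)
    · have : cm u v w t = t := by simp [cm, htv]
      rw [this]
      rw [not_or] at htv
      refine ⟨⟨ht, htv.1, htv.2⟩, ?_⟩
      have htu : t ≠ u := by
        rintro rfl
        rcases h.uniq y hyW (Ad.symm hA) with h1 | h1
        · exact hyv h1
        · exact hyw h1
      rw [Ad_bc_of_ne hyu htu]; exact hA

theorem card_of_bc {W : Finset V} {D : V → V → Prop} {u v w : V} (h : D2 W D u v w)
    (hK : InK W D) {y : V} (hyu : y ≠ u) (hyv : y ≠ v) (hyw : y ≠ w) (hyW : y ∈ W)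
    (hn : ¬ (Ad D v y ∧ Ad D w y)) :
    (nb (W \ {v, w}) (bc D u v w) y).card = (nb W D y).card := by
  rw [nb_bc h hK hyu hyv hyw hyW]
  apply Finset.card_image_of_injOn
  have hu : u ∉ nb W D y := by
    intro hu
    rcases h.uniq y hyW (Ad.symm (mem_nb.1 hu).2) with h1 | h1
    · exact hyv h1
    · exact hyw h1
  intro a ha b hb hab
  simp only [Finset.mem_coe] at ha hb
  simp only [cm] at hab
  by_cases h1 : a = v ∨ a = w <;> by_cases h2 : b = v ∨ b = w
  · rcases h1 with rfl | rfl <;> rcases h2 with rfl | rfl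
    · rfl
    · exact absurd ⟨Ad.symm (mem_nb.1 ha).2, Ad.symm (mem_nb.1 hb).2⟩ hn
    · exact absurd ⟨Ad.symm (mem_nb.1 hb).2, Ad.symm (mem_nb.1 ha).2⟩ hn
    · rfl
  · rw [if_pos h1, if_neg h2] at hab
    rw [← hab] at hb; exact absurd hb hu
  · rw [if_neg h1, if_pos h2] at hab
    rw [hab] at ha; exact absurd ha hu
  · rw [if_neg h1, if_neg h2] at hab; exact hab

theorem card_of_bc_both {W : Finset V} {D : V → V → Prop} {u v w : V} (h : D2 W D u v w)
    (hK : InK W D) {y : V} (hyu : y ≠ u) (hyv : y ≠ v) (hyw : y ≠ w) (hyW : y ∈ W)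
    (h1 : Ad D v y) (h2 : Ad D w y) :
    (nb (W \ {v, w}) (bc D u v w) y).card + 1 = (nb W D y).card := by
  have hvw := h.ne_vw hK
  rw [nb_bc h hK hyu hyv hyw hyW]
  have hu : u ∉ nb W D y := by
    intro hu
    rcases h.uniq y hyW (Ad.symm (mem_nb.1 hu).2) with h1 | h1
    · exact hyv h1
    · exact hyw h1
  have hvm : v ∈ nb W D y := mem_nb.2 ⟨h.hv, Ad.symm h1⟩
  have hwm : w ∈ nb W D y := mem_nb.2 ⟨h.hw, Ad.symm h2⟩
  have himg : (nb W D y).image (cm u v w) = ((nb W D y).erase v).image (cm u v w) := by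
    ext z
    simp only [Finset.mem_image, Finset.mem_erase]
    constructor
    · rintro ⟨a, ha, rfl⟩
      by_cases hav : a = v
      · exact ⟨w, ⟨hvw.symm, hwm⟩, by simp [cm, hav]⟩
      · exact ⟨a, ⟨hav, ha⟩, rfl⟩
    · rintro ⟨a, ⟨_, ha⟩, rfl⟩; exact ⟨a, ha, rfl⟩
  rw [himg, Finset.card_image_of_injOn, Finset.card_erase_of_mem hvm]
  · have := Finset.card_pos.2 ⟨v, hvm⟩
    omega
  · intro a ha b hb hab
    simp only [Finset.coe_erase, Set.mem_diff, Finset.mem_coe, Set.mem_singleton_iff] at ha hb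
    simp only [cm] at hab
    by_cases h1 : a = v ∨ a = w <;> by_cases h2 : b = v ∨ b = w
    · rcases h1 with h1 | h1 <;> rcases h2 with h2 | h2
      · exact absurd h1 ha.2
      · exact absurd h1 ha.2
      · exact absurd h2 hb.2
      · rw [h1, h2]
    · rw [if_pos h1, if_neg h2] at hab
      rw [← hab] at hb; exact absurd hb.1 hu
    · rw [if_neg h1, if_pos h2] at hab
      rw [hab] at ha; exact absurd ha.1 hu
    · rw [if_neg h1, if_neg h2] at hab; exact hab

theorem SS_of_bc {W : Finset V} {D : V → V → Prop} {u v w : V} (h : D2 W D u v w)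
    (hK : InK W D) (hS : SS (W \ {v, w}) (bc D u v w) u) {s : V} (hs : s ∈ W) : SS W D s := by
  have hvw := h.ne_vw hK
  have huv : u ≠ v := (hK.ne h.hv h.hvu).symm
  have huw : u ≠ w := hK.ne h.hu h.huw
  have hK' := h.inK hK
  -- if s is not adjacent to u
  by_cases hsv : s = v ∨ s = w ∨ s = u
  swap
  · left
    push Not at hsv
    refine ⟨u, h.hu, Ne.symm hsv.2.2, ?_, h.card hK⟩
    intro hA
    rcases h.uniq s hs (Ad.symm hA) with h1 | h1
    · exact hsv.1 h1
    · exact hsv.2.1 h1
  rcases hS with ⟨y, hy, hyu, hA, hc⟩ | ⟨x, hx, y, hy, hxu, huy, hcx, hcy, hP⟩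
  · left
    simp only [Finset.mem_sdiff, Finset.mem_insert, Finset.mem_singleton, not_or] at hy
    rw [Ad_bc_left hyu, not_or] at hA
    have hc' : (nb W D y).card = 2 := by
      rw [← card_of_bc h hK hyu hy.2.1 hy.2.2 hy.1 (by tauto)]; exact hc
    refine ⟨y, hy.1, ?_, ?_, hc'⟩
    · rcases hsv with rfl | rfl | rfl
      · exact hy.2.1
      · exact hy.2.2
      · exact hyu
    · rcases hsv with rfl | rfl | rfl
      · exact hA.1
      · exact hA.2
      · intro hA'
        rcases h.uniq y hy.1 hA' with h1 | h1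
        · exact hy.2.1 h1
        · exact hy.2.2 h1
  · simp only [Finset.mem_sdiff, Finset.mem_insert, Finset.mem_singleton, not_or] at hx hy
    obtain ⟨hx1, hxv, hxw⟩ := hx
    obtain ⟨hy1, hyv, hyw⟩ := hy
    have hxne : x ≠ u := by rintro rfl; unfold bc at hxu; tauto
    have hyne : y ≠ u := by rintro rfl; unfold bc at huy; tauto
    have hxW' : x ∈ W \ {v, w} := by simp [hx1, hxv, hxw]
    have hyW' : y ∈ W \ {v, w} := by simp [hy1, hyv, hyw]
    have huW' : u ∈ W \ {v, w} := by simp [h.hu, huv, huw]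
    have hxy : x ≠ y := by
      rintro rfl; exact hK'.asym _ hxW' _ huW' hxu huy
    have hnx : ¬ bc D u v w u x := hK'.asym _ hxW' _ huW' hxu
    have hny : ¬ bc D u v w y u := hK'.asym _ huW' _ hyW' huy
    rw [bc_left hxne, not_or] at hnx
    rw [bc_right hyne, not_or] at hny
    rw [bc_right hxne] at hxu
    rw [bc_left hyne] at huy
    rw [P_bc_iff (by simp)] at hP
    -- key incompatibility
    have key : ¬ (D x w ∧ D v y) := by
      rintro ⟨h1, h2⟩
      refine hK.outc v h.hv u h.hu y hy1 (Ne.symm hyne) h.hvu h2 ?_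
      refine P.add (z := w) (z' := x) (hP.congr (by intro z _; simp; tauto)) h.hw hx1 ?_ ?_
        (Ne.symm hxw) (Or.inr h1)
      · simp [hvw.symm, huw.symm, Ne.symm hyw]
      · simp [hxv, hxne, hxy]
    by_cases hxw' : D x w
    · -- then y is not an out-neighbour of v
      have hvy : ¬ D v y := fun h2 => key ⟨hxw', h2⟩
      have hwy : D w y := by tauto
      have hAvy : ¬ Ad D v y := by unfold Ad; tauto
      have hcy' : (nb W D y).card = 2 := by
        rw [← card_of_bc h hK hyne hyv hyw hy1 (by tauto)]; exact hcy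
      rcases hsv with rfl | rfl | rfl
      · left; exact ⟨y, hy1, hyv, hAvy, hcy'⟩
      · right
        by_cases hxv' : D x v
        · refine ⟨u, h.hu, y, hy1, h.huw, hwy, h.card hK, hcy', ?_⟩
          refine P.add (z := v) (z' := x) (hP.congr (by intro z _; simp; tauto)) h.hv hx1 ?_ ?_
            (Ne.symm hxv) (Or.inr hxv')
          · simp [hvw, huv.symm, Ne.symm hyv]
          · simp [hxw, hxne, hxy]
        · have hcx' : (nb W D x).card = 2 := by
            rw [← card_of_bc h hK hxne hxv hxw hx1 (by unfold Ad; tauto)]; exact hcx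
          refine ⟨x, hx1, y, hy1, hxw', hwy, hcx', hcy', ?_⟩
          refine P.add (z := u) (z' := v) (hP.congr (by intro z _; simp; tauto)) h.hu h.hv ?_ ?_
            huv (Or.inr h.hvu)
          · simp [huw, Ne.symm hxne, Ne.symm hyne]
          · simp [hvw, Ne.symm hxv, Ne.symm hyv]
      · left
        refine ⟨y, hy1, hyne, ?_, hcy'⟩
        intro hA'
        rcases h.uniq y hy1 hA' with h1 | h1
        · exact hyv h1
        · exact hyw h1
    · have hxv' : D x v := by tauto
      have hAxw : ¬ Ad D w x := by unfold Ad; tauto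
      have hcx' : (nb W D x).card = 2 := by
        rw [← card_of_bc h hK hxne hxv hxw hx1 (by tauto)]; exact hcx
      rcases hsv with rfl | rfl | rfl
      · right
        by_cases hwy : D w y
        · refine ⟨x, hx1, u, h.hu, hxv', h.hvu, hcx', h.card hK, ?_⟩
          refine P.add (z := w) (z' := y) (hP.congr (by intro z _; simp; tauto)) h.hw hy1 ?_ ?_
            (Ne.symm hyw) (Or.inl hwy)
          · simp [hvw.symm, huw.symm, Ne.symm hxw]
          · simp [hyv, hyne, Ne.symm hxy]
        · have hvy : D s y := by tauto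
          have hcy' : (nb W D y).card = 2 := by
            rw [← card_of_bc h hK hyne hyv hyw hy1 (by unfold Ad; tauto)]; exact hcy
          refine ⟨x, hx1, y, hy1, hxv', hvy, hcx', hcy', ?_⟩
          refine P.add (z := u) (z' := w) (hP.congr (by intro z _; simp; tauto)) h.hu h.hw ?_ ?_
            huw (Or.inl h.huw)
          · simp [huv, Ne.symm hxne, Ne.symm hyne]
          · simp [hvw.symm, Ne.symm hxw, Ne.symm hyw]
      · left; exact ⟨x, hx1, hxw, hAxw, hcx'⟩
      · left
        refine ⟨x, hx1, hxne, ?_, hcx'⟩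
        intro hA'
        rcases h.uniq x hx1 hA' with h1 | h1
        · exact hxv h1
        · exact hxw h1

/-- the base case -/
theorem SS_three {W : Finset V} {D : V → V → Prop} (hK : InK W D) (hc : W.card = 3) {s : V}
    (hs : s ∈ W) : SS W D s := by
  obtain ⟨⟨y, hy, hsy⟩, ⟨x, hx, hxs⟩⟩ := hK.exists_inout (by omega) hs
  have hxy : x ≠ y := by
    rintro rfl; exact hK.asym _ hx _ hs hxs hsy
  have hxs' : x ≠ s := hK.ne hx hxs
  have hsy' : s ≠ y := hK.ne hs hsy
  have hW : W = {x, s, y} := by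
    symm
    apply Finset.eq_of_subset_of_card_le
    · intro z hz; simp only [Finset.mem_insert, Finset.mem_singleton] at hz
      rcases hz with rfl | rfl | rfl <;> assumption
    · rw [hc, Finset.card_eq_three.2 ⟨x, s, y, hxs', hxy, hsy', rfl⟩]
  have hxy' : Ad D x y := by
    obtain ⟨z, hz, hzX, hzx, hA, hP⟩ := (hK.fc s hs).del hx (by simpa using hxs')
    rw [hW] at hz
    simp only [Finset.mem_insert, Finset.mem_singleton] at hz hzX
    rcases hz with rfl | rfl | rfl
    · exact absurd rfl hzx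
    · exact absurd rfl hzX
    · exact hA
  right
  refine ⟨x, hx, y, hy, hxs, hsy, ?_, ?_, ?_⟩
  · have : nb W D x = {s, y} := by
      ext z
      simp only [mem_nb, Finset.mem_insert, Finset.mem_singleton]
      constructor
      · rintro ⟨h1, h2⟩
        rw [hW] at h1
        simp only [Finset.mem_insert, Finset.mem_singleton] at h1
        rcases h1 with rfl | h1
        · exfalso; rcases h2 with h2 | h2 <;> exact hK.irrefl hx h2
        · exact h1
      · rintro (rfl | rfl)
        · exact ⟨hs, Or.inl hxs⟩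
        · exact ⟨hy, hxy'⟩
    rw [this, Finset.card_pair hsy']
  · have : nb W D y = {s, x} := by
      ext z
      simp only [mem_nb, Finset.mem_insert, Finset.mem_singleton]
      constructor
      · rintro ⟨h1, h2⟩
        rw [hW] at h1
        simp only [Finset.mem_insert, Finset.mem_singleton] at h1
        rcases h1 with rfl | rfl | rfl
        · exact Or.inr rfl
        · exact Or.inl rfl
        · exfalso; rcases h2 with h2 | h2 <;> exact hK.irrefl hy h2
      · rintro (rfl | rfl)
        · exact ⟨hs, Or.inr hsy⟩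
        · exact ⟨hx, Ad.symm hxy'⟩
    rw [this, Finset.card_pair (Ne.symm hxs')]
  · unfold P
    have : W \ {x, s, y} = ∅ := by rw [hW]; simp
    rw [this]; exact PM.empty

end Pool.Agent.Work.MP_a74ba6_co
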